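import Pool.Agent.Q47.CY.Def
import Pool.Agent.Y167.Stm

/-!
# Toric bundles over quotients of complex tori: the cone conjecture

`X = V / Γ` is the quotient of a complex torus by a finite group. The linear embedding `j : E → V`
describes a fibration `X → Z`: the curves in its fibres lie in the images of the translates of `E`
(`E = V` if `Z` is a point). `Y → X` is a toric bundle (`Bundle` in `Pool.Agent.Q47.CY.Def`). All
classes are classes in `N^1(Y/Z)`. The class of a line bundle on `X` is the restriction to `E` of its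
Chern form (`N1 Γ j` and the other notions for `X` are defined in `Pool.Agent.Y167.Stm`).
-/

set_option autoImplicit false

namespace Q47.CP

open Pool.Agent.W594.SYZ2 Pool.Agent.TH735.AQ Q47.TB MvPolynomial
open Pool.Agent.Y167 (AffGrp N1s cone IsClass Normalizes)
open Pool.Agent.Y167.CC (LinGrp N1 form nefCone)
open Q47.CY (Cl cls Bundle Bdry)

section Generic

variable {W : Type*} [AddCommGroup W] [Module ℝ W]

/-- The convex cone spanned by `A`. -/
def hull (A : Set W) : Set W := {p | ∃ S : Finset W, (∀ a ∈ S, a ∈ A) ∧ p ∈ cone S}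

/-- The group `𝒢` preserves a lattice `M` which is commensurable with the lattice `I`. -/
def PresLatt (I : Set W) (𝒢 : LinGrp W) : Prop :=
  ∃ (M : AddSubgroup W) (k : ℕ), 0 < k ∧ (∀ x ∈ I, (k : ℝ) • x ∈ M) ∧
    (∀ x ∈ M, (k : ℝ) • x ∈ I) ∧ ∀ g ∈ 𝒢, ∀ x ∈ M, g x ∈ M

end Generic

section Groups

variable {V W : Type*} [NormedAddCommGroup V] [NormedSpace ℂ V] [NormedAddCommGroup W]
  [NormedSpace ℂ W]

/-- The point `f v`. -/
def ap (f : V ≃ᵃ[ℂ] V) (v : V) : V := f v

/-- `X = V / Γ` is the quotient of the complex torus `V / Λ`, where `Λ` is the group of the vectors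
`b` such that the translation `v ↦ b + v` is in `Γ`, a full lattice, by the finite group `Γ / Λ`. -/
def IsTQ (Γ : AffGrp V) : Prop :=
  ∃ Λ : AddSubgroup V, (∀ b, b ∈ Λ ↔ AffineEquiv.constVAdd ℂ V b ∈ Γ) ∧ DiscreteTopology Λ ∧
    Submodule.span ℝ (Λ : Set V) = ⊤ ∧ {A : V ≃ₗ[ℂ] V | ∃ γ ∈ Γ, γ.linear = A}.Finite

/-- The linear map `π : V → W` induces a fibration `X = V / Γ → Z = W / Γ'`: `π` is surjective and
`Γ'` is the group of the transformations of `W` induced by those of `Γ`, so that the fibres are the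
images of the affine subspaces `π⁻¹(w)`, hence connected, and `Z` is a torus quotient. -/
def IsFib (Γ : AffGrp V) (Γ' : AffGrp W) (π : V →ₗ[ℂ] W) : Prop :=
  Function.Surjective π ∧ (∀ γ ∈ Γ, ∃ δ ∈ Γ', ∀ v, ap δ (π v) = π (ap γ v)) ∧
    (∀ δ ∈ Γ', ∃ γ ∈ Γ, ∀ v, ap δ (π v) = π (ap γ v)) ∧ IsTQ Γ'

/-- The affine transformation `f` of `V` induces an automorphism over `Z = W / Γ'`. -/
def Over (Γ' : AffGrp W) (π : V →ₗ[ℂ] W) (f : V ≃ᵃ[ℂ] V) : Prop :=
  ∃ δ ∈ Γ', ∀ v, π (ap f v) = ap δ (π v)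

end Groups

variable {V W E : Type*} [NormedAddCommGroup V] [NormedSpace ℂ V] [NormedAddCommGroup W]
  [NormedSpace ℂ W] [NormedAddCommGroup E] [NormedSpace ℂ E] {Γ : AffGrp V}
  {ι : Type*} [Fintype ι] {n r : ℕ} {Y : Bundle Γ ι n}

/-- The space `N^1(Y/Z)`: the class of the line bundle `O_Y(d; M)` is the pair of the class of
`∑ d_i D_i` on the fibre and of the class of `M` in `N^1(X/Z)`. -/
def NY (Y : Bundle Γ ι n) (j : E →ₗ[ℂ] V) : Type _ := Cl Y.u × N1 Γ j

variable {j : E →ₗ[ℂ] V}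

noncomputable instance : AddCommGroup (NY Y j) := Prod.instAddCommGroup (G := Cl Y.u) (H := N1 Γ j)

noncomputable instance : Module ℝ (NY Y j) := Prod.instModule (M := Cl Y.u) (N := N1 Γ j)

noncomputable instance : TopologicalSpace (NY Y j) :=
  instTopologicalSpaceProd (X := Cl Y.u) (Y := N1 Γ j)

/-- The class in `N^1(X/Z)` of a line bundle on `X` with the Chern form `H`. -/
noncomputable def chernCl (j : E →ₗ[ℂ] V) {L : LineBundle Γ} {H : V → V → ℂ}
    (hL : IsChernForm L H) : N1 Γ j :=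
  ⟨fun u w => H (j u) (j w), Submodule.subset_span ⟨L, H, hL, fun _ _ => rfl⟩⟩

/-- The class of the divisor `∑ β_i D_i` on `Y`, where `D_i` is the divisor `x_i = 0`, a section of
`O_Y(e_i; c_i)`. -/
noncomputable def D (Y : Bundle Γ ι n) (j : E →ₗ[ℂ] V) (β : ι → ℝ) : NY Y j :=
  (cls Y.u β, ∑ i, β i • chernCl j (Y.chern i))

/-- The pullback of a class from `X` to `Y`. -/
noncomputable def pb (Y : Bundle Γ ι n) (j : E →ₗ[ℂ] V) (x : N1 Γ j) : NY Y j := (0, x)

/-- `p` is the class of the line bundle `O_Y(d; M)`. -/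
def IsClassY (d : ι → ℤ) (M : LineBundle Γ) (p : NY Y j) : Prop :=
  p.1 = cls Y.u (fun i => (d i : ℝ)) ∧ IsClass j M (form p.2)

/-- The integral classes: the classes of line bundles on `Y`. -/
def intY (Y : Bundle Γ ι n) (j : E →ₗ[ℂ] V) : Set (NY Y j) :=
  {p | ∃ (d : ι → ℤ) (M : LineBundle Γ), IsClassY d M p}

/-- The cone `Eff(Y/Z)`: the convex cone spanned by the classes of the line bundles on `Y` which have
a nonzero section. -/
def effY (Y : Bundle Γ ι n) (j : E →ₗ[ℂ] V) : Set (NY Y j) :=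
  hull {p | ∃ (d : ι → ℤ) (M : LineBundle Γ), IsClassY d M p ∧
    ∃ G, IsSection Y.u Y.c d M.e G ∧ ∃ v, G v ≠ 0}

/-- The cone `Nef(Y/Z)`: for each cone `σ` of the fan the class is the sum of the class of a divisor
`∑ β_i D_i`, `β_i ≥ 0`, with `β_i = 0` for `i ∈ σ`, and of the pullback of a class on `X` which is nef
over `Z`. (Such classes are nonnegative on all curves `C` in the fibres of `Y → Z`: take `σ` such that
`D_i` contains a general point of `C` if and only if `i ∈ σ`. Conversely the restrictions of a nef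
class to the fibres of `Y → X`, and to the sections `X → Y` given by the loci `x_i = 0`, `i ∈ σ`,
for the maximal cones `σ`, are nef.) -/
def nefY (Y : Bundle Γ ι n) (j : E →ₗ[ℂ] V) : Set (NY Y j) :=
  {p | ∀ σ ∈ Y.S, ∃ β : ι → ℝ, (∀ i, 0 ≤ β i) ∧ (∀ i ∈ σ, β i = 0) ∧
    ∃ x ∈ nefCone Γ j, p = D Y j β + pb Y j x}

/-- The transformation `(v, x) ↦ (f v, (a_i(v) x_i)_i)` of `V × ℂ^ι` induces an automorphism of `Y`:
`f` is an affine transformation of `V` which induces an automorphism of `X`, the functions `a_i` are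
holomorphic without zeros, and the transformation is compatible with the action of `Γ` up to the
group `G` of the `t ∈ (ℂ^*)^ι` with `∏ t_i ^ (u_i)_k = 1`: if `f γ = γ' f`, then the two points
`(f γ v, (a_i(γ v) c_i(γ, v) x_i)_i)` and `(γ' f v, (c_i(γ', f v) a_i(v) x_i)_i)` are in the same orbit
of `G`. -/
def IsAutY (Y : Bundle Γ ι n) (f : V ≃ᵃ[ℂ] V) (a : ι → V → ℂ) : Prop :=
  Normalizes Γ f ∧ (∀ i, Differentiable ℂ (a i)) ∧ (∀ i v, a i v ≠ 0) ∧
    ∀ γ γ' : Γ, (∀ v, ap f (ap γ v) = ap γ' (ap f v)) → ∀ (v : V) (k : Fin n),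
      ∏ i, (a i (ap γ v) * (Y.c i).e γ v) ^ Y.u i k =
        ∏ i, (a i v * (Y.c i).e γ' (ap f v)) ^ Y.u i k

/-- `g` is the pullback on `N^1(Y/Z)` by an automorphism of `Y` given by
`(v, x) ↦ (f v, (a_i(v) x_i)_i)`: it fixes the classes of the divisors `D_i`, and it maps the pullback
of a class `z` on `X` to the pullback of `z' = f^* z`. -/
def IsPullbackY (Y : Bundle Γ ι n) (j : E →ₗ[ℂ] V) (f : V ≃ᵃ[ℂ] V) (g : NY Y j → NY Y j) : Prop :=
  (∀ β, g (D Y j β) = D Y j β) ∧
    ∀ z z' : N1 Γ j, (∀ e w e' w' : E, j e' = f.linear (j e) → j w' = f.linear (j w) →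
      form z' e w = form z e' w') → g (pb Y j z) = pb Y j z'

/-- The class of `B_l` in `N^1(Y/Z)`. -/
noncomputable def cl (Δ : Bdry Y r) (j : E →ₗ[ℂ] V) (l : Fin r) : NY Y j :=
  (cls Y.u (fun i => (Δ.d l i : ℝ)), chernCl j (Δ.chern l))

/-- `K_Y + Δ` is numerically trivial over `Z`: here `K = O_X(m K_X)`, `m ≥ 1`, is a line bundle on `X`
with the class `k`, `ρ` defines the ramification divisor of `V → X`, and
`K_Y = π^* K_X - ∑ D_i`. -/
def IsCY (Δ : Bdry Y r) (j : E →ₗ[ℂ] V) : Prop :=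
  ∃ (m : ℕ) (ρ : V → ℂ) (K : LineBundle Γ) (k : N1 Γ j), 1 ≤ m ∧ IsRamification Γ ρ ∧
    Pool.Agent.TH735.AQ.IsLogPluricanonical K m ρ (fun _ => 1) ∧ IsClass j K (form k) ∧
    (1 / m : ℝ) • pb Y j k - D Y j (fun _ => 1) + ∑ l, Δ.δ l • cl Δ j l = 0

/-- The group generated by the pullbacks by those automorphisms of `Y` over `Z = W / Γ'` of the form
`(v, x) ↦ (f v, (a_i(v) x_i)_i)` which map all `B_j` to themselves. -/
noncomputable def grp (Δ : Bdry Y r) (Γ' : AffGrp W) (π : V →ₗ[ℂ] W) (j : E →ₗ[ℂ] V) :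
    LinGrp (NY Y j) :=
  Subgroup.closure {g | ∃ (f : V ≃ᵃ[ℂ] V) (a : ι → V → ℂ), IsAutY Y f a ∧ Over Γ' π f ∧
    Δ.IsFixedBy f a ∧ IsPullbackY Y j f g}

/-- The group generated by the pullbacks on `N^1(Y)` by those automorphisms of `Y` of the form
`(v, x) ↦ (f v, (a_i(v) x_i)_i)` which map all `B_j` to themselves. -/
noncomputable def absGrp (Δ : Bdry Y r) : LinGrp (NY Y (LinearMap.id : V →ₗ[ℂ] V)) :=
  Subgroup.closure {g | ∃ (f : V ≃ᵃ[ℂ] V) (a : ι → V → ℂ), IsAutY Y f a ∧ Δ.IsFixedBy f a ∧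
    IsPullbackY Y LinearMap.id f g}

end Q47.CP
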