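import Pool.Agent.Q47.CY.Main
import Pool.Agent.Q47.CY.St

/-!
# The cone conjecture for toric bundles: translation of the statements
-/

set_option autoImplicit false

namespace Q47.CP

open Pool.Agent.W594.SYZ2 Pool.Agent.TH735.AQ Q47.TB MvPolynomial
open Pool.Agent.Y167 (AffGrp cone IsClass Normalizes Rel IsFace)
open Pool.Agent.Y167.CC (LinGrp N1 form nefCone Preserves IsFundDomain)
open Q47.CY (Cl cls Bundle Bdry)

variable {V W E : Type*} [NormedAddCommGroup V] [NormedSpace ℂ V] [NormedAddCommGroup W]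
  [NormedSpace ℂ W] [NormedAddCommGroup E] [NormedSpace ℂ E] {Γ : AffGrp V}
  {ι : Type*} [Fintype ι] {n r : ℕ} {Y : Bundle Γ ι n} {j : E →ₗ[ℂ] V} {Γ' : AffGrp W}
  {π : V →ₗ[ℂ] W}

theorem isTQ_iff {Γ : AffGrp V} : IsTQ Γ ↔ IsTorusQuotient Γ := by
  constructor
  · rintro ⟨Λ, h1, h2, h3, h4⟩
    have h : Λ = latt Γ := AddSubgroup.ext h1
    subst h
    exact ⟨h2, h3, h4⟩
  · rintro ⟨h2, h3, h4⟩
    exact ⟨latt Γ, fun _ => Iff.rfl, h2, h3, h4⟩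

theorem isFib_iff : IsFib Γ Γ' π ↔ IsFibration Γ Γ' π :=
  ⟨fun h => ⟨h.1, h.2.1, h.2.2.1, isTQ_iff.1 h.2.2.2⟩,
    fun h => ⟨h.surj, h.maps, h.onto, isTQ_iff.2 h.base⟩⟩

theorem isAutY_iff {f : V ≃ᵃ[ℂ] V} {a : ι → V → ℂ} : IsAutY Y f a ↔ Q47.CY.IsAutY Y f a := by
  have key : ∀ γ γ' : Γ, (∀ v, ap f (ap γ v) = ap γ' (ap f v)) ↔
      (γ' : V ≃ᵃ[ℂ] V) = f * γ * f⁻¹ := by
    intro γ γ'
    rw [eq_mul_inv_iff_mul_eq]
    constructor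
    · intro h
      ext v
      exact (h v).symm
    · intro h v
      exact (congrArg (fun g : V ≃ᵃ[ℂ] V => g v) h).symm
  constructor
  · rintro ⟨h1, h2, h3, h4⟩
    exact ⟨h1, h2, h3, fun γ γ' h v k => h4 γ γ' ((key γ γ').2 h) v k⟩
  · rintro ⟨h1, h2, h3, h4⟩
    exact ⟨h1, h2, h3, fun γ γ' h v k => h4 γ γ' ((key γ γ').1 h) v k⟩

theorem D_eq (β : ι → ℝ) : D Y j β = Q47.CY.dv Y.u (Y.h j) β := by
  refine Prod.ext rfl ?_
  rw [Q47.CY.dv_snd]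
  rfl

theorem isPullbackY_iff {f : V ≃ᵃ[ℂ] V} {g : NY Y j ≃ₗ[ℝ] NY Y j} :
    IsPullbackY Y j f g ↔ Q47.CY.IsPullbackY Y j f g := by
  unfold IsPullbackY
  simp only [D_eq]
  exact Iff.rfl

theorem grp_eq (Δ : Bdry Y r) : grp Δ Γ' π j = Δ.grp Γ' π j := by
  unfold grp
  refine congrArg Subgroup.closure ?_
  apply Set.ext
  intro g
  constructor
  · rintro ⟨f, a, h1, h2, h3, h4⟩
    exact ⟨f, a, isAutY_iff.1 h1, h2, h3, isPullbackY_iff.1 h4⟩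
  · rintro ⟨f, a, h1, h2, h3, h4⟩
    exact ⟨f, a, isAutY_iff.2 h1, h2, h3, isPullbackY_iff.2 h4⟩

theorem isCY_of {Δ : Bdry Y r} (h : IsCY Δ j) : Δ.IsCY j := by
  obtain ⟨m, ρ, K, k, hm, hρ, hK, ⟨HK, hHK, hk⟩, h⟩ := h
  refine ⟨m, ρ, K, HK, hHK, hm, hρ, hK, ?_⟩
  have h1 : k = Q47.CY.clsE j hHK := by
    apply Subtype.ext
    funext v w
    exact hk v w
  rw [h1, D_eq] at h
  exact h

theorem effY_eq : effY Y j = Q47.CY.effY Y j := rfl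

theorem intY_eq : intY Y j = Q47.CY.intY Y j := rfl

theorem nefY_eq : nefY Y j = Q47.CY.NF Y.u (Pool.Agent.Y167.nefCone Γ j) (Y.h j) Y.S := by
  unfold nefY
  simp only [D_eq]
  rfl

/-- The cone conjecture for toric bundles. -/
theorem main [FiniteDimensional ℂ V] [FiniteDimensional ℂ E] {H₀ : V → V → ℂ} (R : Rel Γ j H₀)
    (hjr : LinearMap.range j = LinearMap.ker π)
    (Δ : Bdry Y r) {v₀ : V} (hklt : Δ.IsKltAt v₀) (hCY : IsCY Δ j)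
    {T : Set (Set ι)} (hT : T ⊆ Y.S) (hT0 : T.Nonempty) {C : Set (NY Y j)}
    (hC : C = Q47.CY.NF Y.u (Pool.Agent.Y167.nefCone Γ j) (Y.h j) T)
    (𝒢 : LinGrp (NY Y j)) (hM : PresLatt (intY Y j) 𝒢) (hN : Preserves 𝒢 (C ∩ effY Y j))
    (hfin : 𝒢.relIndex (grp Δ Γ' π j) ≠ 0) :
    ∃ S : Finset (NY Y j), ↑S ⊆ intY Y j ∧ cone S ⊆ C ∩ effY Y j ∧
      IsFundDomain 𝒢 (C ∩ effY Y j) (cone S) := by
  subst hC
  rw [grp_eq] at hfin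
  exact Q47.CY.gen_main R hjr Δ hklt (isCY_of hCY) hT hT0 𝒢 hM hN hfin

theorem absGrp_eq (Δ : Bdry Y r) :
    absGrp Δ = grp Δ (⊥ : AffGrp PUnit) (0 : V →ₗ[ℂ] PUnit) LinearMap.id := by
  unfold absGrp grp
  refine congrArg Subgroup.closure ?_
  apply Set.ext
  intro g
  constructor
  · rintro ⟨f, a, h1, h3, h4⟩
    exact ⟨f, a, h1, ⟨1, Subgroup.one_mem _, fun _ => rfl⟩, h3, h4⟩
  · rintro ⟨f, a, h1, -, h3, h4⟩
    exact ⟨f, a, h1, h3, h4⟩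

/-- Nef effective classes are combinations of integral nef classes, and conversely. -/
theorem plus [FiniteDimensional ℂ V] [FiniteDimensional ℂ E] {H₀ : V → V → ℂ} (R : Rel Γ j H₀)
    (Δ : Bdry Y r) {v₀ : V} (hklt : Δ.IsKltAt v₀) (hCY : IsCY Δ j)
    {T : Set (Set ι)} (hT0 : T.Nonempty) {C : Set (NY Y j)}
    (hC : C = Q47.CY.NF Y.u (Pool.Agent.Y167.nefCone Γ j) (Y.h j) T) :
    C ∩ effY Y j = hull (intY Y j ∩ C) := by
  subst hC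
  exact Q47.CY.gen_plus R Δ hklt (isCY_of hCY) hT0

/-- The faces of the cone form finitely many orbits. -/
theorem faces [FiniteDimensional ℂ V] [FiniteDimensional ℂ E] {H₀ : V → V → ℂ} (R : Rel Γ j H₀)
    {T : Set (Set ι)} {C : Set (NY Y j)}
    (hC : C = Q47.CY.NF Y.u (Pool.Agent.Y167.nefCone Γ j) (Y.h j) T)
    (𝒢 : LinGrp (NY Y j)) (hN : Preserves 𝒢 (C ∩ effY Y j))
    {S : Finset (NY Y j)} (hS : cone S ⊆ C ∩ effY Y j)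
    (hcov : IsFundDomain 𝒢 (C ∩ effY Y j) (cone S)) :
    ∃ 𝓕 : Set (Set (NY Y j)), 𝓕.Finite ∧ (∀ F ∈ 𝓕, IsFace F (C ∩ effY Y j)) ∧
      ∀ F, IsFace F (C ∩ effY Y j) → ∃ g ∈ 𝒢, ∃ F' ∈ 𝓕, F = g '' F' := by
  subst hC
  exact Q47.CY.gen_faces R 𝒢 hN hS hcov

end Q47.CP
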