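import Pool.Agent.Q47.CY.Klt

/-!
# Automorphisms of torus quotients lift to toric bundles
-/

set_option autoImplicit false

namespace Q47.CY

open Finset
open Pool.Agent.W594.SYZ2 Pool.Agent.W594.SYZ2.TQ Pool.Agent.TH735.AQ Pool.Agent.TH128.SYZ
open Pool.Agent.Y167
open Q47.TB MvPolynomial

variable {V E : Type*} [NormedAddCommGroup V] [NormedSpace ℂ V] [FiniteDimensional ℂ V]
  [NormedAddCommGroup E] [NormedSpace ℂ E] [FiniteDimensional ℂ E] {Γ : Subgroup (V ≃ᵃ[ℂ] V)}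
  {j : E →ₗ[ℂ] V} {H₀ : V → V → ℂ} {ι : Type*} [Fintype ι] {n r : ℕ} {Y : Bundle Γ ι n}

/-- The twisted factors of automorphy of the line bundles `c i`. -/
noncomputable def ps (Y : Bundle Γ ι n) (G : ι → V → ℂ) (i : ι) (γ : Γ) (v : V) : ℂ :=
  Pool.Agent.W594.SYZ2.TQ.tw (Y.c i) (G i) γ v

omit [FiniteDimensional ℂ V] in
theorem ps_ne (G : ι → V → ℂ) (i : ι) (γ : Γ) (v : V) : ps Y G i γ v ≠ 0 := tw_ne_zero γ v

/-- The twisted factor of automorphy of the line bundle of a character. -/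
noncomputable def chi (Y : Bundle Γ ι n) (G : ι → V → ℂ) (k : Fin n) (γ : Γ) (v : V) : ℂ :=
  ∏ i, ps Y G i γ v ^ Y.u i k

omit [FiniteDimensional ℂ V] in
theorem chi_ne (G : ι → V → ℂ) (k : Fin n) (γ : Γ) (v : V) : chi Y G k γ v ≠ 0 :=
  Finset.prod_ne_zero_iff.2 fun i _ => zpow_ne_zero _ (ps_ne G i γ v)

omit [FiniteDimensional ℂ V] in
theorem chi_mul (G : ι → V → ℂ) (k : Fin n) (γ δ : Γ) (v : V) :
    chi Y G k (γ * δ) v = chi Y G k γ ((δ : V ≃ᵃ[ℂ] V) v) * chi Y G k δ v := by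
  rw [chi, chi, chi, ← Finset.prod_mul_distrib]
  refine Finset.prod_congr rfl fun i _ => ?_
  rw [ps, tw_mul, mul_zpow]
  rfl

omit [FiniteDimensional ℂ V] in
theorem prod_exp (z : ι → ℤ) (x : ι → ℂ) :
    ∏ i, Complex.exp (Real.pi * x i) ^ z i = Complex.exp (Real.pi * ∑ i, (z i : ℂ) * x i) := by
  rw [Finset.mul_sum, Complex.exp_sum]
  refine Finset.prod_congr rfl fun i _ => ?_
  rw [← Complex.exp_int_mul]
  congr 1
  ring

section Shift

variable {G : ι → V → ℂ} (hG : ∀ i, IsPot (Y.c i) (Y.Hc i) (G i)) {κ : V}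
  (hκ : ∀ (k : Fin n) (w : V), ∑ i, (Y.u i k : ℂ) * Y.Hc i κ w = 0)

include hG hκ

/-- Translation by a vector in the kernels. -/
theorem chi_shift (k : Fin n) (γ : Γ) (v : V) : chi Y G k γ (v + κ) = chi Y G k γ v := by
  set g := (γ : V ≃ᵃ[ℂ] V).linear with hg
  set w := g.symm ((γ : V ≃ᵃ[ℂ] V) 0) with hw
  have hgw : (γ : V ≃ᵃ[ℂ] V) 0 = g w := (g.apply_symm_apply _).symm
  have h1 : ∀ i, ps Y G i γ (v + κ)
      = ps Y G i γ v * Complex.exp (Real.pi * Y.Hc i κ w) := by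
    intro i
    have hH := (Y.chern i).1
    have e1 := tw_eq hH (hG i) γ (v + κ)
    have e2 := tw_eq hH (hG i) γ v
    rw [ps, ps, e1, e2, map_add, hH.add_left, mul_add, Complex.exp_add, mul_assoc]
    congr 3
    rw [hgw]
    exact congrArg _ (h_inv hH (hG i) γ κ w)
  have h2 : chi Y G k γ (v + κ) = chi Y G k γ v
      * ∏ i, Complex.exp (Real.pi * Y.Hc i κ w) ^ Y.u i k := by
    rw [chi, chi, ← Finset.prod_mul_distrib]
    exact Finset.prod_congr rfl fun i _ => by rw [h1, mul_zpow]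
  rw [h2, prod_exp, hκ, mul_zero, Complex.exp_zero, mul_one]

theorem chi_tr (hb : κ ∈ latt Γ) (k : Fin n) (v : V) :
    chi Y G k (tr κ hb) v = chi Y G k (tr κ hb) 0 := by
  have h1 : ∀ i, ps Y G i (tr κ hb) v
      = ps Y G i (tr κ hb) 0 * Complex.exp (Real.pi * Y.Hc i v κ) := fun i =>
    tw_tr (Y.chern i).1 (hG i) κ hb v
  have h2 : chi Y G k (tr κ hb) v = chi Y G k (tr κ hb) 0
      * ∏ i, Complex.exp (Real.pi * Y.Hc i v κ) ^ Y.u i k := by
    rw [chi, chi, ← Finset.prod_mul_distrib]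
    exact Finset.prod_congr rfl fun i _ => by rw [h1, mul_zpow]
  have h3 : ∑ i, (Y.u i k : ℂ) * Y.Hc i v κ = 0 := by
    have h4 := congrArg (starRingEnd ℂ) (hκ k v)
    rw [map_sum, map_zero] at h4
    rw [← h4]
    refine Finset.sum_congr rfl fun i _ => ?_
    rw [map_mul, map_intCast, ← (Y.chern i).1.symm]
  rw [h2, prod_exp, h3, mul_zero, Complex.exp_zero, mul_one]

end Shift

/-- The values on multiples of a lattice vector in the kernels. -/
theorem chi_pow {G : ι → V → ℂ} (hG : ∀ i, IsPot (Y.c i) (Y.Hc i) (G i)) {κ : V}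
    (hκ : ∀ (k : Fin n) (w : V), ∑ i, (Y.u i k : ℂ) * Y.Hc i κ w = 0) (hb : κ ∈ latt Γ)
    (k : Fin n) (m : ℕ) (hm : m • κ ∈ latt Γ) :
    chi Y G k (tr (m • κ) hm) 0 = chi Y G k (tr κ hb) 0 ^ m := by
  induction m with
  | zero =>
    rw [pow_zero, chi]
    refine Finset.prod_eq_one fun i _ => ?_
    have h1 : ps Y G i (tr (0 • κ) hm) 0 = 1 := tw_stab _ _ (by
      rw [tr_apply, zero_smul, add_zero])
    rw [h1, one_zpow]
  | succ m ih =>
    have hm' : m • κ ∈ latt Γ := (latt Γ).nsmul_mem hb m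
    have h1 : tr ((m + 1) • κ) hm = tr κ hb * tr (m • κ) hm' := by
      apply Subtype.ext
      apply AffineEquiv.ext
      intro v
      change (m + 1) • κ + v = κ + (m • κ + v)
      rw [add_smul, one_smul]
      abel
    rw [h1, chi_mul, chi_tr hG hκ hb, ih hm', pow_succ, mul_comm]

omit [FiniteDimensional ℂ V] in
/-- The twisted factor of automorphy of a coefficient bundle. -/
theorem tw_tw (L : LineBundle Γ) (F : V → ℂ) (G : ι → V → ℂ) (α : ι → ℕ) (γ : Γ) (v : V) :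
    Pool.Agent.W594.SYZ2.TQ.tw (Q47.TB.tw L Y.c 1 α) (fun v => F v - ∑ i, α i * G i v) γ v *
      ∏ i, ps Y G i γ v ^ α i = Pool.Agent.W594.SYZ2.TQ.tw L F γ v := by
  have h1 : ∏ i, ps Y G i γ v ^ α i = (∏ i, (Y.c i).e γ v ^ α i) *
      Complex.exp (∑ i, (α i * G i v - α i * G i ((γ : V ≃ᵃ[ℂ] V) v))) := by
    rw [Complex.exp_sum, ← Finset.prod_mul_distrib]
    refine Finset.prod_congr rfl fun i _ => ?_
    rw [ps, Pool.Agent.W594.SYZ2.TQ.tw, mul_pow, ← Complex.exp_nat_mul]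
    congr 2
    ring
  have h2 : (∏ i, (Y.c i).e γ v ^ α i) ≠ 0 :=
    Finset.prod_ne_zero_iff.2 fun i _ => pow_ne_zero _ ((Y.c i).ne_zero γ v)
  rw [h1, Pool.Agent.W594.SYZ2.TQ.tw, Pool.Agent.W594.SYZ2.TQ.tw]
  change (L.e γ v ^ 1 * (∏ i, (Y.c i).e γ v ^ (1 * α i))⁻¹) * _ * _ = _
  simp only [one_mul, pow_one]
  rw [Finset.sum_sub_distrib]
  have h3 : F v - F ((γ : V ≃ᵃ[ℂ] V) v)
      = (F v - ∑ i, (α i : ℂ) * G i v - (F ((γ : V ≃ᵃ[ℂ] V) v)
        - ∑ i, (α i : ℂ) * G i ((γ : V ≃ᵃ[ℂ] V) v)))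
        + (∑ i, (α i : ℂ) * G i v - ∑ i, (α i : ℂ) * G i ((γ : V ≃ᵃ[ℂ] V) v)) := by ring
  rw [h3, Complex.exp_add]
  field_simp

theorem zpow_sum' {K : Type*} (s : Finset K) {a : ℂ} (ha : a ≠ 0) (z : K → ℤ) :
    ∏ k ∈ s, a ^ z k = a ^ ∑ k ∈ s, z k := by
  classical
  induction s using Finset.induction_on with
  | empty => simp
  | insert k s hk ih => rw [Finset.prod_insert hk, Finset.sum_insert hk, ih, zpow_add₀ ha]

/-- Good transformations lift to automorphisms of the pair `(Y, Δ)`. -/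
theorem lift (R : Rel Γ j H₀) (Δ : Bdry Y r) {v₀ : V} {N₀ : ℕ}
    (hfull : ∀ l : Fin n, (Pi.single l (N₀ : ℤ) : Fin n → ℤ) ∈
      AddSubgroup.closure (Zs Y.u fun l => (Δ.F l v₀).support))
    (hkill : ∀ e, MirrorFixed Γ (j e) → ∀ (k : Fin n) (w : V),
      ∑ i, (Y.u i k : ℂ) * Y.Hc i (j e) w = 0)
    (hker : ∀ e, MirrorFixed Γ (j e) → ∀ (l : Fin r) (α : ι →₀ ℕ),
      (∃ v, coeff α (Δ.F l v) ≠ 0) → ∀ w, Nf Δ l α (j e) w = 0)
    {u : E ≃ₗ[ℂ] E} {f : V ≃ᵃ[ℂ] V} (hf : Good Γ j N₀ u f) :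
    ∃ a : ι → V → ℂ, IsAutY Y f a ∧ Δ.IsFixedBy f a := by
  classical
  choose hHc G hG₁ hG₂ using Y.chern
  have hG : ∀ i, IsPot (Y.c i) (Y.Hc i) (G i) := fun i => ⟨hG₁ i, hG₂ i⟩
  have hfd : Differentiable ℂ f := affine_differentiable f
  choose hHM FM hFM₁ hFM₂ using Δ.chern
  have hFM : ∀ l, IsPot (Δ.M l) (Δ.HM l) (FM l) := fun l => ⟨hFM₁ l, hFM₂ l⟩
  -- the sections
  have hsec : ∀ (l : Fin r) (α : ι →₀ ℕ), (∃ v, coeff α (Δ.F l v) ≠ 0) → ∀ e,
      MirrorFixed Γ (j e) → ∀ v,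
      coeff α (Δ.F l (v + j e)) * Complex.exp (-(FM l (v + j e) - ∑ i, α i * G i (v + j e)))
        = coeff α (Δ.F l v) * Complex.exp (-(FM l v - ∑ i, α i * G i v)) := by
    intro l α hα e he v
    exact section_ker R.tq (L := Q47.TB.tw (Δ.M l) Y.c 1 fun i => α i) (chern_Nf Δ l α).1
      (pot_tw (hFM l) hG fun i => α i) (coeff_section (Δ.sect l) α) (hker e he l α hα) v
  -- the characters on the lattice vectors
  have hone : ∀ μ (hμ : j μ ∈ latt Γ), MirrorFixed Γ (j μ) → ∀ k,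
      chi Y G k (tr (j μ) hμ) 0 ^ N₀ = 1 := by
    intro μ hμ hμm k
    have hprod : ∀ (l : Fin r) (α : ι →₀ ℕ), (∃ v, coeff α (Δ.F l v) ≠ 0) →
        ∏ i, ps Y G i (tr (j μ) hμ) 0 ^ α i
          = Pool.Agent.W594.SYZ2.TQ.tw (Δ.M l) (FM l) (tr (j μ) hμ) 0 := by
      intro l α hα
      have hpot := pot_tw (hFM l) hG fun i => α i
      have hH := (chern_Nf Δ l α).1
      obtain ⟨v, hv⟩ := id hα
      have h1 := hsec l α hα μ hμm v
      have h2 := (coeff_section (Δ.sect l) α).eq (tr (j μ) hμ) v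
      simp only [tr_apply] at h2
      rw [add_comm v (j μ)] at h1
      have h3 : Pool.Agent.W594.SYZ2.TQ.tw (Q47.TB.tw (Δ.M l) Y.c 1 fun i => α i)
          (fun v => FM l v - ∑ i, α i * G i v) (tr (j μ) hμ) v = 1 := by
        rw [h2] at h1
        have h4 : (Q47.TB.tw (Δ.M l) Y.c 1 fun i => α i).e (tr (j μ) hμ) v * coeff α (Δ.F l v)
            * Complex.exp (-(FM l (j μ + v) - ∑ i, (α i : ℂ) * G i (j μ + v)))
            = (Pool.Agent.W594.SYZ2.TQ.tw (Q47.TB.tw (Δ.M l) Y.c 1 fun i => α i)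
              (fun v => FM l v - ∑ i, α i * G i v) (tr (j μ) hμ) v) * (coeff α (Δ.F l v)
            * Complex.exp (-(FM l v - ∑ i, (α i : ℂ) * G i v))) := by
          rw [Pool.Agent.W594.SYZ2.TQ.tw, tr_apply]
          have h5 : Complex.exp (-(FM l (j μ + v) - ∑ i, (α i : ℂ) * G i (j μ + v)))
              = Complex.exp ((FM l v - ∑ i, (α i : ℂ) * G i v)
                - (FM l (j μ + v) - ∑ i, (α i : ℂ) * G i (j μ + v)))
                * Complex.exp (-(FM l v - ∑ i, (α i : ℂ) * G i v)) := by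
            rw [← Complex.exp_add]
            congr 1
            ring
          rw [h5]
          ring
        rw [h4] at h1
        exact mul_right_cancel₀ (mul_ne_zero hv (Complex.exp_ne_zero _)) (h1.trans (one_mul _).symm)
      have h4 : Pool.Agent.W594.SYZ2.TQ.tw (Q47.TB.tw (Δ.M l) Y.c 1 fun i => α i)
          (fun v => FM l v - ∑ i, α i * G i v) (tr (j μ) hμ) 0 = 1 := by
        rw [← h3]
        have h5 := tw_add_ker hH hpot (tr (j μ) hμ) 0 (k := 0) (Submodule.zero_mem _)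
        rw [tw_tr hH hpot (j μ) hμ v, h_ker_right hH (hker μ hμm l α hα), mul_zero,
          Complex.exp_zero, mul_one]
      have h5 := tw_tw (Y := Y) (Δ.M l) (FM l) G (fun i => α i) (tr (j μ) hμ) 0
      rw [h4, one_mul] at h5
      exact h5
    have hX : ∀ z ∈ AddSubgroup.closure (Zs Y.u fun l => (Δ.F l v₀).support),
        ∏ k, chi Y G k (tr (j μ) hμ) 0 ^ z k = 1 := by
      intro z hz
      induction hz using AddSubgroup.closure_induction with
      | mem z hz =>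
        obtain ⟨l, α, hα, α', hα', hz⟩ := hz
        have h1 : ∏ k, chi Y G k (tr (j μ) hμ) 0 ^ z k
            = ∏ i, ps Y G i (tr (j μ) hμ) 0 ^ (∑ k, z k * Y.u i k) := by
          simp only [chi, ← Finset.prod_zpow]
          rw [Finset.prod_comm]
          refine Finset.prod_congr rfl fun i _ => ?_
          rw [← zpow_sum' _ (ps_ne G i _ _)]
          exact Finset.prod_congr rfl fun k _ => by rw [mul_comm, zpow_mul]
        have h2 : ∀ i, ∑ k, z k * Y.u i k = (α i : ℤ) - α' i := fun i => by rw [hz i]; ring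
        rw [h1]
        simp only [h2]
        have h3 : ∀ i, ps Y G i (tr (j μ) hμ) 0 ^ ((α i : ℤ) - α' i)
            = ps Y G i (tr (j μ) hμ) 0 ^ α i * (ps Y G i (tr (j μ) hμ) 0 ^ α' i)⁻¹ := fun i => by
          rw [zpow_sub₀ (ps_ne G i _ _), zpow_natCast, zpow_natCast, div_eq_mul_inv]
        simp only [h3]
        rw [Finset.prod_mul_distrib, Finset.prod_inv_distrib,
          hprod l α ⟨v₀, mem_support_iff.1 hα⟩, hprod l α' ⟨v₀, mem_support_iff.1 hα'⟩,
          mul_inv_cancel₀ (tw_ne_zero _ _)]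
      | zero => simp
      | add x y _ _ hx hy =>
        simp only [Pi.add_apply]
        have h1 : ∀ k, chi Y G k (tr (j μ) hμ) 0 ^ (x k + y k)
            = chi Y G k (tr (j μ) hμ) 0 ^ x k * chi Y G k (tr (j μ) hμ) 0 ^ y k := fun k =>
          zpow_add₀ (chi_ne G k _ _) _ _
        simp only [h1]
        rw [Finset.prod_mul_distrib, hx, hy, one_mul]
      | neg x _ hx =>
        simp only [Pi.neg_apply, zpow_neg]
        rw [Finset.prod_inv_distrib, hx, inv_one]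
    have h1 := hX _ (hfull k)
    rw [Finset.prod_eq_single k (fun k' _ hk' => by rw [Pi.single_eq_of_ne hk', zpow_zero])
      (fun h => absurd (Finset.mem_univ k) h), Pi.single_eq_same, zpow_natCast] at h1
    exact h1
  -- the lift
  have hdisp : ∀ v, ∃ e, MirrorFixed Γ (j e) ∧ f v = v + j e := fun v => by
    obtain ⟨e, he⟩ := hf.disp v
    exact ⟨u e - e, hf.mir e, he⟩
  refine ⟨fun i v => Complex.exp (G i (f v) - G i v), ⟨hf.norm, fun i => ?_, fun i v =>
    Complex.exp_ne_zero _, fun γ γ' hγ' v k => ?_⟩, fun l => ?_⟩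
  · exact (((hG₁ i).comp hfd).sub (hG₁ i)).cexp
  · have hfγ : f ((γ : V ≃ᵃ[ℂ] V) v) = (γ' : V ≃ᵃ[ℂ] V) (f v) := by
      rw [hγ']
      change _ = f (γ.1 (f.symm (f v)))
      rw [f.symm_apply_apply]
    have e1 : ∀ i, Complex.exp (G i (f ((γ : V ≃ᵃ[ℂ] V) v)) - G i ((γ : V ≃ᵃ[ℂ] V) v)) *
        (Y.c i).e γ v = ps Y G i γ v * Complex.exp (G i (f ((γ : V ≃ᵃ[ℂ] V) v)) - G i v) := by
      intro i
      rw [ps, Pool.Agent.W594.SYZ2.TQ.tw, mul_assoc, ← Complex.exp_add, mul_comm]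
      congr 2
      ring
    have e2 : ∀ i, Complex.exp (G i (f v) - G i v) * (Y.c i).e γ' (f v)
        = ps Y G i γ' (f v) * Complex.exp (G i (f ((γ : V ≃ᵃ[ℂ] V) v)) - G i v) := by
      intro i
      rw [ps, Pool.Agent.W594.SYZ2.TQ.tw, mul_assoc, ← Complex.exp_add, mul_comm, hfγ]
      congr 2
      ring
    simp only [e1, e2, mul_zpow, Finset.prod_mul_distrib]
    congr 1
    change chi Y G k γ v = chi Y G k γ' (f v)
    obtain ⟨μ, hμ', hμm, hcomm⟩ := hf.comm γ.1 γ.2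
    have hμ : j μ ∈ latt Γ := hμ'
    have hNμ : N₀ • j μ ∈ latt Γ := (latt Γ).nsmul_mem hμ N₀
    have h1 : γ' = tr (N₀ • j μ) hNμ * γ := by
      apply Subtype.ext
      rw [hγ']
      apply AffineEquiv.ext
      intro v
      change f (γ.1 (f.symm v)) = N₀ • j μ + γ.1 v
      rw [hcomm, f.apply_symm_apply, Nat.cast_smul_eq_nsmul ℝ N₀ μ, map_nsmul]
    have h2 : ∀ (k : Fin n) (w : V), ∑ i, (Y.u i k : ℂ) * Y.Hc i (N₀ • j μ) w = 0 := by
      intro k w
      have h3 := hkill μ hμm k w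
      have h4 : ∀ i, Y.Hc i (N₀ • j μ) w = (N₀ : ℂ) * Y.Hc i (j μ) w := fun i => by
        rw [← Nat.cast_smul_eq_nsmul ℂ N₀ (j μ), (hHc i).smul_left]
      simp only [h4]
      rw [← mul_zero (N₀ : ℂ), ← h3, Finset.mul_sum]
      exact Finset.sum_congr rfl fun i _ => by ring
    obtain ⟨e, he, hfe⟩ := hdisp v
    rw [h1, chi_mul, chi_tr hG h2, chi_pow hG (hkill μ hμm) hμ, hone μ hμ hμm, one_mul, hfe,
      chi_shift hG (hkill e he)]
  · refine ⟨fun v => Complex.exp (FM l (f v) - FM l v),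
      (((hFM₁ l).comp hfd).sub (hFM₁ l)).cexp, fun v => Complex.exp_ne_zero _, fun v x => ?_⟩
    have h1 : ∀ α : ι →₀ ℕ, coeff α (Δ.F l (f v)) * ∏ i, Complex.exp (G i (f v) - G i v) ^ α i
        = Complex.exp (FM l (f v) - FM l v) * coeff α (Δ.F l v) := by
      intro α
      by_cases hα : ∃ v, coeff α (Δ.F l v) ≠ 0
      · obtain ⟨e, he, hfe⟩ := hdisp v
        have h2 := hsec l α hα e he v
        rw [← hfe] at h2
        have h3 : ∏ i, Complex.exp (G i (f v) - G i v) ^ α i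
            = Complex.exp (∑ i, (α i : ℂ) * G i (f v) - ∑ i, (α i : ℂ) * G i v) := by
          rw [← Finset.sum_sub_distrib, Complex.exp_sum]
          refine Finset.prod_congr rfl fun i _ => ?_
          rw [← Complex.exp_nat_mul]
          congr 1
          ring
        rw [h3]
        have h4 : coeff α (Δ.F l (f v)) * Complex.exp (∑ i, (α i : ℂ) * G i (f v)
            - ∑ i, (α i : ℂ) * G i v)
            = (coeff α (Δ.F l (f v)) * Complex.exp (-(FM l (f v) - ∑ i, (α i : ℂ) * G i (f v))))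
              * Complex.exp (FM l (f v) - ∑ i, (α i : ℂ) * G i v) := by
          rw [mul_assoc, ← Complex.exp_add]
          congr 2
          ring
        rw [h4, h2, mul_assoc, ← Complex.exp_add, mul_comm]
        congr 2
        ring
      · push Not at hα
        rw [hα, hα, zero_mul, mul_zero]
    rw [MvPolynomial.eval_eq, MvPolynomial.eval_eq, Finset.mul_sum]
    have hsupp : (Δ.F l (f v)).support = (Δ.F l v).support := by
      ext α
      rw [mem_support_iff, mem_support_iff, not_iff_not]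
      have h2 := h1 α
      have h3 : ∏ i, Complex.exp (G i (f v) - G i v) ^ α i ≠ 0 :=
        Finset.prod_ne_zero_iff.2 fun i _ => pow_ne_zero _ (Complex.exp_ne_zero _)
      constructor
      · intro h
        rw [h, zero_mul] at h2
        exact (mul_eq_zero.1 h2.symm).resolve_left (Complex.exp_ne_zero _)
      · intro h
        rw [h, mul_zero] at h2
        exact (mul_eq_zero.1 h2).resolve_right h3
    rw [hsupp]
    refine Finset.sum_congr rfl fun α _ => ?_
    have h2 : ∏ i ∈ α.support, (Complex.exp (G i (f v) - G i v) * x i) ^ α i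
        = (∏ i, Complex.exp (G i (f v) - G i v) ^ α i) * ∏ i ∈ α.support, x i ^ α i := by
      simp only [mul_pow, Finset.prod_mul_distrib]
      congr 1
      refine Finset.prod_subset (Finset.subset_univ _) fun i _ hi => ?_
      rw [Finsupp.notMem_support_iff.1 hi, pow_zero]
    rw [h2, ← mul_assoc, h1, mul_assoc]

end Q47.CY
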