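import Pool.Agent.Q47.CY.Cov
import Pool.Agent.Q47.CY.Lift

/-!
# The cone conjecture for klt Calabi–Yau pairs on toric bundles
-/

set_option autoImplicit false

namespace Q47.CY

open Finset
open Pool.Agent.W594.SYZ2 Pool.Agent.W594.SYZ2.TQ Pool.Agent.TH735.AQ Pool.Agent.TH128.SYZ
open Pool.Agent.Y167
open Pool.Agent.Y167.CC (LinGrp Preserves IsFundDomain)
open Q43.CC (Over)
open Q47.TB MvPolynomial

section Sums

variable {ι : Type*} [Fintype ι] {n : ℕ} {N : Type*} [AddCommGroup N] [Module ℝ N]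

theorem CT_add {u : ι → Fin n → ℤ} {C : Set N} (hC : ∀ x ∈ C, ∀ y ∈ C, x + y ∈ C) {h : ι → N}
    {t : Set ι} {p q : Cl u × N} (hp : p ∈ CT u C h t) (hq : q ∈ CT u C h t) :
    p + q ∈ CT u C h t := by
  obtain ⟨β, h1, h2, x, h3, rfl⟩ := hp
  obtain ⟨β', h1', h2', x', h3', rfl⟩ := hq
  refine ⟨β + β', fun i => add_nonneg (h1 i) (h1' i), fun i hi => by
    rw [Pi.add_apply, h2 i hi, h2' i hi, add_zero], x + x', hC _ h3 _ h3', ?_⟩
  rw [map_add, map_add]
  abel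

theorem CT_smul {u : ι → Fin n → ℤ} {C : Set N} (hC : ∀ s : ℝ, 0 ≤ s → ∀ x ∈ C, s • x ∈ C)
    {h : ι → N} {t : Set ι} {s : ℝ} (hs : 0 ≤ s) {p : Cl u × N} (hp : p ∈ CT u C h t) :
    s • p ∈ CT u C h t := by
  obtain ⟨β, h1, h2, x, h3, rfl⟩ := hp
  refine ⟨s • β, fun i => mul_nonneg hs (h1 i), fun i hi => by
    rw [Pi.smul_apply, h2 i hi, smul_zero], s • x, hC _ hs _ h3, ?_⟩
  rw [map_smul, map_smul, smul_add]

theorem NF_add {u : ι → Fin n → ℤ} {C : Set N} (hC : ∀ x ∈ C, ∀ y ∈ C, x + y ∈ C) {h : ι → N}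
    {T : Set (Set ι)} {p q : Cl u × N} (hp : p ∈ NF u C h T) (hq : q ∈ NF u C h T) :
    p + q ∈ NF u C h T := fun t ht => CT_add hC (hp t ht) (hq t ht)

theorem NF_smul {u : ι → Fin n → ℤ} {C : Set N} (hC : ∀ s : ℝ, 0 ≤ s → ∀ x ∈ C, s • x ∈ C)
    {h : ι → N} {T : Set (Set ι)} {s : ℝ} (hs : 0 ≤ s) {p : Cl u × N} (hp : p ∈ NF u C h T) :
    s • p ∈ NF u C h T := fun t ht => CT_smul hC hs (hp t ht)

/-- The automorphism of `N^1(Y/Z)` given by an automorphism of `N^1(X/Z)`. -/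
theorem exists_ext {u : ι → Fin n → ℤ} {h : ι → N} (g : N ≃ₗ[ℝ] N)
    (hg : ∀ m, g (cc u h m) = cc u h m) : ∃ G : (Cl u × N) ≃ₗ[ℝ] (Cl u × N),
      (∀ β, G (dv u h β) = dv u h β) ∧ ∀ x, G (lft u x) = lft u (g x) := by
  let θ₀ : (ι → ℝ) →ₗ[ℝ] N := ∑ i, (LinearMap.proj i).smulRight (h i - g (h i))
  have hθ₀ : ∀ β, θ₀ β = ∑ i, β i • h i - g (∑ i, β i • h i) := fun β => by
    simp only [θ₀, LinearMap.sum_apply, LinearMap.smulRight_apply, LinearMap.proj_apply, smul_sub,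
      Finset.sum_sub_distrib, map_sum, map_smul]
  have hker : ∀ m, θ₀ (chr u m) = 0 := fun m => by
    rw [hθ₀, ← cc, hg, sub_self]
  let θ : Cl u →ₗ[ℝ] N := Submodule.liftQ (LinearMap.range (chr u)) θ₀ (by
    rintro _ ⟨m, rfl⟩
    exact hker m)
  have hθ : ∀ β, θ (cls u β) = θ₀ β := fun β => rfl
  let G : (Cl u × N) ≃ₗ[ℝ] (Cl u × N) :=
    { toFun := fun p => (p.1, g p.2 + θ p.1)
      map_add' := fun p q => by
        rw [Prod.ext_iff]
        refine ⟨rfl, ?_⟩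
        simp only [Prod.snd_add, Prod.fst_add, map_add]
        abel
      map_smul' := fun t p => by
        rw [Prod.ext_iff]
        refine ⟨rfl, ?_⟩
        simp only [Prod.smul_snd, Prod.smul_fst, map_smul, RingHom.id_apply, smul_add]
      invFun := fun p => (p.1, g.symm (p.2 - θ p.1))
      left_inv := fun p => by
        rw [Prod.ext_iff]
        refine ⟨rfl, ?_⟩
        simp only [add_sub_cancel_right, LinearEquiv.symm_apply_apply]
      right_inv := fun p => by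
        rw [Prod.ext_iff]
        refine ⟨rfl, ?_⟩
        simp only [LinearEquiv.apply_symm_apply, sub_add_cancel] }
  have hG : ∀ p, G p = (p.1, g p.2 + θ p.1) := fun _ => rfl
  refine ⟨G, fun β => ?_, fun x => ?_⟩
  · rw [hG, Prod.ext_iff]
    refine ⟨rfl, ?_⟩
    simp only
    rw [dv_fst, hθ, hθ₀, dv_snd]
    abel
  · rw [hG, Prod.ext_iff]
    refine ⟨rfl, ?_⟩
    simp only
    rw [lft_fst, map_zero, add_zero]
    rfl

end Sums

variable {V W E : Type*} [NormedAddCommGroup V] [NormedSpace ℂ V] [FiniteDimensional ℂ V]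
  [NormedAddCommGroup W] [NormedSpace ℂ W]
  [NormedAddCommGroup E] [NormedSpace ℂ E] [FiniteDimensional ℂ E] {Γ : AffGrp V} {Γ' : AffGrp W}
  {π : V →ₗ[ℂ] W} {j : E →ₗ[ℂ] V} {H₀ : V → V → ℂ}
  {ι : Type*} [Fintype ι] {n r : ℕ} {Y : Bundle Γ ι n}

omit [FiniteDimensional ℂ V] [FiniteDimensional ℂ E] in
theorem mem_intY (p : NY Y j) : p ∈ intY Y j ↔ p ∈ LY Y.u (intL Γ j) := by
  constructor
  · rintro ⟨d, M, h1, h2⟩
    exact ⟨⟨d, h1⟩, M, h2⟩
  · rintro ⟨⟨d, h1⟩, M, h2⟩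
    exact ⟨d, M, h1, h2⟩

omit [FiniteDimensional ℂ V] [FiniteDimensional ℂ E] in
theorem nefY_eq : nefY Y j = NF Y.u (nefCone Γ j) (Y.h j) Y.S := rfl

omit [FiniteDimensional ℂ V] [FiniteDimensional ℂ E] in
theorem effY_add {p q : NY Y j} (hp : p ∈ effY Y j) (hq : q ∈ effY Y j) : p + q ∈ effY Y j := by
  classical
  obtain ⟨A, hA, h1⟩ := hp
  obtain ⟨B, hB, h2⟩ := hq
  refine ⟨A ∪ B, fun a ha => ?_, cone_add (cone_mono Finset.subset_union_left h1)
    (cone_mono Finset.subset_union_right h2)⟩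
  rcases Finset.mem_union.1 ha with h | h
  · exact hA a h
  · exact hB a h

omit [FiniteDimensional ℂ V] [FiniteDimensional ℂ E] in
theorem effY_smul {p : NY Y j} (hp : p ∈ effY Y j) {t : ℝ} (ht : 0 ≤ t) : t • p ∈ effY Y j := by
  obtain ⟨A, hA, h1⟩ := hp
  exact ⟨A, hA, cone_smul h1 ht⟩

omit [FiniteDimensional ℂ V] [FiniteDimensional ℂ E] in
theorem effY_of {p : NY Y j} {d : ι → ℤ} {M : LineBundle Γ} (hp : IsClassY Y j d M p)
    {G : V → MvPolynomial ι ℂ} (hG : IsSection Y.u Y.c d M.e G) (h0 : ∃ v, G v ≠ 0) :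
    p ∈ effY Y j :=
  ⟨{p}, fun a ha => by
    rw [Finset.mem_singleton.1 ha]
    exact ⟨d, M, hp, G, hG, h0⟩, mem_cone_self (Finset.mem_singleton_self p)⟩

omit [FiniteDimensional ℂ V] [FiniteDimensional ℂ E] in
theorem effY_zero : (0 : NY Y j) ∈ effY Y j := ⟨∅, by simp, zero_mem_cone _⟩

omit [FiniteDimensional ℂ V] [FiniteDimensional ℂ E] in
/-- The divisors `D_i` are effective. -/
theorem effY_D [DecidableEq ι] (i : ι) : dv Y.u (Y.h j) (Pi.single i 1) ∈ effY Y j := by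
  classical
  refine effY_of (d := Pi.single i 1) (M := Y.c i) (G := fun _ => X i) ⟨?_, ?_⟩ ⟨fun α => ?_,
    fun v α hα => ?_, fun γ v x => ?_⟩ ⟨0, X_ne_zero i⟩
  · rw [dv_fst]
    congr 1
    ext k
    by_cases hk : k = i
    · subst hk; simp
    · simp [hk]
  · rw [dv_snd]
    have h1 : ∑ k, (Pi.single i (1 : ℝ) : ι → ℝ) k • Y.h j k = Y.h j i := by
      rw [Finset.sum_eq_single i]
      · simp
      · intro k _ hk
        simp [hk]
      · simp
    rw [h1]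
    exact ⟨Y.Hc i, Y.chern i, fun _ _ => rfl⟩
  · exact differentiable_const _
  · rw [support_X, Finset.mem_singleton] at hα
    refine ⟨0, fun k => ?_⟩
    rw [hα]
    by_cases hk : k = i
    · subst hk; simp
    · simp [Finsupp.single_apply, hk, Ne.symm hk]
  · rw [eval_X, eval_X]

/-- Pullbacks of effective classes are effective. -/
theorem effY_lft (R : Rel Γ j H₀) {x : N1 Γ j} (hx : x ∈ Cp (intL Γ j) (nefCone Γ j)) :
    lft Y.u x ∈ effY Y j := by
  classical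
  obtain ⟨F, hF, h1⟩ := hx
  refine cone_ind (p := fun x => lft Y.u x ∈ effY Y j) ?_ ?_ ?_ ?_ h1
  · rw [map_zero]
    exact effY_zero
  · intro x y hx hy
    rw [map_add]
    exact effY_add hx hy
  · intro t x ht hx
    rw [map_smul]
    exact effY_smul hx ht
  · intro a ha
    obtain ⟨m, hm, L, hL, hs⟩ := exists_eff R (hF a ha).1 (hF a ha).2
    obtain ⟨s, hs, hs0⟩ := hs 0
    have hmr : (0 : ℝ) < m := by exact_mod_cast hm
    have h2 : lft Y.u a = (m : ℝ)⁻¹ • lft Y.u ((m : ℝ) • a) := by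
      rw [map_smul, smul_smul, inv_mul_cancel₀ hmr.ne', one_smul]
    rw [h2]
    refine effY_smul ?_ (inv_nonneg.2 hmr.le)
    refine effY_of (d := 0) (M := L) (G := fun v => C (s v)) ⟨?_, hL⟩ ⟨fun α => ?_,
      fun v α hα => ?_, fun γ v x => ?_⟩ ⟨0, fun h => hs0 (C_eq_zero.1 h)⟩
    · rw [lft_fst]
      have : (fun i => (((0 : ι → ℤ) i : ℤ) : ℝ)) = 0 := by ext i; simp
      rw [this]
      rfl
    · simp only [coeff_C]
      split_ifs
      · exact hs.holo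
      · exact differentiable_const _
    · have h3 : α = 0 := by
        by_contra hne
        rw [mem_support_iff, coeff_C, if_neg (Ne.symm hne)] at hα
        exact hα rfl
      exact ⟨0, fun i => by rw [h3]; simp⟩
    · rw [eval_C, eval_C]
      exact hs.eq γ v

/-- The effective cone of `Y`. -/
theorem effY_eq (R : Rel Γ j H₀) :
    effY Y j = CT Y.u (Cp (intL Γ j) (nefCone Γ j)) (Y.h j) ∅ := by
  classical
  have hCp0 : ∀ x ∈ Cp (intL Γ j) (nefCone Γ j), ∀ y ∈ Cp (intL Γ j) (nefCone Γ j),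
      x + y ∈ Cp (intL Γ j) (nefCone Γ j) := by
    intro x hx y hy
    rw [mem_Cp_iff' R] at hx hy ⊢
    exact nefEff_add x hx y hy
  have hCp1 : ∀ s : ℝ, 0 ≤ s → ∀ x ∈ Cp (intL Γ j) (nefCone Γ j),
      s • x ∈ Cp (intL Γ j) (nefCone Γ j) := by
    intro s hs x hx
    rw [mem_Cp_iff' R] at hx ⊢
    exact nefEff_smul x hx s hs
  apply Set.Subset.antisymm
  · rintro p ⟨A, hA, hp⟩
    refine cone_ind (p := fun p => p ∈ CT Y.u (Cp (intL Γ j) (nefCone Γ j)) (Y.h j) ∅) ?_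
      (fun x y hx hy => CT_add hCp0 hx hy) (fun t x ht hx => CT_smul hCp1 ht hx) ?_ hp
    · exact ⟨0, fun i => le_rfl, fun i _ => rfl, 0, ⟨∅, by simp, zero_mem_cone _⟩,
        by rw [map_zero, map_zero, add_zero]⟩
    · intro a ha
      obtain ⟨d, M, ⟨h1, HM, hHM, h2⟩, G, hG, v, hv⟩ := hA a ha
      obtain ⟨α, hα⟩ := support_nonempty.2 hv
      obtain ⟨z, hz⟩ := hG.deg v α hα
      have hch := chern_tw hHM Y.chern 1 fun i => α i
      obtain ⟨x, hx, hxI⟩ := exists_int (j := j) (L := Q47.TB.tw M Y.c 1 fun i => α i)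
        (h := fun e w => ((1 : ℕ) : ℂ) * (HM (j e) (j w) - ∑ i, (α i : ℂ) * Y.Hc i (j e) (j w)))
        ⟨_, hch, fun _ _ => rfl⟩
      refine ⟨fun i => (α i : ℝ), fun i => Nat.cast_nonneg _, fun i hi => hi.elim, x, ?_, ?_⟩
      · rw [mem_Cp_iff' R]
        have h3 : x ∈ effCone Γ j := ⟨{x}, fun b hb => by
          rw [Finset.mem_singleton.1 hb]
          exact ⟨_, _, ⟨_, hch, fun e w => by rw [hx]⟩, coeff_section hG α, v,
            mem_support_iff.1 hα⟩, mem_cone_self (Finset.mem_singleton_self x)⟩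
        exact ⟨eff_nef R.tq h3, h3⟩
      · rw [Prod.ext_iff]
        simp only [Prod.fst_add, Prod.snd_add, dv_fst, dv_snd, lft_fst, lft_snd, add_zero]
        refine ⟨?_, ?_⟩
        · rw [h1, cls_eq]
          refine ⟨fun k => -(z k : ℝ), ?_⟩
          ext i
          have h4 := hz i
          simp only at h4
          have h5 : ((α i : ℕ) : ℝ) = d i + ∑ k, (z k : ℝ) * Y.u i k := by exact_mod_cast h4
          rw [Pi.add_apply, h5, chr_apply]
          simp [Finset.sum_neg_distrib]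
        · apply Subtype.ext
          funext e w
          have h4 : (∑ i, (α i : ℝ) • Y.h j i + x : N1 Γ j).1 e w
              = (∑ i, (α i : ℝ) • Y.h j i : N1 Γ j).1 e w + x.1 e w := rfl
          rw [h4, coe_sum_N1, hx, h2]
          change _ = _ + ((1 : ℕ) : ℂ) * _
          rw [Nat.cast_one, one_mul]
          simp only [Complex.ofReal_natCast]
          change HM (j e) (j w) = ∑ i, (α i : ℂ) * Y.Hc i (j e) (j w) + _
          ring
  · rintro p ⟨β, hβ, -, x, hx, rfl⟩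
    refine effY_add ?_ (effY_lft R hx)
    have h1 : β = ∑ k, β k • (Pi.single k 1 : ι → ℝ) := by
      ext l
      simp [Finset.sum_apply, Pi.single_apply]
    rw [h1, map_sum]
    have h2 : ∀ s : Finset ι, ∑ k ∈ s, dv Y.u (Y.h j) (β k • (Pi.single k 1 : ι → ℝ))
        ∈ effY Y j := by
      intro s
      induction s using Finset.induction_on with
      | empty => exact effY_zero
      | insert k s hk ih =>
        rw [Finset.sum_insert hk, map_smul]
        exact effY_add (effY_smul (effY_D k) (hβ k)) ih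
    exact h2 _

/-- The transformation preserves the integral classes and the cone. -/
def NiceY (Y : Bundle Γ ι n) (j : E →ₗ[ℂ] V) (T : Set (Set ι)) (g : NY Y j ≃ₗ[ℝ] NY Y j) : Prop :=
  (∀ a ∈ LY Y.u (intL Γ j), g a ∈ LY Y.u (intL Γ j) ∧ g.symm a ∈ LY Y.u (intL Γ j)) ∧
    ∀ a ∈ NF Y.u (nefCone Γ j) (Y.h j) T, g a ∈ NF Y.u (nefCone Γ j) (Y.h j) T ∧
      g.symm a ∈ NF Y.u (nefCone Γ j) (Y.h j) T

theorem niceY_of_pull {T : Set (Set ι)} {f : V ≃ᵃ[ℂ] V} (hj : Function.Injective j)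
    (hf : Normalizes Γ f) {u : E ≃ₗ[ℂ] E}
    (hfu : ∀ e, f.linear (j e) = j (u e)) {g : NY Y j ≃ₗ[ℝ] NY Y j} (hg : IsPullbackY Y j f g) :
    NiceY Y j T g := by
  obtain ⟨g', h1, h2, h3, h4⟩ := exists_pull (j := j) hf hfu
  have hl : ∀ z, g (lft Y.u z) = lft Y.u (g' z) := fun z => by
    refine hg.2 z (g' z) fun e w e' w' he hw => ?_
    rw [hfu] at he hw
    rw [h1, hj he, hj hw]
  have hd' : ∀ β, g.symm (dv Y.u (Y.h j) β) = dv Y.u (Y.h j) β := fun β => by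
    rw [LinearEquiv.symm_apply_eq, hg.1]
  have hl' : ∀ z, g.symm (lft Y.u z) = lft Y.u (g'.symm z) := fun z => by
    rw [LinearEquiv.symm_apply_eq, hl, g'.apply_symm_apply]
  have hh : ∀ i, Y.h j i ∈ intL Γ j := fun i => clsE_mem (Y.chern i)
  refine ⟨fun a ha => ?_, fun a ha => ⟨fun t ht => ?_, fun t ht => ?_⟩⟩
  · obtain ⟨d, x₀, hx₀, rfl⟩ := rep_LY hh ha
    have h5 : ∀ x ∈ intL Γ j, dv Y.u (Y.h j) (fun i => (d i : ℝ)) + lft Y.u x
        ∈ LY Y.u (intL Γ j) := fun x hx => by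
      refine ⟨⟨d, ?_⟩, ?_⟩
      · rw [Prod.fst_add, dv_fst, lft_fst, add_zero]
      · rw [Prod.snd_add, dv_snd, lft_snd]
        refine (intL Γ j).add_mem ((intL Γ j).sum_mem fun i _ => ?_) hx
        rw [Int.cast_smul_eq_zsmul]
        exact (intL Γ j).zsmul_mem (hh i) _
    rw [map_add, map_add, hg.1, hl, hd', hl']
    exact ⟨h5 _ (h3 _ hx₀), h5 _ (h4 _ hx₀)⟩
  · obtain ⟨β, hβ, hβt, x, hx, rfl⟩ := ha t ht
    refine ⟨β, hβ, hβt, g' x, fun v => ?_, by rw [map_add, hg.1, hl]⟩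
    rw [h1]
    exact hx _
  · obtain ⟨β, hβ, hβt, x, hx, rfl⟩ := ha t ht
    refine ⟨β, hβ, hβt, g'.symm x, fun v => ?_, by rw [map_add, hd', hl']⟩
    rw [h2]
    exact hx _

/-- The group generated by the pullbacks preserves the integral classes and the cone. -/
theorem niceY_grp (hj : Function.Injective j) (hjr : LinearMap.range j = LinearMap.ker π)
    (Δ : Bdry Y r) {T : Set (Set ι)} {g : NY Y j ≃ₗ[ℝ] NY Y j} (hg : g ∈ Δ.grp Γ' π j) :
    NiceY Y j T g := by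
  refine Subgroup.closure_induction ?_ ?_ ?_ ?_ hg
  · rintro g ⟨f, a, ha, hf, -, h⟩
    obtain ⟨u, hu⟩ := Q43.CC.exists_u hj hjr hf
    exact niceY_of_pull hj ha.norm hu h
  · exact ⟨fun a h => ⟨h, h⟩, fun a h => ⟨h, h⟩⟩
  · rintro x y - - hx hy
    exact ⟨fun a h => ⟨(hx.1 _ (hy.1 a h).1).1, (hy.1 _ (hx.1 a h).2).2⟩,
      fun a h => ⟨(hx.2 _ (hy.2 a h).1).1, (hy.2 _ (hx.2 a h).2).2⟩⟩
  · rintro x - hx
    exact ⟨fun a h => ⟨(hx.1 a h).2, (hx.1 a h).1⟩, fun a h => ⟨(hx.2 a h).2, (hx.2 a h).1⟩⟩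

/-- **The cone conjecture for klt Calabi–Yau pairs on toric bundles**, general form. -/
theorem gen_main (R : Rel Γ j H₀) (hjr : LinearMap.range j = LinearMap.ker π)
    (Δ : Bdry Y r) {v₀ : V} (hklt : Δ.IsKltAt v₀) (hCY : Δ.IsCY j)
    {T : Set (Set ι)} (hT : T ⊆ Y.S) (hT0 : T.Nonempty)
    (𝒢 : LinGrp (NY Y j)) (hM : PresLatt 𝒢)
    (hN : Preserves 𝒢 (NF Y.u (nefCone Γ j) (Y.h j) T ∩ effY Y j))
    (hfin : 𝒢.relIndex (Δ.grp Γ' π j) ≠ 0) :
    ∃ S : Finset (NY Y j), ↑S ⊆ intY Y j ∧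
      cone S ⊆ NF Y.u (nefCone Γ j) (Y.h j) T ∩ effY Y j ∧
      IsFundDomain 𝒢 (NF Y.u (nefCone Γ j) (Y.h j) T ∩ effY Y j) (cone S) := by
  classical
  have := finite_Lin R.tq
  obtain ⟨⟨N₀, hN₀, hfull⟩, hkill, hker⟩ := klt_main R Δ hklt hCY
  obtain ⟨τ, B⟩ := exists_Bs (u := Y.u) R Y.chern fun e he k => hkill e he k (j e)
  let _ : Fintype (Q47.MM.Refls Γ) := Fintype.ofFinite _
  obtain ⟨ℓ, hℓ⟩ := nef_tests R
  obtain ⟨ξ₀, y₀, Y₀, D, -, F, hF, hcov⟩ := cover R hN₀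
  obtain ⟨d, hd⟩ := Y.proj
  obtain ⟨M, k, hk, hM1, hM2, hM3⟩ := hM
  rw [effY_eq R] at hN ⊢
  obtain ⟨S, h1, h2, h3⟩ := core Y.fan B D hℓ hd hT hT0 M hk
    (fun x hx => hM1 x ((mem_intY x).2 hx)) (fun x hx => (mem_intY _).1 (hM2 x hx)) 𝒢
    (Δ.grp Γ' π j) hM3 hN (fun t ht =>
      ⟨fun a ha => ((niceY_grp (T := T) R.inj hjr Δ ht).1 a ha).1,
        fun a ha => ((niceY_grp (T := T) R.inj hjr Δ ht).2 a ha).1⟩) hfin F hF (by
      intro x hx
      obtain ⟨x', hx', u, f, hf, hux⟩ := hcov x hx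
      refine ⟨x', hx', ?_⟩
      obtain ⟨a, ha, hΔa⟩ := lift R Δ hfull hkill hker hf
      obtain ⟨gX, hg1, -, -, -⟩ := exists_pull (j := j) hf.norm hf.lin
      have hcc : ∀ m, gX (cc Y.u (Y.h j) m) = cc Y.u (Y.h j) m := by
        intro m
        apply Subtype.ext
        funext v w
        have hz : ∀ e e' : E, (cc Y.u (Y.h j) m).1 e e'
            = ∑ k, (m k : ℂ) * ∑ i, (Y.u i k : ℂ) * Y.Hc i (j e) (j e') := by
          intro e e'
          rw [cc, coe_sum_N1]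
          simp only [chr_apply, Complex.ofReal_sum, Complex.ofReal_mul, Complex.ofReal_intCast,
            Finset.sum_mul, Finset.mul_sum]
          rw [Finset.sum_comm]
          refine Finset.sum_congr rfl fun k _ => Finset.sum_congr rfl fun i _ => ?_
          rw [mul_assoc]
          rfl
        rw [hg1, hz, hz]
        refine Finset.sum_congr rfl fun k _ => ?_
        congr 1
        have hu : ∀ e, j (u e) = j e + j (u e - e) := fun e => by
          rw [← map_add]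
          congr 1
          abel
        have h4 : ∀ i, Y.Hc i (j (u v)) (j (u w)) = Y.Hc i (j v) (j w)
            + (Y.Hc i (j (u v - v)) (j (u w)) + Y.Hc i (j v) (j (u w - w))) := by
          intro i
          have hH := (Y.chern i).1
          rw [hu v, hH.add_left, hu w, h_add_right hH, h_add_right hH]
          ring
        simp only [h4, mul_add, Finset.sum_add_distrib]
        have h5 := hkill _ (hf.mir v) k (j (u w))
        have h6 : ∑ i, (Y.u i k : ℂ) * Y.Hc i (j v) (j (u w - w)) = 0 := by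
          have h7 := congrArg (starRingEnd ℂ) (hkill _ (hf.mir w) k (j v))
          rw [map_sum, map_zero] at h7
          rw [← h7]
          refine Finset.sum_congr rfl fun i _ => ?_
          rw [map_mul, map_intCast, ← (Y.chern i).1.symm]
        rw [h5, h6, add_zero, add_zero]
      obtain ⟨g, hg2, hg3⟩ := exists_ext gX hcc
      have hgx : gX x = x' := by
        apply Subtype.ext
        funext v w
        rw [hg1, hux]
      refine ⟨g, Subgroup.subset_closure ⟨f, a, ha, ⟨1, Γ'.one_mem, fun v => ?_⟩, hΔa, hg2,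
        fun z z' hz => ?_⟩, hg2, by rw [hg3, hgx]⟩
      · obtain ⟨e, he⟩ := hf.disp v
        have h5 : π (j (u e - e)) = 0 := by
          have h6 : j (u e - e) ∈ LinearMap.ker π := hjr ▸ LinearMap.mem_range_self j _
          exact h6
        rw [he, map_add, h5, add_zero]
        rfl
      · rw [hg3]
        congr 1
        apply Subtype.ext
        funext v w
        rw [hg1]
        exact (hz v w (u v) (u w) (hf.lin v).symm (hf.lin w).symm).symm)
  exact ⟨S, fun a ha => (mem_intY a).2 (h1 a ha), h2, h3⟩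

/-- Effective classes in the cone are combinations of integral classes in the cone. -/
theorem gen_plus (R : Rel Γ j H₀)
    (Δ : Bdry Y r) {v₀ : V} (hklt : Δ.IsKltAt v₀) (hCY : Δ.IsCY j)
    {T : Set (Set ι)} (hT0 : T.Nonempty) :
    NF Y.u (nefCone Γ j) (Y.h j) T ∩ effY Y j =
      {p | ∃ A : Finset (NY Y j), (∀ a ∈ A, a ∈ intY Y j ∧ a ∈ NF Y.u (nefCone Γ j) (Y.h j) T) ∧
        p ∈ cone A} := by
  classical
  have := finite_Lin R.tq
  obtain ⟨⟨N₀, hN₀, hfull⟩, hkill, hker⟩ := klt_main R Δ hklt hCY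
  obtain ⟨τ, B⟩ := exists_Bs (u := Y.u) R Y.chern fun e he k => hkill e he k (j e)
  let _ : Fintype (Q47.MM.Refls Γ) := Fintype.ofFinite _
  obtain ⟨ξ₀, y₀, Y₀, D, -, F, hF, hcov⟩ := cover R hN₀
  rw [effY_eq R]
  apply Set.ext
  intro p
  refine Iff.trans (Cp_eq Y.fan B D hT0 p).symm ?_
  constructor
  · rintro ⟨A, hA, hp⟩
    exact ⟨A, fun a ha => ⟨(mem_intY a).2 (hA a ha).1, (hA a ha).2⟩, hp⟩
  · rintro ⟨A, hA, hp⟩
    exact ⟨A, fun a ha => ⟨(mem_intY a).1 (hA a ha).1, (hA a ha).2⟩, hp⟩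

theorem finDim_NY (R : Rel Γ j H₀) : FiniteDimensional ℝ (NY Y j) := by
  have : FiniteDimensional ℝ (N1 Γ j) := finDim_N1 R
  have : FiniteDimensional ℝ (Cl Y.u) :=
    inferInstanceAs (FiniteDimensional ℝ ((ι → ℝ) ⧸ LinearMap.range (chr Y.u)))
  exact inferInstanceAs (FiniteDimensional ℝ (Cl Y.u × N1 Γ j))

omit [FiniteDimensional ℂ V] in
theorem faces_of_fund {W : Type*} [AddCommGroup W] [Module ℝ W] [FiniteDimensional ℝ W]
    [TopologicalSpace W] {A : Set W} (hadd : ∀ x ∈ A, ∀ y ∈ A, x + y ∈ A)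
    (hsmul : ∀ x ∈ A, ∀ t : ℝ, 0 ≤ t → t • x ∈ A) (𝒢 : LinGrp W) (hN : Preserves 𝒢 A)
    {S : Finset W} (hS : cone S ⊆ A) (hcov : IsFundDomain 𝒢 A (cone S)) :
    ∃ 𝓕 : Set (Set W), 𝓕.Finite ∧ (∀ F ∈ 𝓕, IsFace F A) ∧
      ∀ F, IsFace F A → ∃ g ∈ 𝒢, ∃ F' ∈ 𝓕, F = g '' F' := by
  refine Pool.Agent.Y167.finite_faces hadd hsmul 𝒢 hN hS fun x hx => ?_
  have h1 : x ∈ ⋃ g ∈ 𝒢, g '' cone S := hcov.1 ▸ hx
  obtain ⟨g, hg, y, hy, h2⟩ := Set.mem_iUnion₂.1 h1
  exact ⟨g, hg, y, hy, h2⟩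

omit [FiniteDimensional ℂ V] [FiniteDimensional ℂ E] in
theorem cone_add' {T : Set (Set ι)} {p q : NY Y j}
    (hp : p ∈ NF Y.u (nefCone Γ j) (Y.h j) T ∩ effY Y j)
    (hq : q ∈ NF Y.u (nefCone Γ j) (Y.h j) T ∩ effY Y j) :
    p + q ∈ NF Y.u (nefCone Γ j) (Y.h j) T ∩ effY Y j :=
  Set.mem_inter (NF_add (fun _ hx _ hy => nef_add hx hy) hp.1 hq.1) (effY_add hp.2 hq.2)

omit [FiniteDimensional ℂ V] [FiniteDimensional ℂ E] in
theorem cone_smul1 {T : Set (Set ι)} {p : NY Y j}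
    (hp : p ∈ NF Y.u (nefCone Γ j) (Y.h j) T) {s : ℝ} (hs : 0 ≤ s) :
    s • p ∈ NF Y.u (nefCone Γ j) (Y.h j) T := by
  refine NF_smul ?_ hs hp
  intro s hs x hx
  exact nef_smul hs hx

omit [FiniteDimensional ℂ V] [FiniteDimensional ℂ E] in
theorem cone_smul' {T : Set (Set ι)} {p : NY Y j}
    (hp : p ∈ NF Y.u (nefCone Γ j) (Y.h j) T ∩ effY Y j) {s : ℝ} (hs : 0 ≤ s) :
    s • p ∈ NF Y.u (nefCone Γ j) (Y.h j) T ∩ effY Y j := by
  have h1 := cone_smul1 hp.1 hs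
  have h2 := effY_smul hp.2 hs
  exact ⟨h1, h2⟩

/-- The faces of the cone form finitely many orbits. -/
theorem gen_faces (R : Rel Γ j H₀) {T : Set (Set ι)}
    (𝒢 : LinGrp (NY Y j)) (hN : Preserves 𝒢 (NF Y.u (nefCone Γ j) (Y.h j) T ∩ effY Y j))
    {S : Finset (NY Y j)} (hS : cone S ⊆ NF Y.u (nefCone Γ j) (Y.h j) T ∩ effY Y j)
    (hcov : IsFundDomain 𝒢 (NF Y.u (nefCone Γ j) (Y.h j) T ∩ effY Y j) (cone S)) :
    ∃ 𝓕 : Set (Set (NY Y j)), 𝓕.Finite ∧
      (∀ F ∈ 𝓕, IsFace F (NF Y.u (nefCone Γ j) (Y.h j) T ∩ effY Y j)) ∧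
      ∀ F, IsFace F (NF Y.u (nefCone Γ j) (Y.h j) T ∩ effY Y j) →
        ∃ g ∈ 𝒢, ∃ F' ∈ 𝓕, F = g '' F' := by
  have := finDim_NY (Y := Y) R
  exact faces_of_fund (fun x hx y hy => cone_add' hx hy) (fun x hx s hs => cone_smul' hx hs)
    𝒢 hN hS hcov

end Q47.CY
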