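import Pool.Agent.Q47.CY.MovA
import Pool.Agent.Q47.KN.Dims

/-!
# Interior classes are classes of movable line bundles
-/

set_option autoImplicit false

namespace Q47.CY

open Finset Filter Topology
open Pool.Agent.W594.SYZ2 Pool.Agent.W594.SYZ2.TQ Pool.Agent.TH735.AQ Pool.Agent.TH128.SYZ
open Pool.Agent.Y167
open Pool.Agent.Y167.CC (LinGrp Preserves IsFundDomain)
open Q47.TB MvPolynomial

variable {V W E : Type*} [NormedAddCommGroup V] [NormedSpace ℂ V] [FiniteDimensional ℂ V]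
  [NormedAddCommGroup W] [NormedSpace ℂ W]
  [NormedAddCommGroup E] [NormedSpace ℂ E] [FiniteDimensional ℂ E] {Γ : AffGrp V} {Γ' : AffGrp W}
  {π : V →ₗ[ℂ] W} {H₀ : V → V → ℂ}
  {j : E →ₗ[ℂ] V} {ι : Type*} [Fintype ι] {n r : ℕ} {Y : Bundle Γ ι n}

/-- The charts which matter for movability. -/
def T1 (S : Set (Set ι)) : Set (Set ι) := {t | t ∈ S ∧ t.Subsingleton}

/-- A class with ample coefficients has a multiple which is the class of a movable line bundle. -/
theorem movable_class (R : Rel Γ j H₀) {q : NY Y j} (hq : q ∈ LY Y.u (intL Γ j))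
    {y₀ : N1 Γ j} (hy₀ : ∀ u w, y₀.1 u w = H₀ (j u) (j w))
    (hrep : ∀ t ∈ T1 Y.S, ∃ (b : ι → ℕ) (x : N1 Γ j), (∀ i ∈ t, b i = 0) ∧
      x - y₀ ∈ nefCone Γ j ∧ q = dv Y.u (Y.h j) (fun i => (b i : ℝ)) + lft Y.u x) :
    ∃ m : ℕ, 1 ≤ m ∧ ∃ (d : ι → ℤ) (M : LineBundle Γ), IsClassY Y j d M ((m : ℝ) • q) ∧
      Q47.CP.IsMovable Y d M := by
  classical
  obtain ⟨⟨d₀, hd₀⟩, M₀, HM, hHM, hM₀⟩ := hq
  obtain ⟨B, P, hBP, hP0, hPE, hPj⟩ := exists_base_bundle R
  have hfin : Finite {t // t ∈ T1 Y.S} := inferInstance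
  let _ : Fintype {t // t ∈ T1 Y.S} := Fintype.ofFinite _
  choose b x hb hx hqx using fun t : {t // t ∈ T1 Y.S} => hrep t.1 t.2
  have hHc : ∀ i, IsHermitian (Y.Hc i) := fun i => (Y.chern i).1
  let Ht : {t // t ∈ T1 Y.S} → V → V → ℂ := fun t v w => HM v w - ∑ i, (b t i : ℂ) * Y.Hc i v w
  have hHt : ∀ t, IsHermitian (Ht t) := by
    intro t
    refine ⟨fun u v w => ?_, fun a v w => ?_, fun v w => ?_⟩
    · simp only [Ht, hHM.1.add_left, (hHc _).add_left, mul_add, Finset.sum_add_distrib]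
      ring
    · simp only [Ht, hHM.1.smul_left, (hHc _).smul_left, mul_sub, Finset.mul_sum]
      congr 1
      exact Finset.sum_congr rfl fun i _ => by ring
    · simp only [Ht, map_sub, map_mul, map_sum, Complex.conj_natCast, ← hHM.1.symm,
        ← (hHc _).symm]
  have hHx : ∀ t e w, Ht t (j e) (j w) = (x t).1 e w := by
    intro t e w
    have h1 := congrArg Prod.snd (hqx t)
    rw [Prod.snd_add, dv_snd, lft_snd] at h1
    have h2 : q.2.1 e w = (∑ i, (b t i : ℝ) • Y.h j i + x t : N1 Γ j).1 e w := by rw [h1]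
    have h4 : (∑ i, (b t i : ℝ) • Y.h j i + x t : N1 Γ j).1 e w
        = (∑ i, (b t i : ℝ) • Y.h j i : N1 Γ j).1 e w + (x t).1 e w := rfl
    rw [h4, coe_sum_N1, hM₀] at h2
    simp only [Complex.ofReal_natCast] at h2
    change HM (j e) (j w) = ∑ i, (b t i : ℂ) * Y.Hc i (j e) (j w) + _ at h2
    simp only [Ht]
    rw [h2]
    ring
  have hpos : ∀ t v, v ≠ 0 → (P v v).re = 0 → 0 < (Ht t v v).re := by
    intro t v hv hPv
    obtain ⟨e, rfl⟩ := hPE v hPv
    rw [hHx]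
    have h1 := hx t e
    have h2 : ((x t - y₀ : N1 Γ j).1 e e).re = ((x t).1 e e).re - (y₀.1 e e).re := rfl
    rw [h2, hy₀] at h1
    have h3 := R.pos _ hv
    linarith
  choose K₁ hK₁ using fun t => exists_pos_twist (hHt t) hBP.1 hP0 (hpos t)
  let K : ℕ := ∑ t, K₁ t
  have hK : ∀ t, K₁ t ≤ K := fun t => Finset.single_le_sum (fun _ _ => Nat.zero_le _)
    (Finset.mem_univ t)
  let M₁ : LineBundle Γ := tensor (B.pow K) M₀
  have hM₁ : IsChernForm M₁ (fun v w => (K : ℂ) * P v w + HM v w) :=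
    Q47.KN.chern_tensor hBP hHM K
  let N : ℕ := 4 * Nat.card (Lin Γ)
  have hN : 1 ≤ N := Nat.mul_pos (by norm_num) (card_pos R.tq)
  have hgg : ∀ t, Q47.EB.GG ((Q47.TB.tw M₁ Y.c 1 (b t)).pow N) := by
    intro t
    refine Q47.EB.ample_gg R.tq (chern_tw hM₁ Y.chern 1 (b t)) fun v hv => ?_
    have h1 := hK₁ t K (hK t) v hv
    have h2 : (((1 : ℕ) : ℂ) * ((K : ℂ) * P v v + HM v v - ∑ i, (b t i : ℂ) * Y.Hc i v v)).re
        = (Ht t v v).re + K * (P v v).re := by
      have h3 : ((1 : ℕ) : ℂ) * ((K : ℂ) * P v v + HM v v - ∑ i, (b t i : ℂ) * Y.Hc i v v)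
          = Ht t v v + ((K : ℝ) : ℂ) * P v v := by
        simp only [Ht]
        push_cast
        ring
      rw [h3, Complex.add_re, Complex.re_ofReal_mul]
    rw [h2]
    exact h1
  refine ⟨N, hN, fun i => ((1 * N : ℕ) : ℤ) * d₀ i, M₁.pow N, ⟨?_, ?_⟩, ?_⟩
  · rw [Prod.smul_fst, hd₀, ← cls_smul]
    congr 1
    ext i
    simp only [Pi.smul_apply, smul_eq_mul]
    push_cast
    ring
  · refine ⟨_, Q47.KN.chern_pow hM₁ N, fun e w => ?_⟩
    have h1 : ((N : ℝ) • q).2.1 e w = (N : ℝ) • q.2.1 e w := rfl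
    rw [h1, hM₀, hPj, mul_zero, zero_add, Complex.real_smul, Complex.ofReal_natCast]
  · refine Q47.CP.movable_crit Y fun t ht hts => ?_
    let t' : {t // t ∈ T1 Y.S} := ⟨t, ht, hts⟩
    refine ⟨fun i => 1 * N * b t' i, fun i hi => ?_, fun v => ?_⟩
    · have : b t' i = 0 := hb t' i hi
      change 1 * N * b t' i = 0
      rw [this, mul_zero]
    · obtain ⟨s, hs, hsv⟩ := hgg t' v
      have hle : LinEquiv Y.u (fun i => (b t' i : ℤ)) d₀ := by
        refine linEquiv_of_cls Y.fan ?_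
        rw [← hd₀, hqx t', Prod.fst_add, dv_fst, lft_fst, add_zero]
        rfl
      refine ⟨s, hsv, hs.holo.continuous, ?_⟩
      have h1 := isSection_monomial hle hs
      have h2 : (fun (γ : Γ) v => M₁.e γ v ^ (1 * N)) = (M₁.pow N).e := by
        funext γ v
        rw [one_mul]
        rfl
      rw [← h2]
      exact h1

/-- The cone spanned by the classes of movable line bundles. -/
def mov0 (Y : Bundle Γ ι n) (j : E →ₗ[ℂ] V) : Set (NY Y j) :=
  {p | ∃ A : Finset (NY Y j), (∀ a ∈ A, ∃ (d : ι → ℤ) (M : LineBundle Γ), IsClassY Y j d M a ∧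
    Q47.CP.IsMovable Y d M) ∧ p ∈ cone A}

omit [FiniteDimensional ℂ V] [FiniteDimensional ℂ E] in
theorem mov0_add {p q : NY Y j} (hp : p ∈ mov0 Y j) (hq : q ∈ mov0 Y j) : p + q ∈ mov0 Y j := by
  classical
  obtain ⟨A, hA, h1⟩ := hp
  obtain ⟨B, hB, h2⟩ := hq
  refine ⟨A ∪ B, fun a ha => ?_, cone_add (cone_mono Finset.subset_union_left h1)
    (cone_mono Finset.subset_union_right h2)⟩
  rcases Finset.mem_union.1 ha with h | h
  · exact hA a h
  · exact hB a h

omit [FiniteDimensional ℂ V] [FiniteDimensional ℂ E] in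
theorem mov0_smul {p : NY Y j} (hp : p ∈ mov0 Y j) {t : ℝ} (ht : 0 ≤ t) : t • p ∈ mov0 Y j := by
  obtain ⟨A, hA, h1⟩ := hp
  exact ⟨A, hA, cone_smul h1 ht⟩

omit [FiniteDimensional ℂ V] [FiniteDimensional ℂ E] in
theorem mov0_zero : (0 : NY Y j) ∈ mov0 Y j := ⟨∅, by simp, zero_mem_cone _⟩

/-- **The movable cone of `Y` over `Z`.** -/
theorem mov_eq (R : Rel Γ j H₀) (Δ : Bdry Y r) {v₀ : V} (hklt : Δ.IsKltAt v₀)
    (hCY : Δ.IsCY j) :
    NF Y.u (nefCone Γ j) (Y.h j) (T1 Y.S) ∩ effY Y j = closure (mov0 Y j) ∩ effY Y j := by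
  classical
  have := finite_Lin R.tq
  have hT : T1 Y.S ⊆ Y.S := fun t ht => ht.1
  have hT0 : (T1 Y.S).Nonempty := ⟨∅, Y.fan.empty_mem, Set.subsingleton_empty⟩
  apply Set.Subset.antisymm
  · rintro p ⟨hp, hpe⟩
    refine ⟨?_, hpe⟩
    have hadd : ∀ x ∈ closure (mov0 Y j), ∀ y ∈ closure (mov0 Y j),
        x + y ∈ closure (mov0 Y j) := fun x hx y hy =>
      map_mem_closure₂ continuous_add hx hy fun a ha b hb => mov0_add ha hb
    have hsmul : ∀ t : ℝ, 0 ≤ t → ∀ x ∈ closure (mov0 Y j), t • x ∈ closure (mov0 Y j) :=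
      fun t ht x hx => map_mem_closure (continuous_const_smul t) hx fun a ha => mov0_smul ha ht
    have hpp : p ∈ {p | ∃ A : Finset (NY Y j), (∀ a ∈ A, a ∈ intY Y j ∧
        a ∈ NF Y.u (nefCone Γ j) (Y.h j) (T1 Y.S)) ∧ p ∈ cone A} := by
      rw [← gen_plus R Δ hklt hCY hT0]
      exact ⟨hp, hpe⟩
    obtain ⟨A, hA, hpA⟩ := hpp
    obtain ⟨-, hkill, -⟩ := klt_main R Δ hklt hCY
    obtain ⟨τ, B⟩ := exists_Bs (u := Y.u) R Y.chern fun e he k => hkill e he k (j e)
    let _ : Fintype (Q47.MM.Refls Γ) := Fintype.ofFinite _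
    obtain ⟨ξ₀, y₀, Y₀, D, hy₀, -⟩ := cover R one_pos
    obtain ⟨d, hd⟩ := Y.proj
    obtain ⟨y', hy'L, hy'⟩ := exists_int_pt B.h_mem D hd
    refine cone_ind (p := fun x => x ∈ closure (mov0 Y j)) (subset_closure mov0_zero)
      (fun x y hx hy => hadd x hx y hy) (fun t x ht hx => hsmul t ht x hx) ?_ hpA
    intro a ha
    obtain ⟨haI, haN⟩ := hA a ha
    have haL := (mem_intY a).1 haI
    have hfin : Finite {t // t ∈ T1 Y.S} := inferInstance
    let _ : Fintype {t // t ∈ T1 Y.S} := Fintype.ofFinite _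
    choose k β x hk hβ hxL hxn hkx using fun t : {t // t ∈ T1 Y.S} =>
      exists_rat Y.fan B D haL (haN t.1 t.2)
    let K : ℕ := ∏ t, k t
    have hK : 1 ≤ K := Nat.succ_le_of_lt (Finset.prod_pos fun t _ => hk t)
    have hKr : (0 : ℝ) < K := by exact_mod_cast hK
    -- the approximations
    have key : ∀ m : ℕ, (m : ℝ) • (K : ℝ) • a + y' ∈ mov0 Y j := by
      intro m
      have h1 : (m : ℝ) • (K : ℝ) • a + y' ∈ LY Y.u (intL Γ j) := by
        rw [smul_smul]
        have : (m : ℝ) * K = ((m * K : ℕ) : ℝ) := by push_cast; rfl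
        rw [this, Nat.cast_smul_eq_nsmul]
        exact (LY Y.u (intL Γ j)).add_mem ((LY Y.u (intL Γ j)).nsmul_mem haL _) hy'L
      obtain ⟨N, hN, d', M', h2, h3⟩ := movable_class R (q := (m : ℝ) • (K : ℝ) • a + y') h1 hy₀ (by
        intro t ht
        obtain ⟨b, z, hb, -, hzn, hyb⟩ := hy' t ht.1
        let t' : {t // t ∈ T1 Y.S} := ⟨t, ht⟩
        have hKk : ∃ c : ℕ, K = c * k t' := ⟨∏ s ∈ Finset.univ.erase t', k s, by
          simp only [K]
          rw [Finset.prod_erase_mul _ _ (Finset.mem_univ t')]⟩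
        obtain ⟨c, hc⟩ := hKk
        refine ⟨fun i => m * (c * β t' i) + b i, (m : ℝ) • (c : ℝ) • x t' + z, fun i hi => ?_, ?_, ?_⟩
        · change m * (c * β t' i) + b i = 0
          rw [hb i hi, hβ t' i hi, mul_zero, mul_zero]
        · rw [add_sub_assoc]
          exact nef_add (nef_smul (Nat.cast_nonneg _) (nef_smul (Nat.cast_nonneg _) (hxn t'))) hzn
        · have h4 : (K : ℝ) • a = (c : ℝ) • (dv Y.u (Y.h j) (fun i => (β t' i : ℝ))
              + lft Y.u (x t')) := by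
            have h9 := hkx t'
            rw [hc, Nat.cast_mul, mul_smul]
            exact congrArg (fun z => (c : ℝ) • z) h9
          have h5 : (fun i => ((m * (c * β t' i) + b i : ℕ) : ℝ))
              = (m : ℝ) • (c : ℝ) • (fun i => (β t' i : ℝ)) + fun i => (b i : ℝ) := by
            ext i
            simp only [Pi.add_apply, Pi.smul_apply, smul_eq_mul]
            push_cast
            ring
          have hyb' : y' = dv Y.u (Y.h j) (fun i => (b i : ℝ)) + lft Y.u z := hyb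
          rw [h4, hyb', h5]
          simp only [map_add, map_smul, smul_add]
          abel)
      have hNr : (0 : ℝ) < N := by exact_mod_cast hN
      have h4 : (m : ℝ) • (K : ℝ) • a + y'
          = (N : ℝ)⁻¹ • ((N : ℝ) • ((m : ℝ) • (K : ℝ) • a + y')) :=
        (inv_smul_smul₀ hNr.ne' _).symm
      rw [h4]
      refine mov0_smul ⟨{(N : ℝ) • ((m : ℝ) • (K : ℝ) • a + y')}, fun b hb => ?_,
        mem_cone_self (Finset.mem_singleton_self _)⟩ (inv_nonneg.2 hNr.le)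
      rw [Finset.mem_singleton.1 hb]
      exact ⟨d', M', h2, h3⟩
    have hlim : Tendsto (fun m : ℕ => a + (1 / ((m : ℝ) + 1)) • ((K : ℝ)⁻¹ • y')) atTop
        (𝓝 a) := by
      have h1 : Tendsto (fun m : ℕ => a + (1 / ((m : ℝ) + 1)) • ((K : ℝ)⁻¹ • y')) atTop
          (𝓝 (a + (0 : ℝ) • ((K : ℝ)⁻¹ • y'))) :=
        tendsto_const_nhds.add (tendsto_one_div_add_atTop_nhds_zero_nat.smul_const _)
      rwa [zero_smul, add_zero] at h1
    refine mem_closure_of_tendsto hlim (Eventually.of_forall fun m => ?_)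
    have hmr : (0 : ℝ) < (m : ℝ) + 1 := by positivity
    have h1 : a + (1 / ((m : ℝ) + 1)) • ((K : ℝ)⁻¹ • y')
        = (((m : ℝ) + 1)⁻¹ * (K : ℝ)⁻¹) • (((m + 1 : ℕ) : ℝ) • (K : ℝ) • a + y') := by
      rw [smul_add, smul_smul, smul_smul, smul_smul, one_div]
      congr 1
      rw [Nat.cast_add, Nat.cast_one]
      have : ((m : ℝ) + 1)⁻¹ * (K : ℝ)⁻¹ * ((m : ℝ) + 1) * K = 1 := by
        field_simp
      rw [this, one_smul]
    rw [h1]
    exact mov0_smul (key _) (by positivity)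
  · rintro p ⟨hp, hpe⟩
    refine ⟨?_, hpe⟩
    refine closure_minimal ?_ (NF_isClosed R hT hT0) hp
    rintro q ⟨A, hA, hq⟩
    have hnef0 : (0 : N1 Γ j) ∈ nefCone Γ j := fun u => by
      change 0 ≤ (0 : ℂ).re
      exact le_rfl
    refine cone_ind (p := fun x => x ∈ NF Y.u (nefCone Γ j) (Y.h j) (T1 Y.S)) ?_
      (fun x y hx hy => NF_add (fun _ hx _ hy => nef_add hx hy) hx hy)
      (fun t x ht hx => cone_smul1 hx ht) ?_ hq
    · exact fun t _ => ⟨0, fun i => le_rfl, fun i _ => rfl, 0, hnef0,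
        by rw [map_zero, map_zero, add_zero]⟩
    · intro a ha
      obtain ⟨d, M, h1, h2⟩ := hA a ha
      exact NF_of_movable R.tq h1 h2

end Q47.CY
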