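import Pool.Agent.Q47.CY.Poly

/-!
# The cones of a toric bundle over an abstract base
-/

set_option autoImplicit false

namespace Q47.CY

open Pool.Agent.Y167 (cone zero_mem_cone mem_cone_self cone_add cone_smul cone_sum cone_le
  cone_image cone_ind cone_cut CData Cp)
open Q47.TB

variable {ι : Type*} [Fintype ι] {n : ℕ}

omit [Fintype ι] in
theorem clsL_apply (u : ι → Fin n → ℤ) (δ : ι → ℝ) : clsL u δ = cls u δ := rfl

omit [Fintype ι] in
theorem cls_eq {u : ι → Fin n → ℤ} {δ δ' : ι → ℝ} : cls u δ = cls u δ' ↔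
    ∃ m, δ = δ' + chr u m := by
  change (Submodule.Quotient.mk δ : (ι → ℝ) ⧸ LinearMap.range (chr u)) = Submodule.Quotient.mk δ' ↔ _
  rw [Submodule.Quotient.eq]
  constructor
  · rintro ⟨m, hm⟩
    exact ⟨m, by rw [hm]; abel⟩
  · rintro ⟨m, hm⟩
    exact ⟨m, by rw [hm]; abel⟩

omit [Fintype ι] in
theorem cls_surj {u : ι → Fin n → ℤ} (x : Cl u) : ∃ δ, cls u δ = x :=
  Submodule.Quotient.mk_surjective _ x

omit [Fintype ι] in
theorem cls_add (u : ι → Fin n → ℤ) (δ δ' : ι → ℝ) : cls u (δ + δ') = cls u δ + cls u δ' := rfl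

omit [Fintype ι] in
theorem cls_zero (u : ι → Fin n → ℤ) : cls u 0 = 0 := rfl

omit [Fintype ι] in
theorem cls_smul (u : ι → Fin n → ℤ) (t : ℝ) (δ : ι → ℝ) : cls u (t • δ) = t • cls u δ := rfl

variable {N : Type*} [AddCommGroup N] [Module ℝ N]

theorem dv_fst (u : ι → Fin n → ℤ) (h : ι → N) (β : ι → ℝ) : (dv u h β).1 = cls u β := rfl

theorem dv_snd (u : ι → Fin n → ℤ) (h : ι → N) (β : ι → ℝ) :
    (dv u h β).2 = ∑ i, β i • h i := by
  simp [dv]

omit [Fintype ι] in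
theorem lft_fst (u : ι → Fin n → ℤ) (x : N) : (lft u x).1 = 0 := rfl

omit [Fintype ι] in
theorem lft_snd (u : ι → Fin n → ℤ) (x : N) : (lft u x).2 = x := rfl

/-- The class on the base of the line bundle given by a character. -/
noncomputable def cc (u : ι → Fin n → ℤ) (h : ι → N) (m : Fin n → ℝ) : N :=
  ∑ i, chr u m i • h i

theorem rep_eq {u : ι → Fin n → ℤ} {h : ι → N} {β β' : ι → ℝ} {x x' : N} :
    dv u h β + lft u x = dv u h β' + lft u x' ↔
      ∃ m, β = β' + chr u m ∧ x' = x + cc u h m := by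
  rw [Prod.ext_iff]
  simp only [Prod.fst_add, Prod.snd_add, dv_fst, dv_snd, lft_fst, lft_snd, add_zero]
  rw [cls_eq]
  constructor
  · rintro ⟨⟨m, hm⟩, h2⟩
    refine ⟨m, hm, ?_⟩
    rw [hm] at h2
    simp only [Pi.add_apply, add_smul, Finset.sum_add_distrib] at h2
    rw [cc]
    have : x' = (∑ i, β' i • h i + ∑ i, chr u m i • h i + x) - ∑ i, β' i • h i := by
      rw [h2]; abel
    rw [this]
    abel
  · rintro ⟨m, hm, hx⟩
    refine ⟨⟨m, hm⟩, ?_⟩
    rw [hm, hx, cc]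
    simp only [Pi.add_apply, add_smul, Finset.sum_add_distrib]
    abel

theorem exists_rep (u : ι → Fin n → ℤ) (h : ι → N) (p : Cl u × N) :
    ∃ β x, p = dv u h β + lft u x := by
  obtain ⟨δ, hδ⟩ := cls_surj p.1
  refine ⟨δ, p.2 - ∑ i, δ i • h i, ?_⟩
  rw [Prod.ext_iff]
  simp only [Prod.fst_add, Prod.snd_add, dv_fst, dv_snd, lft_fst, lft_snd, add_zero]
  exact ⟨hδ.symm, by abel⟩

/-- The assumptions on the base: the classes `h i` are integral, and there are integral linear forms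
which detect whether the sum of a nef class and of a class given by a character is nef. -/
structure Bs (u : ι → Fin n → ℤ) (L : AddSubgroup N) (nef : Set N) (h : ι → N) {G : Type*}
    (τ : G → N →ₗ[ℝ] ℝ) : Prop where
  h_mem : ∀ i, h i ∈ L
  tau_int : ∀ g, ∀ x ∈ L, ∃ k : ℤ, τ g x = k
  tau_nonneg : ∀ g, ∀ x ∈ nef, 0 ≤ τ g x
  nef_of : ∀ x ∈ nef, ∀ m, (∀ g, 0 ≤ τ g (x + cc u h m)) → x + cc u h m ∈ nef

/-- The cone of the sums of an effective divisor `∑ β_i D_i` which does not contain the `D_i`,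
`i ∈ t`, and of the pullback of a nef class. -/
def CT (u : ι → Fin n → ℤ) (nef : Set N) (h : ι → N) (t : Set ι) : Set (Cl u × N) :=
  {p | ∃ β : ι → ℝ, (∀ i, 0 ≤ β i) ∧ (∀ i ∈ t, β i = 0) ∧ ∃ x ∈ nef, p = dv u h β + lft u x}

/-- The intersection of these cones. -/
def NF (u : ι → Fin n → ℤ) (nef : Set N) (h : ι → N) (T : Set (Set ι)) : Set (Cl u × N) :=
  {p | ∀ t ∈ T, p ∈ CT u nef h t}

/-- The lattice of the integral classes. -/
def LY (u : ι → Fin n → ℤ) (L : AddSubgroup N) : AddSubgroup (Cl u × N) where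
  carrier := {p | (∃ d : ι → ℤ, p.1 = cls u fun i => (d i : ℝ)) ∧ p.2 ∈ L}
  zero_mem' := ⟨⟨0, by
    have : (fun i => (((0 : ι → ℤ) i : ℤ) : ℝ)) = 0 := by ext i; simp
    rw [this]; rfl⟩, L.zero_mem⟩
  add_mem' := by
    rintro p q ⟨⟨d, hd⟩, h1⟩ ⟨⟨e, he⟩, h2⟩
    refine ⟨⟨d + e, ?_⟩, L.add_mem h1 h2⟩
    rw [Prod.fst_add, hd, he, ← cls_add]
    congr 1
    ext i
    simp
  neg_mem' := by
    rintro p ⟨⟨d, hd⟩, h1⟩
    refine ⟨⟨-d, ?_⟩, L.neg_mem h1⟩
    have h2 : (fun i => (((-d) i : ℤ) : ℝ)) = (-1 : ℝ) • fun i => (d i : ℝ) := by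
      ext i
      simp
    rw [Prod.fst_neg, hd, h2, cls_smul]
    simp

theorem mem_cone_image {W W' : Type*} [AddCommGroup W] [Module ℝ W] [AddCommGroup W']
    [Module ℝ W'] [DecidableEq W'] (f : W →ₗ[ℝ] W') {S : Finset W} {p : W'} :
    p ∈ cone (S.image f) ↔ ∃ x ∈ cone S, f x = p := by
  constructor
  · intro hp
    refine cone_ind (p := fun p => ∃ x ∈ cone S, f x = p) ⟨0, zero_mem_cone S, map_zero f⟩ ?_ ?_ ?_
      hp
    · rintro x y ⟨a, ha, rfl⟩ ⟨b, hb, rfl⟩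
      exact ⟨a + b, cone_add ha hb, map_add f a b⟩
    · rintro t x ht ⟨a, ha, rfl⟩
      exact ⟨t • a, cone_smul ha ht, map_smul f t a⟩
    · intro a ha
      obtain ⟨b, hb, rfl⟩ := Finset.mem_image.1 ha
      exact ⟨b, mem_cone_self hb, rfl⟩
  · rintro ⟨x, hx, rfl⟩
    exact cone_image f hx

theorem mem_cone_sub {W : Type*} [AddCommGroup W] [Module ℝ W] {S : Finset W} {x : W} :
    x ∈ cone S ↔ ∃ c : {a // a ∈ S} → ℝ, (∀ a, 0 ≤ c a) ∧ x = ∑ a, c a • (a : W) := by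
  classical
  constructor
  · rintro ⟨c, hc, hx⟩
    refine ⟨fun a => c a, fun a => hc a, ?_⟩
    rw [hx]
    exact (Finset.sum_coe_sort S fun a => c a • a).symm
  · rintro ⟨c, hc, rfl⟩
    exact cone_sum _ _ fun a _ => cone_smul (mem_cone_self a.2) (hc a)

theorem nef_cone {L : AddSubgroup N} {nef : Set N} {ξ : N →ₗ[ℝ] ℝ} {y : N} {Y : Finset N}
    (D : CData L nef ξ y Y) {F : Finset N} (hF : ∀ a ∈ F, a ∈ L ∧ a ∈ nef) {x : N}
    (hx : x ∈ cone F) : x ∈ nef := by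
  refine cone_ind (p := fun x => x ∈ nef) ?_ (fun x y hx hy => D.add x hx y hy)
    (fun t x ht hx => D.smul t ht x hx) (fun a ha => (hF a ha).2) hx
  have h0 := D.smul 0 le_rfl _ D.y_N
  rwa [zero_smul] at h0

/-- The part of a finitely generated cone in the intersection of the cones `CT` is finitely
generated. -/
theorem key {u : ι → Fin n → ℤ} {S : Set (Set ι)} (hS : IsSmoothFan u S) {L : AddSubgroup N}
    {nef : Set N} {h : ι → N} {G : Type*} [Fintype G] {τ : G → N →ₗ[ℝ] ℝ}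
    (B : Bs u L nef h τ) {ξ : N →ₗ[ℝ] ℝ} {y : N} {Y : Finset N} (D : CData L nef ξ y Y)
    (T : Set (Set ι)) (F : Finset N) (hF : ∀ a ∈ F, a ∈ L ∧ a ∈ nef) :
    ∃ S' : Finset (Cl u × N), (∀ a ∈ S', a ∈ LY u L ∧ a ∈ NF u nef h T) ∧
      ∀ p, p ∈ cone S' ↔ p ∈ NF u nef h T ∧
        ∃ β : ι → ℝ, (∀ i, 0 ≤ β i) ∧ ∃ x ∈ cone F, p = dv u h β + lft u x := by
  classical
  obtain ⟨a, ha1, ha2⟩ := exists_tst hS
  have : Finite {t // t ∈ T} := inferInstance
  let _ : Fintype {t // t ∈ T} := Fintype.ofFinite _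
  let K := ι ⊕ {x // x ∈ F} ⊕ {t // t ∈ T} × ι
  let pb : (K → ℝ) →ₗ[ℝ] (ι → ℝ) := LinearMap.funLeft ℝ ℝ Sum.inl
  let pc : (K → ℝ) →ₗ[ℝ] N := ∑ b : {x // x ∈ F}, (LinearMap.proj (Sum.inr (Sum.inl b))).smulRight b.1
  let pt : {t // t ∈ T} → (K → ℝ) →ₗ[ℝ] (ι → ℝ) := fun t =>
    LinearMap.funLeft ℝ ℝ fun i => Sum.inr (Sum.inr (t, i))
  have hpb : ∀ z i, pb z i = z (Sum.inl i) := fun _ _ => rfl
  have hpc : ∀ z, pc z = ∑ b : {x // x ∈ F}, z (Sum.inr (Sum.inl b)) • b.1 := fun z => by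
    simp [pc]
  have hpt : ∀ t z i, pt t z i = z (Sum.inr (Sum.inr (t, i))) := fun _ _ _ => rfl
  -- the linear forms
  let tst : ι → (ι → ℝ) →ₗ[ℝ] ℝ := fun i => LinearMap.proj i -
    ∑ k, (u i k : ℝ) • ∑ i', (a k i' : ℝ) • LinearMap.proj i'
  have htst : ∀ i v, tst i v = v i - chr u (fun k => ∑ i, (a k i : ℝ) * v i) i := fun i v => by
    simp only [tst, LinearMap.sub_apply, LinearMap.sum_apply, LinearMap.smul_apply,
      LinearMap.proj_apply, smul_eq_mul, chr_apply]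
    congr 1
    exact Finset.sum_congr rfl fun k _ => mul_comm _ _
  have htst0 : ∀ v, (∀ i, tst i v = 0) ↔ ∃ m, v = chr u m := fun v => by
    rw [← ha2]
    simp only [htst, sub_eq_zero]
  have htsti : ∀ i (z : ι → ℤ), ∃ k : ℤ, tst i (fun i => (z i : ℝ)) = k := fun i z => by
    refine ⟨z i - ∑ k, (∑ i', (a k i' : ℤ) * z i') * u i k, ?_⟩
    rw [htst, chr_apply]
    push_cast
    rfl
  let xt : {t // t ∈ T} → (K → ℝ) →ₗ[ℝ] N := fun t =>
    pc + (∑ i, (LinearMap.proj i).smulRight (h i)) ∘ₗ (pb - pt t)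
  have hxt : ∀ t z, xt t z = pc z + ∑ i, (pb z i - pt t z i) • h i := fun t z => by
    simp [xt]
  let φ : ({t // t ∈ T} × ι) ⊕ ({t // t ∈ T} × ι) ⊕ ({t // t ∈ T} × ι) ⊕ {t // t ∈ T} × G →
      (K → ℝ) →ₗ[ℝ] ℝ := fun s => match s with
    | Sum.inl (t, i) => if i ∈ t.1 then -(LinearMap.proj i ∘ₗ pt t) else 0
    | Sum.inr (Sum.inl (t, i)) => tst i ∘ₗ (pb - pt t)
    | Sum.inr (Sum.inr (Sum.inl (t, i))) => -(tst i ∘ₗ (pb - pt t))
    | Sum.inr (Sum.inr (Sum.inr (t, g))) => τ g ∘ₗ xt t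
  have hLint : ∀ z : K → ℤ, pc (fun k => (z k : ℝ)) ∈ L := fun z => by
    rw [hpc]
    refine L.sum_mem fun b _ => ?_
    rw [Int.cast_smul_eq_zsmul]
    exact L.zsmul_mem (hF b.1 b.2).1 _
  obtain ⟨S₁, hS₁, hS₂⟩ := poly_gen (Finset.univ.image φ) (by
    intro ψ hψ z
    obtain ⟨s, -, rfl⟩ := Finset.mem_image.1 hψ
    have e1 : ∀ t, (pb - pt t) (fun k => (z k : ℝ))
        = fun i => ((z (Sum.inl i) - z (Sum.inr (Sum.inr (t, i))) : ℤ) : ℝ) := fun t => by
      ext i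
      rw [LinearMap.sub_apply, Pi.sub_apply, hpb, hpt]
      push_cast
      rfl
    rcases s with ⟨t, i⟩ | ⟨t, i⟩ | ⟨t, i⟩ | ⟨t, g⟩
    · simp only [φ]
      split_ifs
      · exact ⟨-z (Sum.inr (Sum.inr (t, i))), by
          rw [LinearMap.neg_apply, LinearMap.comp_apply, LinearMap.proj_apply, hpt]
          push_cast
          rfl⟩
      · exact ⟨0, by simp⟩
    · simp only [φ, LinearMap.comp_apply, e1]
      exact htsti i _
    · simp only [φ, LinearMap.neg_apply, LinearMap.comp_apply, e1]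
      obtain ⟨k, hk⟩ := htsti i fun i => z (Sum.inl i) - z (Sum.inr (Sum.inr (t, i)))
      exact ⟨-k, by rw [hk]; push_cast; rfl⟩
    · simp only [φ, LinearMap.comp_apply]
      refine B.tau_int g _ ?_
      rw [hxt]
      refine L.add_mem (hLint z) (L.sum_mem fun i _ => ?_)
      have e2 : pb (fun k => (z k : ℝ)) i - pt t (fun k => (z k : ℝ)) i
          = ((z (Sum.inl i) - z (Sum.inr (Sum.inr (t, i))) : ℤ) : ℝ) := congrFun (e1 t) i
      rw [e2, Int.cast_smul_eq_zsmul]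
      exact L.zsmul_mem (B.h_mem i) _)
  let out : (K → ℝ) →ₗ[ℝ] Cl u × N := dv u h ∘ₗ pb + lft u ∘ₗ pc
  have hout : ∀ z, out z = dv u h (pb z) + lft u (pc z) := fun _ => rfl
  -- the solutions
  have hsol : ∀ z, z ∈ cone S₁ → (∀ t, (∀ i ∈ t.1, pt t z i = 0) ∧ out z = dv u h (pt t z) +
      lft u (xt t z) ∧ xt t z ∈ nef) ∧ ∀ k, 0 ≤ z k := fun z hz => by
    obtain ⟨h0, h1⟩ := (hS₂ z).1 hz
    have h2 : ∀ s, 0 ≤ φ s z := fun s => h1 _ (Finset.mem_image_of_mem _ (Finset.mem_univ s))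
    refine ⟨fun t => ?_, h0⟩
    have h3 : ∀ i ∈ t.1, pt t z i = 0 := fun i hi => by
      have h4 := h2 (Sum.inl (t, i))
      simp only [φ, if_pos hi, LinearMap.neg_apply, LinearMap.comp_apply, LinearMap.proj_apply]
        at h4
      have h5 : 0 ≤ pt t z i := h0 _
      linarith
    obtain ⟨m, hm⟩ := (htst0 ((pb - pt t) z)).1 fun i => by
      have h4 := h2 (Sum.inr (Sum.inl (t, i)))
      have h5 := h2 (Sum.inr (Sum.inr (Sum.inl (t, i))))
      simp only [φ, LinearMap.neg_apply, LinearMap.comp_apply] at h4 h5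
      linarith
    have hm' : pb z = pt t z + chr u m := by
      rw [← hm, LinearMap.sub_apply]
      abel
    have h6 : xt t z = pc z + cc u h m := by
      rw [hxt, cc]
      congr 1
      refine Finset.sum_congr rfl fun i _ => ?_
      rw [hm', Pi.add_apply, add_sub_cancel_left]
    refine ⟨h3, ?_, ?_⟩
    · rw [hout, rep_eq]
      exact ⟨m, hm', h6⟩
    · rw [h6]
      refine B.nef_of _ ?_ m fun g => ?_
      · refine nef_cone D hF ?_
        rw [hpc, mem_cone_sub]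
        exact ⟨fun b => z (Sum.inr (Sum.inl b)), fun b => h0 _, rfl⟩
      · rw [← h6]
        exact h2 (Sum.inr (Sum.inr (Sum.inr (t, g))))
  refine ⟨S₁.image out, fun b hb => ?_, fun p => ?_⟩
  · obtain ⟨z, hz, rfl⟩ := Finset.mem_image.1 hb
    obtain ⟨h1, h2⟩ := hsol z (mem_cone_self hz)
    obtain ⟨w, rfl⟩ := hS₁ z hz
    refine ⟨⟨⟨fun i => w (Sum.inl i), ?_⟩, ?_⟩, fun t ht => ?_⟩
    · rw [hout, Prod.fst_add, dv_fst, lft_fst, add_zero]
      rfl
    · rw [hout, Prod.snd_add, dv_snd, lft_snd]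
      refine L.add_mem (L.sum_mem fun i _ => ?_) (hLint w)
      rw [hpb, Int.cast_smul_eq_zsmul]
      exact L.zsmul_mem (B.h_mem i) _
    · exact ⟨_, fun i => h2 _, (h1 ⟨t, ht⟩).1, _, (h1 ⟨t, ht⟩).2.2, (h1 ⟨t, ht⟩).2.1⟩
  · rw [mem_cone_image]
    constructor
    · rintro ⟨z, hz, rfl⟩
      obtain ⟨h1, h2⟩ := hsol z hz
      refine ⟨fun t ht => ⟨_, fun i => h2 _, (h1 ⟨t, ht⟩).1, _, (h1 ⟨t, ht⟩).2.2,
        (h1 ⟨t, ht⟩).2.1⟩, pb z, fun i => h2 _, pc z, ?_, rfl⟩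
      rw [hpc, mem_cone_sub]
      exact ⟨fun b => z (Sum.inr (Sum.inl b)), fun b => h2 _, rfl⟩
    · rintro ⟨h1, β, hβ, x, hx, rfl⟩
      obtain ⟨c, hc, rfl⟩ := mem_cone_sub.1 hx
      choose b hb0 hb1 xx hxx hbx using fun t : {t // t ∈ T} => h1 t.1 t.2
      let z : K → ℝ := Sum.elim β (Sum.elim c fun s => b s.1 s.2)
      have e1 : pb z = β := rfl
      have e2 : pc z = ∑ b : {x // x ∈ F}, c b • b.1 := hpc z
      have e3 : ∀ t, pt t z = b t := fun t => rfl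
      refine ⟨z, (hS₂ z).2 ⟨?_, ?_⟩, by rw [hout, e1, e2]⟩
      · rintro (i | b | ⟨t, i⟩)
        · exact hβ i
        · exact hc b
        · exact hb0 t i
      · intro ψ hψ
        obtain ⟨s, -, rfl⟩ := Finset.mem_image.1 hψ
        have e4 : ∀ t, ∃ m, (pb - pt t) z = chr u m ∧ xt t z = xx t := fun t => by
          obtain ⟨m, hm1, hm2⟩ := rep_eq.1 (hbx t)
          refine ⟨m, ?_, ?_⟩
          · rw [LinearMap.sub_apply, e1, e3, hm1]
            abel
          · rw [hxt, e2, hm2, cc]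
            congr 1
            refine Finset.sum_congr rfl fun i _ => ?_
            rw [e1, e3, hm1, Pi.add_apply, add_sub_cancel_left]
        rcases s with ⟨t, i⟩ | ⟨t, i⟩ | ⟨t, i⟩ | ⟨t, g⟩
        · simp only [φ]
          split_ifs with hi
          · rw [LinearMap.neg_apply, LinearMap.comp_apply, LinearMap.proj_apply, e3, hb1 t i hi]
            simp
          · simp
        · simp only [φ, LinearMap.comp_apply]
          obtain ⟨m, hm, -⟩ := e4 t
          rw [(htst0 _).2 ⟨m, hm⟩ i]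
        · simp only [φ, LinearMap.neg_apply, LinearMap.comp_apply]
          obtain ⟨m, hm, -⟩ := e4 t
          rw [(htst0 _).2 ⟨m, hm⟩ i]
          simp
        · simp only [φ, LinearMap.comp_apply]
          obtain ⟨m, -, hm⟩ := e4 t
          rw [hm]
          exact B.tau_nonneg g _ (hxx t)

end Q47.CY
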