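import Pool.Agent.Q47.CY.Ab
import Pool.Agent.Q43.CC.Main
import Pool.Agent.Q47.MM.Kan
import Pool.Agent.Q47.MM.Latt

/-!
# The base: a quotient of a complex torus over a base
-/

set_option autoImplicit false

namespace Q47.CY

open Finset
open Pool.Agent.W594.SYZ2 Pool.Agent.W594.SYZ2.TQ Pool.Agent.TH735.AQ Pool.Agent.TH128.SYZ
open Pool.Agent.Y167
open Q47.MM (IsRefl IsFixed roots exists_tests Refls nef_of_roots refl_of_mirror)

variable {V E : Type*} [NormedAddCommGroup V] [NormedSpace ℂ V] [FiniteDimensional ℂ V]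
  [NormedAddCommGroup E] [NormedSpace ℂ E] [FiniteDimensional ℂ E] {Γ : Subgroup (V ≃ᵃ[ℂ] V)}
  {j : E →ₗ[ℂ] V} {H₀ : V → V → ℂ} {ι : Type*} [Fintype ι] {n : ℕ}

omit [FiniteDimensional ℂ V] in
theorem mirrorFixed_of_isFixed (hΓ : IsTorusQuotient Γ) {x : V} (hx : IsFixed Γ x) :
    MirrorFixed Γ x := by
  rintro γ hγ hne ⟨ℓ, hℓ, c, hf⟩
  obtain ⟨v1, hv1⟩ : ∃ v1, ℓ v1 ≠ 0 := by
    by_contra h
    push Not at h
    exact hℓ (LinearMap.ext h)
  obtain ⟨a, ha⟩ := refl_of_mirror hΓ hγ hne hℓ (v := (c / ℓ v1) • v1) fun w hw =>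
    hf w (by rw [hw, map_smul, smul_eq_mul, div_mul_cancel₀ _ hv1])
  exact hx _ ⟨γ, hγ, rfl⟩ ⟨ℓ, a, ha⟩

omit [FiniteDimensional ℂ V] in
theorem mirrorFixed_of_smul {x : V} {a : ℝ} (ha : a ≠ 0) (hx : MirrorFixed Γ (a • x)) :
    MirrorFixed Γ x := by
  intro γ hγ hne hm
  have h1 := hx γ hγ hne hm
  rw [← Complex.coe_smul, map_smul, Complex.coe_smul] at h1
  exact smul_right_injective V ha h1

omit [FiniteDimensional ℂ V] [FiniteDimensional ℂ E] in
theorem clsE_apply {L : LineBundle Γ} {H : V → V → ℂ} (hL : IsChernForm L H) (u w : E) :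
    (clsE j hL).1 u w = H (j u) (j w) := rfl

omit [FiniteDimensional ℂ V] [FiniteDimensional ℂ E] in
theorem clsE_mem {L : LineBundle Γ} {H : V → V → ℂ} (hL : IsChernForm L H) :
    clsE j hL ∈ intL Γ j := ⟨L, H, hL, fun _ _ => rfl⟩

omit [FiniteDimensional ℂ E] in
theorem inv_of_span {Λ : AddSubgroup E} {G : Set (Module.End ℂ E)} {x : E → E → ℂ}
    (hx : x ∈ Submodule.span ℝ {z | Pol.IsInt Λ G z}) {g : Module.End ℂ E} (hg : g ∈ G) (u w : E) :
    x (g u) (g w) = x u w := by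
  induction hx using Submodule.span_induction with
  | mem z hz => exact hz.inv g hg u w
  | zero => rfl
  | add z z' _ _ h1 h2 => rw [Pi.add_apply, Pi.add_apply, Pi.add_apply, Pi.add_apply, h1, h2]
  | smul c z _ h1 => rw [Pi.smul_apply, Pi.smul_apply, Pi.smul_apply, Pi.smul_apply, h1]

omit [FiniteDimensional ℂ V] [FiniteDimensional ℂ E] in
theorem coe_sum_N1 (β : ι → ℝ) (h : ι → N1 Γ j) (v w : E) :
    ((∑ i, β i • h i : N1 Γ j)).1 v w = ∑ i, (β i : ℂ) * (h i).1 v w := by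
  rw [Submodule.coe_sum]
  simp only [Finset.sum_apply]
  refine Finset.sum_congr rfl fun i _ => ?_
  change β i • (h i).1 v w = _
  rw [Complex.real_smul]

/-- The assumptions of `Q47.CY.Bs` for torus quotients. -/
theorem exists_Bs (R : Rel Γ j H₀) {u : ι → Fin n → ℤ} {c : ι → LineBundle Γ}
    {Hc : ι → V → V → ℂ} (hc : ∀ i, IsChernForm (c i) (Hc i))
    (hkill : ∀ e, MirrorFixed Γ (j e) → ∀ l, ∑ i, (u i l : ℂ) * Hc i (j e) (j e) = 0) :
    ∃ τ : Refls Γ → N1 Γ j →ₗ[ℝ] ℝ,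
      Bs u (intL Γ j) (nefCone Γ j) (fun i => clsE j (hc i)) τ := by
  classical
  obtain ⟨q, hq1, hq2, hq3, m, hm, hmq⟩ := R.exists_q
  obtain ⟨ug, wg, hug, hwg, ht⟩ := exists_tests R.tq
  have hmr : (0 : ℝ) < m := by exact_mod_cast hm
  have hherm : ∀ x : N1 Γ j, IsHermitian x.1 := fun x => herm_of_span (mem_span_int R x)
  let τ : Refls Γ → N1 Γ j →ₗ[ℝ] ℝ := fun g =>
    { toFun := fun x => (m : ℝ) ^ 2 * (x.1 (q (ug g)) (q (wg g))).im
      map_add' := fun x y => by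
        change (m : ℝ) ^ 2 * (x.1 (q (ug g)) (q (wg g)) + y.1 (q (ug g)) (q (wg g))).im = _
        rw [Complex.add_im]
        ring
      map_smul' := fun t x => by
        change (m : ℝ) ^ 2 * (t • x.1 (q (ug g)) (q (wg g))).im = _
        rw [Complex.smul_im, smul_eq_mul, smul_eq_mul, RingHom.id_apply]
        ring }
  have hτ : ∀ g x, τ g x = (m : ℝ) ^ 2 * (x.1 (q (ug g)) (q (wg g))).im := fun _ _ => rfl
  have hxq : ∀ x : N1 Γ j, IsHermitian fun v w => x.1 (q v) (q w) := fun x => by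
    refine ⟨fun u v w => ?_, fun c v w => ?_, fun v w => (hherm x).symm _ _⟩
    · rw [map_add, (hherm x).add_left]
    · rw [map_smul, (hherm x).smul_left]
  have hτ' : ∀ x : N1 Γ j, (∀ g, 0 ≤ τ g x) ↔ ∀ a ∈ roots Γ, 0 ≤ (x.1 (q a) (q a)).re := by
    intro x
    rw [ht _ (hxq x)]
    simp only [hτ]
    constructor
    · intro h g
      have := h g
      exact nonneg_of_mul_nonneg_right this (by positivity)
    · intro h g
      exact mul_nonneg (by positivity) (h g)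
  refine ⟨τ, fun i => clsE_mem (hc i), fun g x hx => ?_, fun g x hx => ?_, fun x hx mm h => ?_⟩
  · obtain ⟨k, hk⟩ := (isInt_of_integral R hx).int _ (hmq _ (hug g)) _ (hmq _ (hwg g))
    refine ⟨k, ?_⟩
    rw [hτ, ← hk, ← Complex.coe_smul, ← Complex.coe_smul, (hherm x).smul_left,
      h_smul_right (hherm x), Complex.conj_ofReal, Complex.im_ofReal_mul, Complex.im_ofReal_mul]
    ring
  · exact (hτ' x).2 (fun a _ => hx (q a)) g
  · have hz : ∀ e, (x + cc u (fun i => clsE j (hc i)) mm).1 e e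
        = x.1 e e + ∑ i, (chr u mm i : ℂ) * Hc i (j e) (j e) := by
      intro e
      have h1 : (x + cc u (fun i => clsE j (hc i)) mm).1 e e
          = x.1 e e + (cc u (fun i => clsE j (hc i)) mm).1 e e := rfl
      rw [h1, cc, coe_sum_N1]
      rfl
    have hinv : Q47.MM.Inv Γ fun v w =>
        (x + cc u (fun i => clsE j (hc i)) mm).1 (q v) (q w) := by
      refine ⟨hxq _, ?_⟩
      rintro g ⟨γ, hγ, rfl⟩ v w
      obtain ⟨xx, hxx1, hxx2⟩ := R.exists_opE γ hγ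
      change (x + cc u (fun i => clsE j (hc i)) mm).1 (q (γ.linear v)) (q (γ.linear w)) = _
      rw [hq3 γ hγ xx hxx2, hq3 γ hγ xx hxx2]
      exact inv_of_span (mem_span_int R _) hxx1 _ _
    have hn : IsNefForm fun v w => (x + cc u (fun i => clsE j (hc i)) mm).1 (q v) (q w) := by
      refine nef_of_roots R.tq hinv (fun v hv => ?_) ((hτ' _).1 h)
      have hfix : IsFixed Γ (j (q v)) := by
        rintro g ⟨γ, hγ, rfl⟩ hr
        obtain ⟨xx, hxx1, hxx2⟩ := R.exists_opE γ hγ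
        change γ.linear (j (q v)) = j (q v)
        have h3 : γ.linear v = v := hv _ ⟨γ, hγ, rfl⟩ hr
        rw [← hxx2, ← hq3 γ hγ xx hxx2, h3]
      have h2 := hkill (q v) (mirrorFixed_of_isFixed R.tq hfix)
      have h3 : ∑ i, (chr u mm i : ℂ) * Hc i (j (q v)) (j (q v)) = 0 := by
        simp only [chr_apply, Complex.ofReal_sum, Complex.ofReal_mul, Complex.ofReal_intCast,
          Finset.sum_mul]
        rw [Finset.sum_comm]
        refine Finset.sum_eq_zero fun l _ => ?_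
        rw [← mul_zero (mm l : ℂ), ← h2 l, Finset.mul_sum]
        exact Finset.sum_congr rfl fun i _ => by ring
      change 0 ≤ ((x + cc u (fun i => clsE j (hc i)) mm).1 (q v) (q v)).re
      rw [hz, h3, add_zero]
      exact hx (q v)
    intro e
    have h1 := hn (j e)
    simp only [hq2] at h1
    exact h1

/-- The nef cone is given by linear inequalities. -/
theorem nef_tests (R : Rel Γ j H₀) : ∃ ℓ : E → N1 Γ j →ₗ[ℝ] ℝ,
    ∀ x, x ∈ nefCone Γ j ↔ ∀ w, 0 ≤ ℓ w x :=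
  ⟨fun w =>
    { toFun := fun x => (x.1 w w).re
      map_add' := fun x y => by
        change (x.1 w w + y.1 w w).re = _
        rw [Complex.add_re]
      map_smul' := fun t x => by
        change (t • x.1 w w).re = _
        rw [Complex.smul_re]
        rfl }, fun _ => Iff.rfl⟩

/-- The affine transformation `f` with linear part `u` on `E` commutes with `Γ` up to translations
by `N₀` times lattice vectors. -/
structure Good (Γ : Subgroup (V ≃ᵃ[ℂ] V)) (j : E →ₗ[ℂ] V) (N₀ : ℕ) (u : E ≃ₗ[ℂ] E)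
    (f : V ≃ᵃ[ℂ] V) : Prop where
  norm : Normalizes Γ f
  lin : ∀ e, f.linear (j e) = j (u e)
  disp : ∀ v, ∃ e, f v = v + j (u e - e)
  mir : ∀ e, MirrorFixed Γ (j (u e - e))
  comm : ∀ γ ∈ Γ, ∃ μ ∈ lattE Γ j, MirrorFixed Γ (j μ) ∧
    ∀ v, f (γ v) = j ((N₀ : ℝ) • μ) + γ (f v)

theorem exists_good (R : Rel Γ j H₀) {N₀ : ℕ} (hN₀ : 0 < N₀) :
    ∃ m : ℕ, 0 < m ∧ ∀ u, Pol.IsGood (lattE Γ j) (opE Γ j) m u → ∃ f, Good Γ j N₀ u f := by
  obtain ⟨q, hq1, hq2, hq3, m₁, hm₁, hmq⟩ := R.exists_q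
  obtain ⟨t₀, ht₀⟩ := exists_center R.tq
  set n := Nat.card (Lin Γ) with hn
  have hnpos : 0 < n := card_pos R.tq
  have hmr : (((m₁ * n : ℕ) : ℝ)) ≠ 0 := by positivity
  have hNr : (N₀ : ℝ) ≠ 0 := by exact_mod_cast hN₀.ne'
  refine ⟨N₀ * (m₁ * n), Nat.mul_pos hN₀ (Nat.mul_pos hm₁ hnpos), fun u hu => ?_⟩
  let ut : V ≃ₗ[ℂ] V :=
    { toFun := fun v => v + j (u (q v) - q v)
      map_add' := fun v w => by
        simp only [map_add, map_sub]
        abel
      map_smul' := fun c v => by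
        simp only [map_smul, map_sub, RingHom.id_apply, smul_add, smul_sub]
      invFun := fun v => v + j (u.symm (q v) - q v)
      left_inv := fun v => by
        change (v + j (u (q v) - q v)) + j (u.symm (q (v + j (u (q v) - q v)))
          - q (v + j (u (q v) - q v))) = v
        have h1 : q (v + j (u (q v) - q v)) = u (q v) := by
          rw [map_add, hq2]
          abel
        rw [h1, u.symm_apply_apply, add_assoc, ← map_add]
        have h2 : u (q v) - q v + (q v - u (q v)) = 0 := by abel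
        rw [h2, map_zero, add_zero]
      right_inv := fun v => by
        change (v + j (u.symm (q v) - q v)) + j (u (q (v + j (u.symm (q v) - q v)))
          - q (v + j (u.symm (q v) - q v))) = v
        have h1 : q (v + j (u.symm (q v) - q v)) = u.symm (q v) := by
          rw [map_add, hq2]
          abel
        rw [h1, u.apply_symm_apply, add_assoc, ← map_add]
        have h2 : u.symm (q v) - q v + (q v - u.symm (q v)) = 0 := by abel
        rw [h2, map_zero, add_zero] }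
  have hut : ∀ v, ut v = v + j (u (q v) - q v) := fun v => rfl
  let f : V ≃ᵃ[ℂ] V :=
    AffineEquiv.constVAdd ℂ V t₀ * ut.toAffineEquiv * AffineEquiv.constVAdd ℂ V (-t₀)
  have hfv : ∀ v, f v = t₀ + ut (-t₀ + v) := fun v => rfl
  have hflin : ∀ v, f.linear v = ut v := fun v => rfl
  -- commutation
  have hug : ∀ γ ∈ Γ, ∀ v, ut (γ.linear v) = γ.linear (ut v) := by
    intro γ hγ v
    obtain ⟨x, hx1, hx2⟩ := R.exists_opE γ hγ
    rw [hut, hut, hq3 γ hγ x hx2, hu.unit.comm x hx1, map_add, ← map_sub, hx2]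
  have hc : ∀ γ ∈ Γ, ∃ μ ∈ lattE Γ j, MirrorFixed Γ (j μ) ∧
      ut (γ t₀ - t₀) - (γ t₀ - t₀) = j ((N₀ : ℝ) • μ) := by
    intro γ hγ
    have h1 := hmq _ (ht₀ γ hγ)
    have h2 : (m₁ : ℝ) • q ((n : ℝ) • (γ t₀ - t₀)) = ((m₁ * n : ℕ) : ℝ) • q (γ t₀ - t₀) := by
      have h3 : q ((n : ℝ) • (γ t₀ - t₀)) = (n : ℝ) • q (γ t₀ - t₀) := by
        rw [← Complex.coe_smul, map_smul, Complex.coe_smul]
      rw [h3, smul_smul]
      push_cast
      rfl
    rw [h2] at h1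
    obtain ⟨c', hc', h3⟩ := hu.cong _ h1
    have h4 : u (((m₁ * n : ℕ) : ℝ) • q (γ t₀ - t₀)) - ((m₁ * n : ℕ) : ℝ) • q (γ t₀ - t₀)
        = ((m₁ * n : ℕ) : ℝ) • (u (q (γ t₀ - t₀)) - q (γ t₀ - t₀)) := by
      rw [← Complex.coe_smul, map_smul, Complex.coe_smul, smul_sub]
      rfl
    have h5 : u (q (γ t₀ - t₀)) - q (γ t₀ - t₀) = (N₀ : ℝ) • c' := by
      rw [h4] at h3
      apply smul_right_injective E hmr
      change ((m₁ * n : ℕ) : ℝ) • (u (q (γ t₀ - t₀)) - q (γ t₀ - t₀))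
        = ((m₁ * n : ℕ) : ℝ) • ((N₀ : ℝ) • c')
      rw [h3, smul_smul]
      congr 1
      push_cast
      ring
    refine ⟨c', hc', ?_, ?_⟩
    · refine mirrorFixed_of_smul hNr ?_
      have h6 : (N₀ : ℝ) • j c' = j (u (q (γ t₀ - t₀)) - q (γ t₀ - t₀)) := by
        rw [h5, ← Complex.coe_smul, ← Complex.coe_smul, map_smul]
      rw [h6]
      exact mirrorFixed R hu _
    · rw [hut, add_sub_cancel_left, h5]
  have hkey : ∀ γ ∈ Γ, ∃ μ ∈ lattE Γ j, MirrorFixed Γ (j μ) ∧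
      ∀ v, f (γ v) = j ((N₀ : ℝ) • μ) + γ (f v) := by
    intro γ hγ
    obtain ⟨c', hc', hcm, h1⟩ := hc γ hγ
    refine ⟨c', hc', hcm, fun v => ?_⟩
    have h2 : γ v = γ t₀ + γ.linear (-t₀ + v) := by
      have : v = t₀ + (-t₀ + v) := by abel
      conv_lhs => rw [this, act_add]
    have h3 : -t₀ + γ v = (γ t₀ - t₀) + γ.linear (-t₀ + v) := by rw [h2]; abel
    rw [hfv, hfv, h3, map_add, hug γ hγ, act_add]
    have h4 : ut (γ t₀ - t₀) = j ((N₀ : ℝ) • c') + (γ t₀ - t₀) := by rw [← h1]; abel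
    rw [h4]
    abel
  have hNmem : ∀ μ ∈ lattE Γ j, (N₀ : ℝ) • μ ∈ lattE Γ j := fun μ hμ => by
    rw [Nat.cast_smul_eq_nsmul ℝ N₀ μ]
    exact (lattE Γ j).nsmul_mem hμ _
  refine ⟨f, fun γ => ⟨fun hγ => ?_, fun hγ' => ?_⟩, fun e => ?_, fun v => ⟨q (-t₀ + v), ?_⟩,
    mirrorFixed R hu, hkey⟩
  · obtain ⟨c', hc', -, h1⟩ := hkey γ hγ
    have h2 : f * γ * f⁻¹ = AffineEquiv.constVAdd ℂ V (j ((N₀ : ℝ) • c')) * γ := by
      apply AffineEquiv.ext
      intro v
      change f (γ (f.symm v)) = j ((N₀ : ℝ) • c') + γ v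
      rw [h1, f.apply_symm_apply]
    rw [h2]
    exact Γ.mul_mem (hNmem _ hc') hγ
  · obtain ⟨μ, hμ, -, h1⟩ := hkey _ hγ'
    set c' := (N₀ : ℝ) • μ with hc'def
    have hc' : c' ∈ lattE Γ j := hNmem _ hμ
    have h2 : γ = AffineEquiv.constVAdd ℂ V (j (-u.symm c')) * (f * γ * f⁻¹) := by
      apply AffineEquiv.ext
      intro v
      apply f.injective
      change f (γ v) = f (j (-u.symm c') + (f * γ * f⁻¹) v)
      have h3 : f (j (-u.symm c') + (f * γ * f⁻¹) v)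
          = f ((f * γ * f⁻¹) v) + ut (j (-u.symm c')) := by
        rw [add_comm, act_add, hflin]
      have h4 : ut (j (-u.symm c')) = -j c' := by
        rw [hut, hq2, ← map_add]
        have h5 : -u.symm c' + (u (-u.symm c') - -u.symm c') = -c' := by
          rw [map_neg, u.apply_symm_apply]
          abel
        rw [h5, map_neg]
      rw [h3, h4, h1]
      change f (γ v) = j c' + f (γ (f.symm (f v))) + -j c'
      rw [f.symm_apply_apply]
      abel
    rw [h2]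
    refine Γ.mul_mem ?_ hγ'
    have h3 : -u.symm c' ∈ lattE Γ j := (lattE Γ j).neg_mem (hu.unit.symm _ hc')
    exact h3
  · rw [hflin, hut, hq2, map_sub]
    abel
  · rw [hfv, hut]
    abel

/-- The covering of the interior of the nef cone of the base. -/
theorem cover (R : Rel Γ j H₀) {N₀ : ℕ} (hN₀ : 0 < N₀) :
    ∃ (ξ₀ : N1 Γ j →ₗ[ℝ] ℝ) (y₀ : N1 Γ j) (Y : Finset (N1 Γ j)),
      CData (intL Γ j) (nefCone Γ j) ξ₀ y₀ Y ∧ (∀ u w, y₀.1 u w = H₀ (j u) (j w)) ∧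
      ∃ F : Finset (N1 Γ j), (∀ a ∈ F, a ∈ intL Γ j ∧ a ∈ nefCone Γ j) ∧
        ∀ x, (∃ t : ℝ, 0 < t ∧ x - t • y₀ ∈ nefCone Γ j) → ∃ x' ∈ cone F,
          ∃ (u : E ≃ₗ[ℂ] E) (f : V ≃ᵃ[ℂ] V), Good Γ j N₀ u f ∧
            ∀ v w, x'.1 v w = x.1 (u v) (u w) := by
  classical
  obtain ⟨ξ₀, y₀, Y, D, hy₀⟩ := exists_cdata R (intL Γ j) one_pos
    (fun x hx => by rw [Nat.cast_one, one_smul]; exact hx)
    (fun x hx => by rw [Nat.cast_one, one_smul]; exact hx)
  simp only [Nat.cast_one, one_mul] at hy₀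
  refine ⟨ξ₀, y₀, Y, D, hy₀, ?_⟩
  obtain ⟨d, b, P⟩ := R.pol
  obtain ⟨F, hF, hFc⟩ := P.red
  obtain ⟨m₀, hm₀, hauts⟩ := exists_good R hN₀
  obtain ⟨𝓡, h𝓡f, h𝓡U, h𝓡⟩ := P.fin_idx (finite_opE R) (by
    rintro x ⟨γ, hγ, hx⟩ v hv
    change j (x v) ∈ latt Γ
    rw [hx]
    exact latt_inv γ hγ hv) m₀ hm₀
  -- the generators
  have hcl : ∀ z r, z ∈ F → r ∈ 𝓡 → ∃ (a : N1 Γ j) (m : ℕ), 0 < m ∧ Integral a ∧
      a ∈ nefCone Γ j ∧ ∀ u w, a.1 u w = m * z (r u) (r w) := by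
    intro z r hz hr
    obtain ⟨hz1, hz2⟩ := hF z hz
    have hrU := h𝓡U r hr
    have h1 : Pol.IsInt (lattE Γ j) (opE Γ j) (fun u w => z (r u) (r w)) := by
      refine ⟨⟨?_, ?_, ?_⟩, ?_, ?_⟩
      · intro u v w
        rw [map_add, hz1.herm.add_left]
      · intro c v w
        rw [map_smul, hz1.herm.smul_left]
      · intro v w
        exact hz1.herm.symm _ _
      · intro g hg u w
        rw [hrU.comm g hg, hrU.comm g hg, hz1.inv g hg]
      · intro u hu w hw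
        exact hz1.int _ (hrU.map u hu) _ (hrU.map w hw)
    obtain ⟨m, hm, L, H, hL, h2, -⟩ := R.exists_class h1 (fun v => hz2 (r v))
    obtain ⟨a, ha1, ha2⟩ := exists_int (j := j) (L := L) (h := fun u w => H (j u) (j w))
      ⟨H, hL, fun _ _ => rfl⟩
    refine ⟨a, m, hm, ha2, fun u => ?_, fun u w => ?_⟩
    · rw [ha1]
      change 0 ≤ (H (j u) (j u)).re
      rw [h2]
      have e1 : (m : ℂ) = ((m : ℝ) : ℂ) := by push_cast; rfl
      rw [e1, Complex.re_ofReal_mul]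
      exact mul_nonneg (Nat.cast_nonneg _) (hz2 (r u))
    · rw [ha1]
      exact h2 u w
  choose! af mf hmf haf1 haf2 haf3 using hcl
  let F₂ : Finset (N1 Γ j) := (F ×ˢ h𝓡f.toFinset).image fun p => af p.1 p.2
  refine ⟨F₂, fun a ha => ?_, ?_⟩
  · obtain ⟨p, hp, rfl⟩ := Finset.mem_image.1 ha
    rw [Finset.mem_product, h𝓡f.mem_toFinset] at hp
    exact ⟨haf1 _ _ hp.1 hp.2, haf2 _ _ hp.1 hp.2⟩
  rintro x ⟨t, ht, hxt⟩
  obtain ⟨u, hu1, hu2, hu3, c, hc, hx⟩ := hFc x.1 (mem_span_int R x) ⟨t, ht, fun u => by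
    have h1 := hxt u
    change 0 ≤ (x.1 u u - t • y₀.1 u u).re at h1
    rw [Complex.sub_re, Complex.smul_re, hy₀, smul_eq_mul] at h1
    linarith⟩
  obtain ⟨r, hr, u', hu', hur⟩ := h𝓡 u ⟨hu1, hu2, hu3⟩
  obtain ⟨f, hf⟩ := hauts u'.symm hu'.inv
  obtain ⟨g, hg1, -⟩ := exists_pull (j := j) hf.norm hf.lin
  refine ⟨g x, ?_, u'.symm, f, hf, fun v w => hg1 x v w⟩
  have h1 : g x = ∑ z ∈ F, (c z / mf z r) • af z r := by
    apply Subtype.ext
    funext v w
    have h2 : (∑ z ∈ F, (c z / mf z r) • af z r : N1 Γ j).1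
        = ∑ z ∈ F, (c z / mf z r) • (af z r).1 := by
      rw [Submodule.coe_sum]
      rfl
    rw [hg1, hx, h2]
    simp only [Finset.sum_apply, Pi.smul_apply]
    refine Finset.sum_congr rfl fun z hz => ?_
    rw [hur, hur, u'.apply_symm_apply, u'.apply_symm_apply, haf3 z r hz hr, Complex.real_smul]
    have hm : ((mf z r : ℕ) : ℂ) ≠ 0 := by
      have := hmf z r hz hr
      exact_mod_cast this.ne'
    push_cast
    field_simp
  rw [h1]
  refine mem_cone_of_sum F _ _ (fun z hz => ?_) (fun z _ => ?_)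
  · exact Finset.mem_image.2 ⟨(z, r), by
      rw [Finset.mem_product, h𝓡f.mem_toFinset]
      exact ⟨hz, hr⟩, rfl⟩
  · exact div_nonneg (hc z) (by positivity)

end Q47.CY
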