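import Pool.Agent.Q47.CY.MovB
import Pool.Agent.Q47.CY.Br

/-!
# The movable cone conjecture for toric bundles: translation of the statements
-/

set_option autoImplicit false

namespace Q47.CP

open Pool.Agent.W594.SYZ2 Pool.Agent.TH735.AQ Q47.TB MvPolynomial
open Pool.Agent.Y167 (AffGrp cone IsClass Normalizes Rel IsFace)
open Pool.Agent.Y167.CC (LinGrp N1 form nefCone Preserves IsFundDomain)
open Q47.CY (Cl cls Bundle Bdry T1)

variable {V W E : Type*} [NormedAddCommGroup V] [NormedSpace ℂ V] [FiniteDimensional ℂ V]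
  [NormedAddCommGroup W] [NormedSpace ℂ W] [NormedAddCommGroup E] [NormedSpace ℂ E]
  [FiniteDimensional ℂ E] {Γ : AffGrp V} {H₀ : V → V → ℂ}
  {ι : Type*} [Fintype ι] {n r : ℕ} {Y : Bundle Γ ι n} {j : E →ₗ[ℂ] V} {Γ' : AffGrp W}
  {π : V →ₗ[ℂ] W}

theorem movY_eq (R : Rel Γ j H₀) (Δ : Bdry Y r) {v₀ : V} (hklt : Δ.IsKltAt v₀) (hCY : IsCY Δ j) :
    (Q47.CY.NF Y.u (Pool.Agent.Y167.nefCone Γ j) (Y.h j) (T1 Y.S) : Set (NY Y j)) ∩ effY Y j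
      = movY Y j ∩ effY Y j :=
  Q47.CY.mov_eq R Δ hklt (isCY_of hCY)

/-- The movable cone conjecture for toric bundles. -/
theorem main_mov (R : Rel Γ j H₀) (hjr : LinearMap.range j = LinearMap.ker π)
    (Δ : Bdry Y r) {v₀ : V} (hklt : Δ.IsKltAt v₀) (hCY : IsCY Δ j)
    (𝒢 : LinGrp (NY Y j)) (hM : PresLatt (intY Y j) 𝒢)
    (hN : Preserves 𝒢 (movY Y j ∩ effY Y j)) (hfin : 𝒢.relIndex (grp Δ Γ' π j) ≠ 0) :
    ∃ S : Finset (NY Y j), ↑S ⊆ intY Y j ∧ cone S ⊆ movY Y j ∩ effY Y j ∧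
      IsFundDomain 𝒢 (movY Y j ∩ effY Y j) (cone S) := by
  have h1 := movY_eq R Δ hklt hCY
  have hT : T1 Y.S ⊆ Y.S := fun t ht => ht.1
  have hT0 : (T1 Y.S).Nonempty := ⟨∅, Y.fan.empty_mem, Set.subsingleton_empty⟩
  rw [← h1] at hN ⊢
  exact main R hjr Δ hklt hCY hT hT0 rfl 𝒢 hM hN hfin

end Q47.CP
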