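import Pool.Agent.Q47.CY.Rat
import Pool.Agent.Q43.CC.Grp

/-!
# The fundamental domain for toric bundles over an abstract base
-/

set_option autoImplicit false

namespace Q47.CY

open Filter Topology
open Pool.Agent.Y167 (cone zero_mem_cone mem_cone_self cone_add cone_smul cone_sum cone_le
  cone_image cone_ind cone_cut CData Cp cone_of_scaled)
open Pool.Agent.Y167.CC (LinGrp Preserves IsFundDomain)
open Q47.TB Q47.AL

/-- Another lattice. -/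
theorem cdata_scale {W : Type*} [AddCommGroup W] [Module ℝ W] {L M : AddSubgroup W} {Nf : Set W}
    {ξ : W →ₗ[ℝ] ℝ} {y : W} {Y : Finset W} (D : CData L Nf ξ y Y) [DecidableEq W] {k : ℕ}
    (hk : 0 < k)
    (hM1 : ∀ x ∈ L, (k : ℝ) • x ∈ M) (hM2 : ∀ x ∈ M, (k : ℝ) • x ∈ L) :
    CData M Nf ((k : ℝ) • ξ) ((k : ℝ) • y) (Y.image fun a => (k : ℝ) • a) := by
  have hkr : (0 : ℝ) < k := by exact_mod_cast hk
  refine
    { add := D.add
      smul := D.smul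
      xi_int := fun x hx => ?_
      xi_pos := fun x hx h0 => ?_
      fin := fun C => ?_
      y_L := hM1 _ D.y_L
      y_N := D.smul _ hkr.le _ D.y_N
      y_int := fun x => ?_
      dom := fun η => ?_
      sep := fun x hx => ?_
      Y_mem := fun z hz => ?_
      Y_span := fun φ hφ => ?_ }
  · obtain ⟨z, hz⟩ := D.xi_int _ (hM2 x hx)
    exact ⟨z, by rw [LinearMap.smul_apply, ← map_smul, hz]⟩
  · rw [LinearMap.smul_apply, smul_eq_mul]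
    exact mul_pos hkr (D.xi_pos x hx h0)
  · refine Set.Finite.of_finite_image (f := fun x => (k : ℝ) • x) ((D.fin C).subset ?_)
      fun x _ y _ hxy => smul_right_injective W hkr.ne' hxy
    rintro _ ⟨x, ⟨h1, h2, h3⟩, rfl⟩
    refine ⟨hM2 x h1, D.smul _ hkr.le _ h2, ?_⟩
    rw [map_smul]
    exact h3
  · obtain ⟨C, hC, h1⟩ := D.y_int x
    refine ⟨C / k, by positivity, ?_⟩
    rw [smul_smul, div_mul_cancel₀ _ hkr.ne']
    exact h1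
  · obtain ⟨C, hC⟩ := D.dom η
    refine ⟨C / k, fun x hx => ?_⟩
    rw [LinearMap.smul_apply, smul_eq_mul, ← mul_assoc, div_mul_cancel₀ _ hkr.ne']
    exact hC x hx
  · obtain ⟨η, h1, h2⟩ := D.sep x hx
    refine ⟨(k : ℝ) • η, fun z hz => ?_, ?_⟩
    · obtain ⟨a, ha⟩ := h1 _ (hM2 z hz)
      exact ⟨a, by rw [LinearMap.smul_apply, ← map_smul, ha]⟩
    · rw [LinearMap.smul_apply, smul_eq_mul]
      exact mul_ne_zero hkr.ne' h2
  · obtain ⟨a, ha, rfl⟩ := Finset.mem_image.1 hz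
    exact ⟨hM1 _ (D.Y_mem a ha).1, D.smul _ hkr.le _ (D.Y_mem a ha).2⟩
  · refine D.Y_span φ fun z hz => ?_
    have h1 := hφ _ (Finset.mem_image_of_mem _ hz)
    rw [map_smul] at h1
    exact (smul_eq_zero.1 h1).resolve_left hkr.ne'

theorem Cp_scale {W : Type*} [AddCommGroup W] [Module ℝ W] {L M : AddSubgroup W} {Nf : Set W}
    (hsm : ∀ t : ℝ, 0 ≤ t → ∀ x ∈ Nf, t • x ∈ Nf) {k : ℕ} (hk : 0 < k)
    (hM1 : ∀ x ∈ L, (k : ℝ) • x ∈ M) {x : W} (hx : x ∈ Cp L Nf) : x ∈ Cp M Nf := by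
  classical
  have hkr : (0 : ℝ) < k := by exact_mod_cast hk
  obtain ⟨F, hF, h1⟩ := hx
  refine ⟨F.image fun a => (k : ℝ) • a, fun a ha => ?_, ?_⟩
  · obtain ⟨b, hb, rfl⟩ := Finset.mem_image.1 ha
    exact ⟨hM1 _ (hF b hb).1, hsm _ hkr.le _ (hF b hb).2⟩
  · refine cone_le (fun a ha => ?_) h1
    exact cone_of_scaled hkr (Finset.mem_image_of_mem (fun a => (k : ℝ) • a) ha)

variable {ι : Type*} [Fintype ι] {n : ℕ} {N : Type*} [AddCommGroup N] [Module ℝ N]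

instance (u : ι → Fin n → ℤ) : IsTopologicalAddGroup (Cl u) :=
  inferInstanceAs (IsTopologicalAddGroup ((ι → ℝ) ⧸ LinearMap.range (chr u)))

instance (u : ι → Fin n → ℤ) : ContinuousSMul ℝ (Cl u) :=
  inferInstanceAs (ContinuousSMul ℝ ((ι → ℝ) ⧸ LinearMap.range (chr u)))

/-- A translate of the cone does not meet the interior. -/
theorem disj_of_sep {W : Type*} [AddCommGroup W] [Module ℝ W] [TopologicalSpace W]
    [IsTopologicalAddGroup W] [ContinuousSMul ℝ W] {S : Finset W} {g : W ≃ₗ[ℝ] W} {φ : W →ₗ[ℝ] ℝ}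
    (hφ0 : φ ≠ 0) (hφ1 : ∀ x ∈ cone S, 0 ≤ φ x) (hφ2 : ∀ x ∈ cone S, φ (g x) ≤ 0) :
    interior (cone S) ∩ g '' cone S = ∅ := by
  rw [← Set.disjoint_iff_inter_eq_empty, Set.disjoint_left]
  rintro x hx ⟨y, hy, rfl⟩
  have h1 := hφ2 y hy
  obtain ⟨w, hw⟩ : ∃ w, 0 < φ w := by
    by_contra hcon
    push Not at hcon
    apply hφ0
    ext w
    have e1 := hcon w
    have e2 := hcon (-w)
    rw [map_neg] at e2
    change φ w = 0
    linarith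
  have hcont : Continuous fun t : ℝ => g y - t • w := by fun_prop
  have hmem : ∀ᶠ t : ℝ in 𝓝 0, g y - t • w ∈ interior (cone S) := by
    apply hcont.continuousAt.eventually_mem
    rw [zero_smul, sub_zero]
    exact isOpen_interior.mem_nhds hx
  obtain ⟨ε, hε, hball⟩ := Metric.eventually_nhds_iff.1 hmem
  have h2 := interior_subset (hball (y := ε / 2) (by
    rw [Real.dist_eq, sub_zero, abs_of_pos (by linarith)]
    linarith))
  have h3 := hφ1 _ h2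
  rw [map_sub, map_smul, smul_eq_mul] at h3
  have h4 : 0 < ε / 2 * φ w := by positivity
  linarith

/-- **The cone theorem for a toric bundle over an abstract base.** -/
theorem core [TopologicalSpace N] [IsTopologicalAddGroup N] [ContinuousSMul ℝ N]
    {u : ι → Fin n → ℤ} {S : Set (Set ι)} (hS : IsSmoothFan u S) {L : AddSubgroup N}
    {nef : Set N} {h : ι → N} {G : Type*} [Fintype G] {τ : G → N →ₗ[ℝ] ℝ}
    (B : Bs u L nef h τ) {ξ : N →ₗ[ℝ] ℝ} {y : N} {Y : Finset N} (D : CData L nef ξ y Y)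
    {Ω : Type*} {ℓ : Ω → N →ₗ[ℝ] ℝ} (hℓ : ∀ x, x ∈ nef ↔ ∀ w, 0 ≤ ℓ w x)
    {d : ι → ℤ} (hd : IsFibreAmple u S d) {T : Set (Set ι)} (hT : T ⊆ S) (hT0 : T.Nonempty)
    (M : AddSubgroup (Cl u × N)) {k : ℕ} (hk : 0 < k)
    (hM1 : ∀ x ∈ LY u L, (k : ℝ) • x ∈ M) (hM2 : ∀ x ∈ M, (k : ℝ) • x ∈ LY u L)
    (𝒢 𝒜 : LinGrp (Cl u × N)) (h𝒢M : ∀ g ∈ 𝒢, ∀ x ∈ M, g x ∈ M)
    (h𝒢N : Preserves 𝒢 (NF u nef h T ∩ CT u (Cp L nef) h ∅))
    (h𝒜 : ∀ t ∈ 𝒜, (∀ a ∈ LY u L, t a ∈ LY u L) ∧ ∀ a ∈ NF u nef h T, t a ∈ NF u nef h T)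
    (hfin : 𝒢.relIndex 𝒜 ≠ 0) (F : Finset N) (hF : ∀ a ∈ F, a ∈ L ∧ a ∈ nef)
    (hcov : ∀ x, (∃ t : ℝ, 0 < t ∧ x - t • y ∈ nef) → ∃ x' ∈ cone F, ∃ g ∈ 𝒜,
      (∀ β, g (dv u h β) = dv u h β) ∧ g (lft u x) = lft u x') :
    ∃ S' : Finset (Cl u × N), (∀ a ∈ S', a ∈ LY u L) ∧
      cone S' ⊆ NF u nef h T ∩ CT u (Cp L nef) h ∅ ∧
      IsFundDomain 𝒢 (NF u nef h T ∩ CT u (Cp L nef) h ∅) (cone S') := by
  classical
  have hkr : (0 : ℝ) < k := by exact_mod_cast hk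
  obtain ⟨ξ', y', Y', D', hint⟩ := cdataY hS B.h_mem D hd hT hT0
  have D'' := cdata_scale D' hk hM1 hM2
  obtain ⟨S₁, hS₁, hS₂⟩ := key hS B D T F hF
  obtain ⟨Tf, hTf, hT𝒜, hTc⟩ := Q43.CC.exists_transversal 𝒢 𝒜 hfin
  have hinv : ∀ t ∈ 𝒜, (∀ a ∈ LY u L, t.symm a ∈ LY u L) ∧
      ∀ a ∈ NF u nef h T, t.symm a ∈ NF u nef h T := fun t ht => h𝒜 t⁻¹ (𝒜.inv_mem ht)
  obtain ⟨t₀, ht₀⟩ := hT0
  -- the covering
  have hcov₀ : ∀ p, (∃ s : ℝ, 0 < s ∧ p - s • y' ∈ NF u nef h T) →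
      ∃ g ∈ 𝒜, g p ∈ cone S₁ := by
    rintro p ⟨s, hs, hps⟩
    obtain ⟨β, hβ, x, hpx, hx⟩ := hint t₀ ht₀ p s hs hps
    obtain ⟨x', hx', g, hg, hg1, hg2⟩ := hcov x ⟨s, hs, hx⟩
    have hpN : p ∈ NF u nef h T := by
      have h1 := D'.add _ hps _ (D'.smul s hs.le _ D'.y_N)
      rwa [sub_add_cancel] at h1
    refine ⟨g, hg, (hS₂ _).2 ⟨(h𝒜 g hg).2 p hpN, β, hβ, x', hx', ?_⟩⟩
    rw [hpx, map_add, hg1, hg2]
  have hcpl : ∀ p, (∃ s : ℝ, 0 < s ∧ p - s • y' ∈ NF u nef h T) →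
      p ∈ NF u nef h T ∩ CT u (Cp L nef) h ∅ := by
    intro p hp
    obtain ⟨g, hg, hgp⟩ := hcov₀ p hp
    refine (Cp_eq hS B D ⟨t₀, ht₀⟩ p).1 ⟨S₁.image (g.symm : Cl u × N →ₗ[ℝ] Cl u × N), ?_, ?_⟩
    · intro a ha
      obtain ⟨b, hb, rfl⟩ := Finset.mem_image.1 ha
      exact ⟨(hinv g hg).1 _ (hS₁ b hb).1, (hinv g hg).2 _ (hS₁ b hb).2⟩
    · have h1 := cone_image (g.symm : Cl u × N →ₗ[ℝ] Cl u × N) hgp
      have h2 : (g.symm : Cl u × N →ₗ[ℝ] Cl u × N) (g p) = p := g.symm_apply_apply p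
      rwa [h2] at h1
  -- the group preserves the closed cone
  have h𝒢NF : ∀ g ∈ 𝒢, ∀ p ∈ NF u nef h T, g p ∈ NF u nef h T := by
    intro g hg p hp t ht
    refine CT_closed hS hℓ (w := g y') fun ε hε => ?_
    have h1 := (h𝒢N g hg _ (hcpl (p + ε • y') ⟨ε, hε, by rwa [add_sub_cancel_right]⟩)).1 t ht
    rwa [map_add, map_smul] at h1
  let F₃ : Finset (Cl u × N) := hTf.toFinset.biUnion fun t =>
    S₁.image fun a => (k : ℝ) • t.symm a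
  have hF₃ : ∀ a ∈ F₃, a ∈ M ∧ a ∈ NF u nef h T := by
    intro a ha
    obtain ⟨t, ht, ha⟩ := Finset.mem_biUnion.1 ha
    obtain ⟨b, hb, rfl⟩ := Finset.mem_image.1 ha
    have ht' := hT𝒜 (hTf.mem_toFinset.1 ht)
    exact ⟨hM1 _ ((hinv t ht').1 _ (hS₁ b hb).1),
      D'.smul _ hkr.le _ ((hinv t ht').2 _ (hS₁ b hb).2)⟩
  have hcov' : ∀ p, (∃ s : ℝ, 0 < s ∧ p - s • ((k : ℝ) • y') ∈ NF u nef h T) →
      ∃ g ∈ 𝒢, g p ∈ cone F₃ := by
    rintro p ⟨s, hs, hps⟩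
    rw [smul_smul] at hps
    obtain ⟨g, hg, hgp⟩ := hcov₀ p ⟨s * k, by positivity, hps⟩
    obtain ⟨t, ht, b, hb, rfl⟩ := hTc g hg
    refine ⟨b, hb, ?_⟩
    have h1 := cone_image (t.symm : Cl u × N →ₗ[ℝ] Cl u × N) hgp
    have h2 : (t.symm : Cl u × N →ₗ[ℝ] Cl u × N) ((t * b) p) = b p := t.symm_apply_apply (b p)
    rw [h2] at h1
    refine cone_le (fun a ha => ?_) h1
    obtain ⟨c, hc, rfl⟩ := Finset.mem_image.1 ha
    refine cone_of_scaled (k := (k : ℝ)) hkr ?_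
    exact Finset.mem_biUnion.2 ⟨t, hTf.mem_toFinset.2 ht,
      Finset.mem_image_of_mem (fun a => (k : ℝ) • t.symm a) hc⟩
  obtain ⟨S', h1, h2, h3⟩ := D''.domain 𝒢 h𝒢M h𝒢NF F₃ hF₃ hcov'
  have hCp : ∀ p, p ∈ Cp M (NF u nef h T) ↔ p ∈ NF u nef h T ∩ CT u (Cp L nef) h ∅ := by
    intro p
    refine Iff.trans ⟨fun hp => ?_, fun hp => ?_⟩ (Cp_eq hS B D ⟨t₀, ht₀⟩ p)
    · exact Cp_scale D'.smul hk hM2 hp
    · exact Cp_scale D'.smul hk hM1 hp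
  have hcone : cone (S'.image fun a => (k : ℝ) • a) = cone S' := by
    apply Set.ext
    intro x
    constructor
    · refine fun h => cone_le (fun a ha => ?_) h
      obtain ⟨a', ha', rfl⟩ := Finset.mem_image.1 ha
      exact cone_smul (mem_cone_self ha') hkr.le
    · refine fun h => cone_le (fun a ha => ?_) h
      exact cone_of_scaled hkr (Finset.mem_image_of_mem (fun a => (k : ℝ) • a) ha)
  refine ⟨S'.image fun a => (k : ℝ) • a, fun a ha => ?_, ?_, ?_, fun g hg hg1 => ?_⟩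
  · obtain ⟨b, hb, rfl⟩ := Finset.mem_image.1 ha
    exact hM2 _ (h1 b hb).1
  · rw [hcone]
    intro x hx
    rw [← hCp]
    exact ⟨S', h1, hx⟩
  · rw [hcone]
    apply Set.ext
    intro x
    rw [← hCp, h2, Set.mem_iUnion₂]
    constructor
    · rintro ⟨g, hg, hgx⟩
      exact ⟨g⁻¹, 𝒢.inv_mem hg, g x, hgx, g.symm_apply_apply x⟩
    · rintro ⟨g, hg, z, hz, rfl⟩
      refine ⟨g⁻¹, 𝒢.inv_mem hg, ?_⟩
      have : (g⁻¹ : (Cl u × N) ≃ₗ[ℝ] (Cl u × N)) (g z) = z := g.symm_apply_apply z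
      rwa [this]
  · rw [hcone]
    obtain ⟨φ, hφ0, hφ1, hφ2⟩ := h3 g hg hg1
    exact disj_of_sep hφ0 hφ1 hφ2

end Q47.CY
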