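import Pool.Agent.Q47.CY.Ab
import Pool.Agent.Q47.AL.Amp
import Pool.Agent.Q47.TB.Psef

/-!
# The data for the fundamental domain
-/

set_option autoImplicit false

namespace Q47.CY

open Pool.Agent.Y167 (cone zero_mem_cone mem_cone_self cone_add cone_smul cone_sum cone_le
  cone_image cone_ind cone_cut CData Cp)
open Q47.TB Q47.AL

variable {ι : Type*} [Fintype ι] {n : ℕ} {N : Type*} [AddCommGroup N] [Module ℝ N]

/-- A linear form on the divisors which vanishes on the characters. -/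
noncomputable def lin (u : ι → Fin n → ℤ) (f : (ι → ℝ) →ₗ[ℝ] ℝ) (hf : ∀ m, f (chr u m) = 0) :
    Cl u →ₗ[ℝ] ℝ :=
  Submodule.liftQ (LinearMap.range (chr u)) f (by
    rintro _ ⟨m, rfl⟩
    exact hf m)

omit [Fintype ι] in
theorem lin_cls (u : ι → Fin n → ℤ) (f : (ι → ℝ) →ₗ[ℝ] ℝ) (hf : ∀ m, f (chr u m) = 0)
    (δ : ι → ℝ) : lin u f hf (cls u δ) = f δ := rfl

/-- A common multiple. -/
theorem exists_mult {u : ι → Fin n → ℤ} {S : Set (Set ι)} {d : ι → ℤ}
    (hd : IsFibreAmple u S d) : ∃ K : ℕ, 1 ≤ K ∧ ∀ σ ∈ S, ∃ β : ι → ℕ, (∀ i, β i = 0 ↔ i ∈ σ) ∧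
      ∃ m : Fin n → ℤ, ∀ i, (β i : ℤ) = K * d i + ∑ k, m k * u i k := by
  classical
  have : Finite {t // t ∈ S} := inferInstance
  let _ : Fintype {t // t ∈ S} := Fintype.ofFinite _
  choose K β hK hβ m hm using fun t : {t // t ∈ S} => hd t.1 t.2
  refine ⟨∏ t, K t, Nat.succ_le_of_lt (Finset.prod_pos fun t _ => hK t), fun σ hσ => ?_⟩
  set t : {t // t ∈ S} := ⟨σ, hσ⟩ with ht
  set P := ∏ s ∈ Finset.univ.erase t, K s with hP
  have h1 : ∏ t, K t = P * K t := by
    rw [hP, Finset.prod_erase_mul _ _ (Finset.mem_univ t)]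
  have hP0 : P ≠ 0 := (Finset.prod_pos fun s _ => hK s).ne'
  refine ⟨fun i => P * β t i, fun i => ?_, fun k => P * m t k, fun i => ?_⟩
  · rw [← hβ t i, mul_eq_zero]
    constructor
    · rintro (h | h)
      · exact absurd h hP0
      · exact h
    · exact Or.inr
  · have h2 := hm t i
    simp only at h2
    rw [h1]
    push_cast
    rw [h2, mul_add, Finset.mul_sum]
    congr 1
    · ring
    · exact Finset.sum_congr rfl fun k _ => by ring

/-- The spanning set of the base spans the base. -/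
theorem span_Y {L : AddSubgroup N} {nef : Set N} {ξ : N →ₗ[ℝ] ℝ} {y : N} {Y : Finset N}
    (D : CData L nef ξ y Y) : Submodule.span ℝ (Y : Set N) = ⊤ := by
  by_contra hc
  obtain ⟨f, hf, hle⟩ := Submodule.exists_le_ker_of_lt_top _ (lt_top_iff_ne_top.2 hc)
  obtain ⟨w, hw⟩ : ∃ w, f w ≠ 0 := by
    by_contra h
    push Not at h
    exact hf (LinearMap.ext h)
  have h1 := D.Y_span (f.smulRight w) fun y hy => by
    have : f y = 0 := hle (Submodule.subset_span hy)
    rw [LinearMap.smulRight_apply, this, zero_smul]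
  have h2 := congrArg (fun g => g w) h1
  simp only [LinearMap.smulRight_apply, LinearMap.zero_apply] at h2
  rcases smul_eq_zero.1 h2 with h3 | h3
  · exact hw h3
  · rw [h3, map_zero] at hw
    exact hw rfl

theorem y_mono {L : AddSubgroup N} {nef : Set N} {ξ : N →ₗ[ℝ] ℝ} {y : N} {Y : Finset N}
    (D : CData L nef ξ y Y) {x : N} {C C' : ℝ} (h : C • y - x ∈ nef) (hC : C ≤ C') :
    C' • y - x ∈ nef := by
  have h1 := D.add _ h _ (D.smul (C' - C) (sub_nonneg.2 hC) _ D.y_N)
  have h2 : C • y - x + (C' - C) • y = C' • y - x := by module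
  rwa [h2] at h1

theorem cdataY {u : ι → Fin n → ℤ} {S : Set (Set ι)} (hS : IsSmoothFan u S) {L : AddSubgroup N}
    {nef : Set N} {h : ι → N} (hh : ∀ i, h i ∈ L) {ξ : N →ₗ[ℝ] ℝ} {y : N} {Y : Finset N}
    (D : CData L nef ξ y Y) {d : ι → ℤ} (hd : IsFibreAmple u S d) {T : Set (Set ι)} (hT : T ⊆ S)
    (hT0 : T.Nonempty) :
    ∃ (ξ' : Cl u × N →ₗ[ℝ] ℝ) (y' : Cl u × N) (Y' : Finset (Cl u × N)),
      CData (LY u L) (NF u nef h T) ξ' y' Y' ∧
      (∀ t ∈ T, ∀ p, ∀ s : ℝ, 0 < s → p - s • y' ∈ NF u nef h T →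
        ∃ β : ι → ℝ, (∀ i, 0 ≤ β i) ∧ ∃ x, p = dv u h β + lft u x ∧ x - s • y ∈ nef) := by
  classical
  obtain ⟨K, hK, hKd⟩ := exists_mult hd
  have hTfin : Finite {t // t ∈ T} := inferInstance
  let _ : Fintype {t // t ∈ T} := Fintype.ofFinite _
  choose b hb0 m hm using fun t : {t // t ∈ T} => hKd t.1 (hT t.2)
  obtain ⟨e, he1, he2⟩ := Q47.TB.relation hS
  obtain ⟨a, ha1, ha2⟩ := exists_tst hS
  -- the interior point
  choose C₁ hC₁ hC₁' using fun t => D.y_int (∑ i, (b t i : ℝ) • h i + y)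
  let B₀ : ℕ := ⌈∑ t, C₁ t⌉₊
  have hB₀ : ∀ t, C₁ t ≤ B₀ := fun t =>
    (Finset.single_le_sum (f := C₁) (fun s _ => (hC₁ s).le) (Finset.mem_univ t)).trans
      (Nat.le_ceil _)
  let x₀ : N := (B₀ : ℝ) • y
  have hx₀ : ∀ t, x₀ - ∑ i, (b t i : ℝ) • h i - y ∈ nef := fun t => by
    have h1 := y_mono D (hC₁' t) (hB₀ t)
    have h2 : (B₀ : ℝ) • y - (∑ i, (b t i : ℝ) • h i + y) = x₀ - ∑ i, (b t i : ℝ) • h i - y := by
      simp only [x₀]
      abel
    rwa [h2] at h1
  let y' : Cl u × N := (cls u fun i => ((K * d i : ℤ) : ℝ), x₀)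
  have hy' : ∀ t, y' = dv u h (fun i => (b t i : ℝ)) + lft u (x₀ - ∑ i, (b t i : ℝ) • h i) := by
    intro t
    rw [Prod.ext_iff]
    simp only [Prod.fst_add, Prod.snd_add, dv_fst, dv_snd, lft_fst, lft_snd, add_zero, y']
    refine ⟨?_, by abel⟩
    rw [cls_eq]
    refine ⟨fun k => -(m t k : ℝ), ?_⟩
    ext i
    have h1 := hm t i
    have h2 : ((b t i : ℕ) : ℝ) = K * d i + ∑ k, (m t k : ℝ) * u i k := by exact_mod_cast h1
    rw [Pi.add_apply, h2, chr_apply]
    push_cast
    simp [Finset.sum_neg_distrib]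
  have hbb : ∀ t i, i ∉ t.1 → (1 : ℝ) ≤ b t i := fun t i hi => by
    have : b t i ≠ 0 := fun h => hi ((hb0 t i).1 h)
    exact_mod_cast Nat.one_le_iff_ne_zero.2 this
  have hb1 : ∀ t i, i ∈ t.1 → (b t i : ℝ) = 0 := fun t i hi => by
    exact_mod_cast (hb0 t i).2 hi
  have hxx : ∀ t, x₀ - ∑ i, (b t i : ℝ) • h i ∈ nef := fun t => by
    have h1 := D.add _ (hx₀ t) _ D.y_N
    rwa [sub_add_cancel] at h1
  have hnef0 : (0 : N) ∈ nef := by
    have h0 := D.smul 0 le_rfl _ D.y_N
    rwa [zero_smul] at h0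
  have hadd : ∀ p ∈ NF u nef h T, ∀ q ∈ NF u nef h T, p + q ∈ NF u nef h T := by
    intro p hp q hq t ht
    obtain ⟨β, h1, h2, x, h3, rfl⟩ := hp t ht
    obtain ⟨β', h1', h2', x', h3', rfl⟩ := hq t ht
    refine ⟨β + β', fun i => add_nonneg (h1 i) (h1' i), fun i hi => by
      rw [Pi.add_apply, h2 i hi, h2' i hi, add_zero], x + x', D.add _ h3 _ h3', ?_⟩
    rw [map_add, map_add]
    abel
  have hsmul : ∀ t : ℝ, 0 ≤ t → ∀ p ∈ NF u nef h T, t • p ∈ NF u nef h T := by
    intro s hs p hp t ht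
    obtain ⟨β, h1, h2, x, h3, rfl⟩ := hp t ht
    refine ⟨s • β, fun i => mul_nonneg hs (h1 i), fun i hi => by
      rw [Pi.smul_apply, h2 i hi, smul_zero], s • x, D.smul _ hs _ h3, ?_⟩
    rw [map_smul, map_smul, smul_add]
  -- the linear form
  let A : ℕ := ⌈1 + ∑ i, |ξ (h i)|⌉₊
  have hA : ∀ i, 1 ≤ (A : ℝ) * e i + ξ (h i) := fun i => by
    have h1 : 1 + |ξ (h i)| ≤ A := by
      refine le_trans ?_ (Nat.le_ceil _)
      have := Finset.single_le_sum (f := fun i => |ξ (h i)|) (fun i _ => abs_nonneg _)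
        (Finset.mem_univ i)
      linarith
    have h2 : (1 : ℝ) ≤ e i := by exact_mod_cast he1 i
    have h3 : (A : ℝ) ≤ A * e i := le_mul_of_one_le_right (Nat.cast_nonneg _) h2
    have h4 := neg_abs_le (ξ (h i))
    linarith
  let fe : (ι → ℝ) →ₗ[ℝ] ℝ := ∑ i, (e i : ℝ) • LinearMap.proj i
  have hfe : ∀ v, fe v = ∑ i, (e i : ℝ) * v i := fun v => by simp [fe]
  have hfe0 : ∀ m, fe (chr u m) = 0 := fun m => by
    rw [hfe]
    simp only [chr_apply, Finset.mul_sum]
    rw [Finset.sum_comm]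
    refine Finset.sum_eq_zero fun k _ => ?_
    have h1 : ∑ i, (e i : ℝ) * (u i k : ℝ) = 0 := by exact_mod_cast he2 k
    have h2 : ∀ i, (e i : ℝ) * (m k * u i k) = m k * ((e i : ℝ) * u i k) := fun i => by ring
    simp only [h2]
    rw [← Finset.mul_sum, h1, mul_zero]
  let ξ' : Cl u × N →ₗ[ℝ] ℝ := (A : ℝ) • (lin u fe hfe0 ∘ₗ LinearMap.fst ℝ (Cl u) N) +
    ξ ∘ₗ LinearMap.snd ℝ (Cl u) N
  have hξ' : ∀ p, ξ' p = A * lin u fe hfe0 p.1 + ξ p.2 := fun p => rfl
  have hξr : ∀ β x, ξ' (dv u h β + lft u x) = ∑ i, (A * e i + ξ (h i)) * β i + ξ x := by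
    intro β x
    rw [hξ', Prod.fst_add, Prod.snd_add, dv_fst, dv_snd, lft_fst, lft_snd, add_zero, lin_cls, hfe,
      map_add, map_sum, Finset.mul_sum, ← add_assoc, ← Finset.sum_add_distrib]
    congr 1
    refine Finset.sum_congr rfl fun i _ => ?_
    rw [map_smul, smul_eq_mul]
    ring
  have hlow : ∀ β x, (∀ i, 0 ≤ β i) → ∑ i, β i + ξ x ≤ ξ' (dv u h β + lft u x) := by
    intro β x hβ
    rw [hξr]
    refine add_le_add (Finset.sum_le_sum fun i _ => ?_) le_rfl
    exact le_mul_of_one_le_left (hβ i) (hA i)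
  have hξnn : ∀ x ∈ nef, 0 ≤ ξ x := fun x hx => D.xi_nonneg hx
  obtain ⟨t₀, ht₀⟩ := hT0
  -- bounds for the classes `h i`
  choose C₂ hC₂ hC₂' using fun i => D.y_int (-h i)
  let Ch : ℕ := ⌈∑ i, C₂ i⌉₊
  have hCh : ∀ i, (Ch : ℝ) • y + h i ∈ nef := fun i => by
    have h1 := y_mono D (hC₂' i) ((Finset.single_le_sum (f := C₂) (fun s _ => (hC₂ s).le)
      (Finset.mem_univ i)).trans (Nat.le_ceil _))
    rwa [sub_neg_eq_add] at h1
  -- the tests
  let tst : ι → (ι → ℝ) →ₗ[ℝ] ℝ := fun i => LinearMap.proj i -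
    ∑ k, (u i k : ℝ) • ∑ i', (a k i' : ℝ) • LinearMap.proj i'
  have htst : ∀ i v, tst i v = v i - chr u (fun k => ∑ i, (a k i : ℝ) * v i) i := fun i v => by
    simp only [tst, LinearMap.sub_apply, LinearMap.sum_apply, LinearMap.smul_apply,
      LinearMap.proj_apply, smul_eq_mul, chr_apply]
    congr 1
    exact Finset.sum_congr rfl fun k _ => mul_comm _ _
  have htst0 : ∀ v, (∀ i, tst i v = 0) ↔ ∃ m, v = chr u m := fun v => by
    rw [← ha2]
    simp only [htst, sub_eq_zero]
  have htst1 : ∀ i m, tst i (chr u m) = 0 := fun i m => (htst0 _).2 ⟨m, rfl⟩ i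
  have htsti : ∀ i (z : ι → ℤ), ∃ k : ℤ, tst i (fun i => (z i : ℝ)) = k := fun i z => by
    refine ⟨z i - ∑ k, (∑ i', (a k i' : ℤ) * z i') * u i k, ?_⟩
    rw [htst, chr_apply]
    push_cast
    rfl
  -- the interior
  have hint : ∀ x : Cl u × N, ∃ C : ℝ, 0 < C ∧ C • y' - x ∈ NF u nef h T := by
    intro p
    obtain ⟨δ, x, rfl⟩ := exists_rep u h p
    choose mt hmt using fun t : {t // t ∈ T} => exists_vanish hS (hT t.2) δ
    have h1 : ∀ t, dv u h δ + lft u x = dv u h (δ + chr u (mt t)) + lft u (x - cc u h (mt t)) := by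
      intro t
      rw [rep_eq]
      refine ⟨-mt t, ?_, ?_⟩
      · rw [map_neg]; abel
      · rw [cc, cc, map_neg]
        simp [Finset.sum_neg_distrib, sub_eq_add_neg]
    choose C₃ hC₃ hC₃' using fun t => D.y_int (x - cc u h (mt t))
    have hsum1 : ∀ t, C₃ t ≤ ∑ t, C₃ t := fun t =>
      Finset.single_le_sum (f := C₃) (fun s _ => (hC₃ s).le) (Finset.mem_univ t)
    let Cd : ℝ := ∑ t, ∑ i, |(δ + chr u (mt t)) i|
    have hCd : ∀ t i, (δ + chr u (mt t)) i ≤ Cd := fun t i => by
      refine (le_abs_self _).trans ?_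
      refine (Finset.single_le_sum (f := fun i => |(δ + chr u (mt t)) i|)
        (fun i _ => abs_nonneg _) (Finset.mem_univ i)).trans ?_
      exact Finset.single_le_sum (f := fun t => ∑ i, |(δ + chr u (mt t)) i|)
        (fun t _ => Finset.sum_nonneg fun i _ => abs_nonneg _) (Finset.mem_univ t)
    have hCd0 : 0 ≤ Cd := Finset.sum_nonneg fun t _ => Finset.sum_nonneg fun i _ => abs_nonneg _
    have hC3 : 0 ≤ ∑ t, C₃ t := Finset.sum_nonneg fun t _ => (hC₃ t).le
    refine ⟨∑ t, C₃ t + Cd + 1, by linarith, fun t ht => ?_⟩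
    set C := ∑ t, C₃ t + Cd + 1 with hCdef
    let tt : {t // t ∈ T} := ⟨t, ht⟩
    refine ⟨C • (fun i => (b tt i : ℝ)) - (δ + chr u (mt tt)), fun i => ?_, fun i hi => ?_,
      C • (x₀ - ∑ i, (b tt i : ℝ) • h i) - (x - cc u h (mt tt)), ?_, ?_⟩
    · by_cases hi : i ∈ t
      · have h2 := hmt tt i hi
        rw [Pi.sub_apply, Pi.smul_apply, hb1 tt i hi, Pi.add_apply, h2]
        simp
      · have h2 := hbb tt i hi
        have h3 := hCd tt i
        rw [Pi.sub_apply, Pi.smul_apply, smul_eq_mul, sub_nonneg]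
        calc (δ + chr u (mt tt)) i ≤ Cd := h3
          _ ≤ C := by linarith
          _ ≤ C * b tt i := le_mul_of_one_le_right (by linarith) h2
    · have h2 := hmt tt i hi
      rw [Pi.sub_apply, Pi.smul_apply, hb1 tt i hi, Pi.add_apply, h2]
      simp
    · have h2 := y_mono D (hC₃' tt) (C' := C) (by linarith [hsum1 tt])
      have h3 := D.add _ (D.smul C (by linarith) _ (hx₀ tt)) _ h2
      have h4 : C • (x₀ - ∑ i, (b tt i : ℝ) • h i - y) + (C • y - (x - cc u h (mt tt)))
          = C • (x₀ - ∑ i, (b tt i : ℝ) • h i) - (x - cc u h (mt tt)) := by module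
      rwa [h4] at h3
    · have e1 : dv u h (C • (fun i => (b tt i : ℝ)) - (δ + chr u (mt tt)))
          = C • dv u h (fun i => (b tt i : ℝ)) - dv u h (δ + chr u (mt tt)) := by
        rw [(dv u h).map_sub, (dv u h).map_smul]
      have e2 : lft u (C • (x₀ - ∑ i, (b tt i : ℝ) • h i) - (x - cc u h (mt tt)))
          = C • lft u (x₀ - ∑ i, (b tt i : ℝ) • h i) - lft u (x - cc u h (mt tt)) := by
        rw [(lft (N := N) u).map_sub, (lft (N := N) u).map_smul]
      rw [e1, e2, hy' tt, h1 tt]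
      module
  -- the spanning set
  let Gn : Finset (Cl u × N) := Finset.univ.image (fun i : ι => dv u h (Pi.single i 1)) ∪
    Y.image (lft u)
  have hdvi : ∀ i : ι, dv u h (Pi.single i 1) ∈ LY u L := fun i => by
    refine ⟨⟨Pi.single i 1, ?_⟩, ?_⟩
    · rw [dv_fst]
      congr 1
      ext k
      by_cases hk : k = i
      · subst hk; simp
      · simp [hk]
    · rw [dv_snd]
      have : ∑ k, (Pi.single i (1 : ℝ) : ι → ℝ) k • h k = h i := by
        rw [Finset.sum_eq_single i]
        · simp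
        · intro k _ hk
          simp [hk]
        · simp
      rw [this]
      exact hh i
  have hGnL : ∀ g ∈ Gn, g ∈ LY u L := by
    intro g hg
    rcases Finset.mem_union.1 hg with h1 | h1
    · obtain ⟨i, -, rfl⟩ := Finset.mem_image.1 h1
      exact hdvi i
    · obtain ⟨z, hz, rfl⟩ := Finset.mem_image.1 h1
      exact ⟨⟨0, by
        have : (fun i => (((0 : ι → ℤ) i : ℤ) : ℝ)) = 0 := by ext i; simp
        rw [this]; rfl⟩, (D.Y_mem z hz).1⟩
  choose C₄ hC₄ hC₄' using hint
  have hyL : y' ∈ LY u L := by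
    refine ⟨⟨fun i => K * d i, rfl⟩, ?_⟩
    have : x₀ = (B₀ : ℕ) • y := Nat.cast_smul_eq_nsmul ℝ B₀ y
    change x₀ ∈ L
    rw [this]
    exact L.nsmul_mem D.y_L _
  have hyN : y' ∈ NF u nef h T := fun t ht =>
    ⟨fun i => (b ⟨t, ht⟩ i : ℝ), fun i => Nat.cast_nonneg _, fun i hi => hb1 ⟨t, ht⟩ i hi, _,
      hxx ⟨t, ht⟩, hy' ⟨t, ht⟩⟩
  let Y' : Finset (Cl u × N) := insert y' (Gn.image fun g => (⌈C₄ g⌉₊ : ℝ) • y' - g)
  refine ⟨ξ', y', Y', ?_, ?_⟩
  · refine
      { add := hadd
        smul := hsmul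
        xi_int := ?_
        xi_pos := ?_
        fin := ?_
        y_L := hyL
        y_N := hyN
        y_int := fun x => ⟨C₄ x, hC₄ x, hC₄' x⟩
        dom := ?_
        sep := ?_
        Y_mem := ?_
        Y_span := ?_ }
    · rintro p ⟨⟨z, hz⟩, hp⟩
      obtain ⟨k, hk⟩ := D.xi_int _ hp
      refine ⟨A * ∑ i, (e i : ℤ) * z i + k, ?_⟩
      rw [hξ', hz, lin_cls, hfe, hk]
      push_cast
      rfl
    · intro p hp hp0
      obtain ⟨β, h1, -, x, h3, rfl⟩ := hp t₀ ht₀
      have h4 := hlow β x h1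
      have h5 : 0 ≤ ∑ i, β i := Finset.sum_nonneg fun i _ => h1 i
      have h6 := hξnn x h3
      by_contra hc
      have h7 : ∑ i, β i = 0 := by linarith
      have h8 : ξ x = 0 := by linarith
      have h9 : β = 0 := by
        ext i
        exact (Finset.sum_eq_zero_iff_of_nonneg fun i _ => h1 i).1 h7 i (Finset.mem_univ i)
      have h10 : x = 0 := by
        by_contra hx
        exact (D.xi_pos x h3 hx).ne' h8
      apply hp0
      rw [h9, h10, map_zero, map_zero, add_zero]
    · intro C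
      -- the two components are in finite sets
      let M : ℝ := ∑ i, ∑ k, |tst i (Pi.single k 1)|
      have hM : ∀ i (β : ι → ℝ), (∀ k, 0 ≤ β k) → |tst i β| ≤ M * ∑ k, β k := by
        intro i β hβ
        have e1 : β = ∑ k, β k • (Pi.single k 1 : ι → ℝ) := by
          ext l
          simp [Finset.sum_apply, Pi.single_apply]
        have e2 : tst i β = ∑ k, β k * tst i (Pi.single k 1) := by
          conv_lhs => rw [e1]
          rw [map_sum]
          exact Finset.sum_congr rfl fun k _ => by rw [map_smul, smul_eq_mul]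
        rw [e2, Finset.mul_sum]
        refine (Finset.abs_sum_le_sum_abs _ _).trans (Finset.sum_le_sum fun k _ => ?_)
        rw [abs_mul, abs_of_nonneg (hβ k), mul_comm]
        refine mul_le_mul_of_nonneg_right ?_ (hβ k)
        refine (Finset.single_le_sum (f := fun k => |tst i (Pi.single k 1)|)
          (fun k _ => abs_nonneg _) (Finset.mem_univ k)).trans ?_
        exact Finset.single_le_sum (f := fun i => ∑ k, |tst i (Pi.single k 1)|)
          (fun i _ => Finset.sum_nonneg fun k _ => abs_nonneg _) (Finset.mem_univ i)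
      have hM0 : 0 ≤ M := Finset.sum_nonneg fun i _ => Finset.sum_nonneg fun k _ => abs_nonneg _
      let R : ℤ := ⌈M * |C|⌉
      let K' : ℕ := Ch * ⌈|C|⌉₊
      have hfin1 : (Set.Icc (fun _ : ι => -R) fun _ => R).Finite := Set.finite_Icc _ _
      have hfin2 := D.fin (C + K' * ξ y)
      let g : (ι → ℤ) × N → Cl u × N := fun q => (cls u fun i => (q.1 i : ℝ), q.2 - (K' : ℝ) • y)
      -- the classes are determined by the tests
      have hdet : ∀ δ : ι → ℝ, cls u (fun i => tst i δ) = cls u δ := fun δ => by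
        rw [cls_eq]
        refine ⟨-fun k => ∑ i, (a k i : ℝ) * δ i, ?_⟩
        ext i
        rw [htst, map_neg]
        rfl
      refine ((hfin1.prod hfin2).image g).subset ?_
      rintro p ⟨⟨⟨z, hz⟩, hpL⟩, hpN, hpC⟩
      obtain ⟨β, h1, -, x, h3, hpx⟩ := hpN t₀ ht₀
      have h4 := hlow β x h1
      rw [← hpx] at h4
      have h5 := hξnn x h3
      have h6 : ∑ i, β i ≤ |C| := by
        have := le_abs_self C
        linarith
      have h7 : cls u β = cls u fun i => (z i : ℝ) := by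
        rw [← hz, hpx, Prod.fst_add, dv_fst, lft_fst, add_zero]
      choose w hw using fun i => htsti i z
      have h8 : ∀ i, tst i β = w i := fun i => by
        obtain ⟨m', hm'⟩ := cls_eq.1 h7
        rw [hm', map_add, htst1, add_zero, hw]
      refine ⟨(w, p.2 + (K' : ℝ) • y), ⟨?_, ?_⟩, ?_⟩
      · have h9 : ∀ i, |(w i : ℝ)| ≤ R := fun i => by
          rw [← h8]
          refine (hM i β h1).trans (le_trans ?_ (Int.le_ceil _))
          exact mul_le_mul_of_nonneg_left h6 hM0
        refine ⟨fun i => ?_, fun i => ?_⟩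
        · have := (abs_le.1 (h9 i)).1
          exact_mod_cast this
        · have := (abs_le.1 (h9 i)).2
          exact_mod_cast this
      · refine ⟨L.add_mem hpL ?_, ?_, ?_⟩
        · have : (K' : ℝ) • y = (K' : ℕ) • y := Nat.cast_smul_eq_nsmul ℝ K' y
          rw [this]
          exact L.nsmul_mem D.y_L _
        · -- nefness
          have e1 : p.2 = x + ∑ i, β i • h i := by
            rw [hpx, Prod.snd_add, dv_snd, lft_snd]
            abel
          have e2 : p.2 + (K' : ℝ) • y = x + (∑ i, β i • ((Ch : ℝ) • y + h i) +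
              ((K' : ℝ) - Ch * ∑ i, β i) • y) := by
            rw [e1]
            have e3 : ∑ i, β i • ((Ch : ℝ) • y + h i)
                = (Ch * ∑ i, β i) • y + ∑ i, β i • h i := by
              rw [Finset.mul_sum, Finset.sum_smul, ← Finset.sum_add_distrib]
              refine Finset.sum_congr rfl fun i _ => ?_
              rw [smul_add, smul_smul, mul_comm]
            rw [e3, sub_smul]
            abel
          rw [e2]
          refine D.add _ h3 _ (D.add _ ?_ _ (D.smul _ ?_ _ D.y_N))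
          · have key : ∀ s : Finset ι, ∑ i ∈ s, β i • ((Ch : ℝ) • y + h i) ∈ nef := by
              intro s
              induction s using Finset.induction_on with
              | empty => simpa using hnef0
              | insert i s hi ih =>
                rw [Finset.sum_insert hi]
                exact D.add _ (D.smul _ (h1 i) _ (hCh i)) _ ih
            exact key _
          · have e4 : (K' : ℝ) = Ch * ⌈|C|⌉₊ := by simp [K']
            rw [e4, sub_nonneg]
            exact mul_le_mul_of_nonneg_left (h6.trans (Nat.le_ceil _)) (Nat.cast_nonneg _)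
        · -- the bound
          have e1 : 0 ≤ A * lin u fe hfe0 p.1 := by
            rw [hpx, Prod.fst_add, dv_fst, lft_fst, add_zero, lin_cls, hfe]
            exact mul_nonneg (Nat.cast_nonneg _) (Finset.sum_nonneg fun i _ =>
              mul_nonneg (Nat.cast_nonneg _) (h1 i))
          have e2 := hξ' p
          rw [map_add, map_smul, smul_eq_mul]
          linarith
      · change (cls u (fun i => (w i : ℝ)), p.2 + (K' : ℝ) • y - (K' : ℝ) • y) = p
        rw [Prod.ext_iff]
        refine ⟨?_, by abel⟩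
        change cls u (fun i => (w i : ℝ)) = p.1
        rw [hz, ← h7, ← hdet β]
        congr 1
        ext i
        rw [h8]
    · intro η
      obtain ⟨C₅, hC₅⟩ := D.dom (η ∘ₗ lft u)
      let M : ℝ := ∑ i, |η (dv u h (Pi.single i 1))|
      have hM0 : 0 ≤ M := Finset.sum_nonneg fun i _ => abs_nonneg _
      refine ⟨M + |C₅|, fun p hp => ?_⟩
      obtain ⟨β, h1, -, x, h3, rfl⟩ := hp t₀ ht₀
      have h4 := hlow β x h1
      have h5 : 0 ≤ ∑ i, β i := Finset.sum_nonneg fun i _ => h1 i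
      have h6 := hξnn x h3
      have e1 : β = ∑ k, β k • (Pi.single k 1 : ι → ℝ) := by
        ext l
        simp [Finset.sum_apply, Pi.single_apply]
      have e2 : η (dv u h β) = ∑ k, β k * η (dv u h (Pi.single k 1)) := by
        conv_lhs => rw [e1]
        rw [map_sum, map_sum]
        exact Finset.sum_congr rfl fun k _ => by rw [map_smul, map_smul, smul_eq_mul]
      have e3 : |η (dv u h β)| ≤ M * ∑ k, β k := by
        rw [e2, Finset.mul_sum]
        refine (Finset.abs_sum_le_sum_abs _ _).trans (Finset.sum_le_sum fun k _ => ?_)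
        rw [abs_mul, abs_of_nonneg (h1 k), mul_comm]
        refine mul_le_mul_of_nonneg_right ?_ (h1 k)
        exact Finset.single_le_sum (f := fun i => |η (dv u h (Pi.single i 1))|)
          (fun i _ => abs_nonneg _) (Finset.mem_univ k)
      have e4 : |η (lft u x)| ≤ |C₅| * ξ x := (hC₅ x h3).trans
        (mul_le_mul_of_nonneg_right (le_abs_self _) h6)
      calc |η (dv u h β + lft u x)| ≤ |η (dv u h β)| + |η (lft u x)| := by
            rw [map_add]; exact abs_add_le _ _
        _ ≤ M * ∑ k, β k + |C₅| * ξ x := add_le_add e3 e4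
        _ ≤ (M + |C₅|) * (∑ k, β k + ξ x) := by
            have := mul_nonneg (abs_nonneg C₅) h5
            have := mul_nonneg hM0 h6
            nlinarith
        _ ≤ (M + |C₅|) * ξ' (dv u h β + lft u x) :=
            mul_le_mul_of_nonneg_left h4 (add_nonneg hM0 (abs_nonneg _))
    · intro p hp
      by_cases h1 : p.1 = 0
      · have h2 : p.2 ≠ 0 := fun h2 => hp (Prod.ext h1 h2)
        obtain ⟨η, h3, h4⟩ := D.sep _ h2
        exact ⟨η ∘ₗ LinearMap.snd ℝ _ _, fun q hq => h3 _ hq.2, h4⟩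
      · obtain ⟨δ, hδ⟩ := cls_surj p.1
        obtain ⟨i, hi⟩ : ∃ i, tst i δ ≠ 0 := by
          by_contra hc
          push Not at hc
          obtain ⟨m', hm'⟩ := (htst0 δ).1 hc
          apply h1
          rw [← hδ, ← cls_zero, cls_eq]
          exact ⟨m', by rw [hm', zero_add]⟩
        refine ⟨lin u (tst i) (htst1 i) ∘ₗ LinearMap.fst ℝ _ _, fun q hq => ?_, ?_⟩
        · obtain ⟨⟨z, hz⟩, -⟩ := hq
          obtain ⟨k, hk⟩ := htsti i z
          refine ⟨k, ?_⟩
          rw [LinearMap.comp_apply, LinearMap.fst_apply, hz, lin_cls, hk]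
        · rw [LinearMap.comp_apply, LinearMap.fst_apply, ← hδ, lin_cls]
          exact hi
    · intro q hq
      rcases Finset.mem_insert.1 hq with h1 | h1
      · rw [h1]
        exact ⟨hyL, hyN⟩
      · obtain ⟨g, hg, rfl⟩ := Finset.mem_image.1 h1
        refine ⟨(LY u L).sub_mem ?_ (hGnL g hg), ?_⟩
        · have : (⌈C₄ g⌉₊ : ℝ) • y' = (⌈C₄ g⌉₊ : ℕ) • y' := Nat.cast_smul_eq_nsmul ℝ _ y'
          rw [this]
          exact (LY u L).nsmul_mem hyL _
        · have h2 := hadd _ (hC₄' g) _ (hsmul (⌈C₄ g⌉₊ - C₄ g) (sub_nonneg.2 (Nat.le_ceil _)) _ hyN)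
          have h3 : C₄ g • y' - g + ((⌈C₄ g⌉₊ : ℝ) - C₄ g) • y' = (⌈C₄ g⌉₊ : ℝ) • y' - g := by
            module
          rwa [h3] at h2
    · intro φ hφ
      have h0 : φ y' = 0 := hφ y' (Finset.mem_insert_self _ _)
      have h1 : ∀ g ∈ Gn, φ g = 0 := fun g hg => by
        have h2 := hφ _ (Finset.mem_insert_of_mem (Finset.mem_image_of_mem _ hg))
        rw [map_sub, map_smul, h0, smul_zero, zero_sub, neg_eq_zero] at h2
        exact h2
      have h2 : φ ∘ₗ lft u = 0 := by
        refine LinearMap.ext_on (span_Y D) fun z hz => ?_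
        exact h1 _ (Finset.mem_union_right _ (Finset.mem_image_of_mem _ hz))
      have h3 : ∀ β, φ (dv u h β) = 0 := fun β => by
        have e1 : β = ∑ k, β k • (Pi.single k 1 : ι → ℝ) := by
          ext l
          simp [Finset.sum_apply, Pi.single_apply]
        rw [e1, map_sum, map_sum]
        refine Finset.sum_eq_zero fun k _ => ?_
        rw [map_smul, map_smul, h1 _ (Finset.mem_union_left _
          (Finset.mem_image_of_mem _ (Finset.mem_univ k))), smul_zero]
      refine LinearMap.ext fun p => ?_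
      obtain ⟨β, x, rfl⟩ := exists_rep u h p
      rw [map_add, h3, zero_add]
      exact congrArg (fun f => f x) h2
  · intro t ht p s hs hp
    obtain ⟨β, h1, -, x, h3, hpx⟩ := hp t ht
    let tt : {t // t ∈ T} := ⟨t, ht⟩
    refine ⟨β + s • fun i => (b tt i : ℝ), fun i => add_nonneg (h1 i)
      (mul_nonneg hs.le (Nat.cast_nonneg _)), x + s • (x₀ - ∑ i, (b tt i : ℝ) • h i), ?_, ?_⟩
    · have h4 : p = dv u h β + lft u x + s • y' := by rw [← hpx]; abel
      rw [h4, hy' tt, map_add, map_add, map_smul, map_smul, smul_add]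
      abel
    · have h4 := D.add _ h3 _ (D.smul s hs.le _ (hx₀ tt))
      have h5 : x + s • (x₀ - ∑ i, (b tt i : ℝ) • h i - y)
          = x + s • (x₀ - ∑ i, (b tt i : ℝ) • h i) - s • y := by module
      rwa [h5] at h4

end Q47.CY
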