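import Pool.Agent.Q47.AL.Def
import Pool.Agent.Q47.TR.Stm
import Pool.Agent.Y167.Defs

/-!
# Toric bundles over quotients of complex tori and effective divisors on them

`X = V / Γ` is the quotient of a complex torus by a finite group, and `Y → X` is a toric bundle (see
`Pool.Agent.Q47.TB.Defs`).
-/

set_option autoImplicit false

namespace Q47.CY

open Pool.Agent.W594.SYZ2 Pool.Agent.TH735.AQ Q47.TB Q47.AL MvPolynomial
open Pool.Agent.Y167 (AffGrp)

section Classes

variable {ι : Type*} {n : ℕ}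

/-- The real divisor `∑_i (∑_k m_k u_{ik}) D_i` of the character `m` with real coefficients. -/
def chr (u : ι → Fin n → ℤ) : (Fin n → ℝ) →ₗ[ℝ] (ι → ℝ) where
  toFun m := fun i => ∑ k, m k * u i k
  map_add' m m' := by
    ext i
    simp only [Pi.add_apply, add_mul, Finset.sum_add_distrib]
  map_smul' t m := by
    ext i
    simp only [Pi.smul_apply, smul_eq_mul, RingHom.id_apply, Finset.mul_sum, mul_assoc]

/-- The real vector space of the classes of divisors on the toric variety: the divisors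
`∑ δ_i D_i` with real coefficients modulo the divisors of the characters. -/
def Cl (u : ι → Fin n → ℤ) : Type _ := (ι → ℝ) ⧸ LinearMap.range (chr u)

noncomputable instance (u : ι → Fin n → ℤ) : AddCommGroup (Cl u) :=
  Submodule.Quotient.addCommGroup (LinearMap.range (chr u))

noncomputable instance (u : ι → Fin n → ℤ) : Module ℝ (Cl u) :=
  Submodule.Quotient.module (LinearMap.range (chr u))

noncomputable instance (u : ι → Fin n → ℤ) : TopologicalSpace (Cl u) :=
  QuotientModule.Quotient.topologicalSpace (LinearMap.range (chr u))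

/-- The class of the divisor `∑ δ_i D_i` on the toric variety. -/
def cls (u : ι → Fin n → ℤ) (δ : ι → ℝ) : Cl u := Submodule.Quotient.mk δ

end Classes

variable {V : Type*} [NormedAddCommGroup V] [NormedSpace ℂ V] {Γ : AffGrp V}

/-- A toric bundle `Y → X` with projective fibres: the smooth complete fan with the rays `u i` and the
cones `σ ∈ S`, and the line bundles `c i` on `X` with the Chern forms `Hc i`. -/
structure Bundle (Γ : AffGrp V) (ι : Type*) [Fintype ι] (n : ℕ) where
  u : ι → Fin n → ℤ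
  S : Set (Set ι)
  fan : IsSmoothFan u S
  proj : ∃ d : ι → ℤ, IsFibreAmple u S d
  c : ι → LineBundle Γ
  Hc : ι → V → V → ℂ
  chern : ∀ i, IsChernForm (c i) (Hc i)

variable {ι : Type*} [Fintype ι] {n : ℕ}

/-- An effective divisor `Δ = ∑ δ_j B_j` on `Y` with real coefficients: `B_j` is the divisor of the
section `F_j` of `O_Y(d_j; M_j)`. -/
structure Bdry (Y : Bundle Γ ι n) (r : ℕ) where
  d : Fin r → ι → ℤ
  M : Fin r → LineBundle Γ
  HM : Fin r → V → V → ℂ
  chern : ∀ l, IsChernForm (M l) (HM l)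
  F : Fin r → V → MvPolynomial ι ℂ
  sect : ∀ l, IsSection Y.u Y.c (d l) (M l).e (F l)
  δ : Fin r → ℝ
  pos : ∀ l, 0 < δ l

variable {Y : Bundle Γ ι n} {r : ℕ}

/-- The fibre `(Y_v, Δ_v)` of the pair `(Y, Δ)` over the image of `v` in `X` is klt: `(Y_v, C Δ_v)` is
log canonical for some `C > 1`. -/
def Bdry.IsKltAt (Δ : Bdry Y r) (v : V) : Prop :=
  ∃ C : ℝ, 1 < C ∧ Q47.TR.IsLogCanonical Y.S (fun l => C * Δ.δ l) fun l => Δ.F l v

/-- The automorphism of `Y` given by `(v, x) ↦ (f v, (a_i(v) x_i)_i)` maps each `B_j` to itself. -/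
def Bdry.IsFixedBy (Δ : Bdry Y r) (f : V ≃ᵃ[ℂ] V) (a : ι → V → ℂ) : Prop :=
  ∀ l, ∃ b : V → ℂ, Differentiable ℂ b ∧ (∀ v, b v ≠ 0) ∧
    ∀ v x, eval (fun i => a i v * x i) (Δ.F l (f v)) = b v * eval x (Δ.F l v)

end Q47.CY
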