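import Pool.Agent.Q47.CY.StM
import Pool.Agent.Q47.TB.Snc

/-!
# Base loci of codimension two
-/

set_option autoImplicit false

namespace Q47.CP

open Filter Topology Metric
open Pool.Agent.W594.SYZ2 Q47.TB MvPolynomial
open Pool.Agent.Y167 (AffGrp)
open Q47.CY (Bundle)

/-- A holomorphic function of two variables has no isolated zeros. -/
theorem no_isolated {φ : ℂ × ℂ → ℂ} {ρ : ℝ} (hρ : 0 < ρ)
    (hd : ∀ a b, ‖a‖ ≤ ρ → ‖b‖ ≤ ρ → DifferentiableAt ℂ φ (a, b)) (h0 : φ (0, 0) = 0)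
    (hne : ∀ a b, ‖a‖ ≤ ρ → ‖b‖ ≤ ρ → a ≠ 0 ∨ b ≠ 0 → φ (a, b) ≠ 0) : False := by
  have hK : IsCompact (closedBall (0 : ℂ) ρ ×ˢ sphere (0 : ℂ) ρ) :=
    (isCompact_closedBall _ _).prod (isCompact_sphere _ _)
  have hc : ContinuousOn (fun p => ‖φ p‖) (closedBall (0 : ℂ) ρ ×ˢ sphere (0 : ℂ) ρ) := by
    rintro ⟨a, b⟩ ⟨ha, hb⟩
    refine (hd a b (mem_closedBall_zero_iff.1 ha) (mem_sphere_zero_iff_norm.1 hb).le
      ).continuousAt.norm.continuousWithinAt
  obtain ⟨⟨a₀, b₀⟩, ⟨ha₀, hb₀⟩, hmin⟩ := hK.exists_isMinOn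
    ⟨(0, (ρ : ℂ)), mem_closedBall_self hρ.le, by simp [abs_of_pos hρ]⟩ hc
  have hb₀' : ‖b₀‖ = ρ := mem_sphere_zero_iff_norm.1 hb₀
  have hm : 0 < ‖φ (a₀, b₀)‖ := norm_pos_iff.2 (hne a₀ b₀ (mem_closedBall_zero_iff.1 ha₀)
    hb₀'.le (Or.inr fun h => by
      rw [h, norm_zero] at hb₀'
      exact hρ.ne hb₀'))
  set m := ‖φ (a₀, b₀)‖ with hmdef
  have key : ∀ a, a ≠ 0 → ‖a‖ ≤ ρ → m ≤ ‖φ (a, 0)‖ := by
    intro a ha har
    have hf : DiffContOnCl ℂ (fun b => (φ (a, b))⁻¹) (ball 0 ρ) := by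
      refine DifferentiableOn.diffContOnCl fun b hb => ?_
      rw [closure_ball _ hρ.ne'] at hb
      have hb' := mem_closedBall_zero_iff.1 hb
      have h1 : DifferentiableAt ℂ (fun b => φ (a, b)) b :=
        (hd a b har hb').comp b (DifferentiableAt.prodMk (differentiableAt_const _)
          differentiableAt_id)
      exact (h1.inv (hne a b har hb' (Or.inl ha))).differentiableWithinAt
    have h1 := Complex.norm_le_of_forall_mem_frontier_norm_le isBounded_ball hf (C := m⁻¹)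
      (fun z hz => by
        rw [frontier_ball _ hρ.ne'] at hz
        have hz' : ‖z‖ = ρ := mem_sphere_zero_iff_norm.1 hz
        rw [norm_inv]
        refine inv_anti₀ hm ?_
        exact hmin ⟨mem_closedBall_zero_iff.2 har, hz⟩)
      (subset_closure (mem_ball_self hρ))
    rw [norm_inv] at h1
    have h2 : 0 < ‖φ (a, 0)‖ := norm_pos_iff.2 (hne a 0 har (by simpa using hρ.le) (Or.inl ha))
    exact (inv_le_inv₀ h2 hm).1 h1
  have hlim : Tendsto (fun a : ℂ => ‖φ (a, 0)‖) (𝓝[≠] 0) (𝓝 0) := by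
    have h1 : ContinuousAt (fun a : ℂ => ‖φ (a, 0)‖) 0 := by
      refine ContinuousAt.norm (ContinuousAt.comp (f := fun a : ℂ => (a, (0 : ℂ))) (g := φ) ?_ ?_)
      · exact (hd 0 0 (by simpa using hρ.le) (by simpa using hρ.le)).continuousAt
      · exact (Continuous.prodMk_left (0 : ℂ)).continuousAt
    have h2 : ‖φ ((0 : ℂ), (0 : ℂ))‖ = 0 := by rw [h0, norm_zero]
    have h3 : Tendsto (fun a : ℂ => ‖φ (a, 0)‖) (𝓝 0) (𝓝 ‖φ ((0 : ℂ), (0 : ℂ))‖) := h1.tendsto
    rw [h2] at h3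
    exact h3.mono_left nhdsWithin_le_nhds
  have h4 : m ≤ 0 := by
    refine ge_of_tendsto hlim ?_
    have h5 : ∀ᶠ a in 𝓝[≠] (0 : ℂ), ‖a‖ ≤ ρ := by
      refine eventually_nhdsWithin_of_eventually_nhds ?_
      filter_upwards [closedBall_mem_nhds (0 : ℂ) hρ] with a ha
      exact mem_closedBall_zero_iff.1 ha
    filter_upwards [h5, self_mem_nhdsWithin] with a h6 h7
    exact key a h7 h6
  exact absurd hm (not_lt.2 h4)

variable {V : Type*} [NormedAddCommGroup V] [NormedSpace ℂ V] {Γ : AffGrp V} {ι : Type*}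
  [Fintype ι] {n : ℕ}

/-- A line bundle is movable if for each `i` there is a monomial without `x_i` with globally
generated coefficient bundle. -/
theorem movable_crit (Y : Bundle Γ ι n) {d : ι → ℤ} {M : LineBundle Γ}
    (hmon : ∀ t ∈ Y.S, t.Subsingleton → ∃ β : ι → ℕ, (∀ i ∈ t, β i = 0) ∧ ∀ v, ∃ s : V → ℂ,
      s v ≠ 0 ∧ Continuous s ∧ IsSection Y.u Y.c d M.e
        (fun v => monomial (Finsupp.equivFunOnFinite.symm β) (s v))) : IsMovable Y d M := by
  classical
  intro p h hpS hh h0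
  by_contra hcon
  have hdiv : ∀ G, IsSection Y.u Y.c d M.e G → ∃ g : V × (ι → ℂ) → ℂ,
      ∀ᶠ q in 𝓝 p, eval q.2 (G q.1) = h q * g q := by
    intro G hG
    by_contra hne
    apply hcon
    refine ⟨G, hG, ?_⟩
    rintro ⟨g, -, hg⟩
    exact hne ⟨g, hg⟩
  clear hcon
  have hfin : Finite {t // t ∈ Y.S ∧ t.Subsingleton} := inferInstance
  choose β hβ s hs0 hsc hs using fun t : {t // t ∈ Y.S ∧ t.Subsingleton} =>
    let ⟨β, hβ, hs⟩ := hmon t.1 t.2.1 t.2.2
    (⟨β, hβ, (hs p.1).choose, (hs p.1).choose_spec.1, (hs p.1).choose_spec.2.1,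
      (hs p.1).choose_spec.2.2⟩ : ∃ β : ι → ℕ, (∀ i ∈ t.1, β i = 0) ∧ ∃ s : V → ℂ, s p.1 ≠ 0 ∧
        Continuous s ∧ IsSection Y.u Y.c d M.e
          (fun v => monomial (Finsupp.equivFunOnFinite.symm β) (s v)))
  choose g hg using fun t => hdiv _ (hs t)
  have hall : ∀ᶠ q in 𝓝 p, (∀ t : {t // t ∈ Y.S ∧ t.Subsingleton},
      s t q.1 * ∏ i, q.2 i ^ β t i = h q * g t q ∧ s t q.1 ≠ 0) ∧
      DifferentiableAt ℂ h q ∧ ∀ i, p.2 i ≠ 0 → q.2 i ≠ 0 := by
    refine (eventually_all.2 fun t => ?_).and (hh.and (eventually_all.2 fun i => ?_))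
    · have h1 : ∀ᶠ q in 𝓝 p, s t q.1 ≠ 0 :=
        ((hsc t).comp continuous_fst).continuousAt.eventually_ne (hs0 t)
      filter_upwards [hg t, h1] with q h2 h3
      refine ⟨?_, h3⟩
      rw [eval_monomial, Finsupp.prod_fintype _ _ fun i => pow_zero _] at h2
      exact h2
    · by_cases hi : p.2 i = 0
      · exact Eventually.of_forall fun q h => absurd hi h
      · have h1 : ∀ᶠ q in 𝓝 p, q.2 i ≠ 0 :=
          ((continuous_apply i).comp continuous_snd).continuousAt.eventually_ne hi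
        filter_upwards [h1] with q h2 _
        exact h2
  obtain ⟨δ, hδ, hball⟩ := Metric.eventually_nhds_iff_ball.1 hall
  let D : V × (ι → ℂ) → Finset ι := fun q => Finset.univ.filter fun i => q.2 i = 0
  have hD : ∀ q i, i ∈ D q ↔ q.2 i = 0 := fun q i => by simp [D]
  -- a zero with the smallest number of vanishing coordinates
  obtain ⟨q₀, ⟨hq₀b, hq₀⟩, hmin⟩ : ∃ q, (q ∈ ball p δ ∧ h q = 0) ∧
      ∀ q', q' ∈ ball p δ → h q' = 0 → (D q).card ≤ (D q').card := by
    have hex : ∃ k, ∃ q, (q ∈ ball p δ ∧ h q = 0) ∧ (D q).card = k :=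
      ⟨_, p, ⟨mem_ball_self hδ, h0⟩, rfl⟩
    obtain ⟨q, hq, hk⟩ := Nat.find_spec hex
    refine ⟨q, hq, fun q' h1 h2 => ?_⟩
    rw [hk]
    exact Nat.find_min' hex ⟨q', ⟨h1, h2⟩, rfl⟩
  obtain ⟨h1, h2, h3⟩ := hball q₀ hq₀b
  have hDS : ({i | q₀.2 i = 0} : Set ι) ∈ Y.S := by
    refine Y.fan.face _ hpS _ fun i hi => ?_
    by_contra hne
    exact h3 i hne hi
  by_cases hsub : ({i | q₀.2 i = 0} : Set ι).Subsingleton
  · obtain ⟨h4, h5⟩ := h1 ⟨_, hDS, hsub⟩
    rw [hq₀, zero_mul] at h4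
    refine mul_ne_zero h5 (Finset.prod_ne_zero_iff.2 fun i _ => ?_) h4
    by_cases hi : q₀.2 i = 0
    · rw [hβ ⟨_, hDS, hsub⟩ i hi, pow_zero]
      exact one_ne_zero
    · exact pow_ne_zero _ hi
  · obtain ⟨k, hk, l, hl, hkl⟩ := Set.not_subsingleton_iff.1 hsub
    have hk' : q₀.2 k = 0 := hk
    have hl' : q₀.2 l = 0 := hl
    let ψ : ℂ × ℂ → V × (ι → ℂ) := fun z =>
      (q₀.1, fun i => if i = k then z.1 else if i = l then z.2 else q₀.2 i)
    have hψ0 : ψ (0, 0) = q₀ := by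
      refine Prod.ext rfl (funext fun i => ?_)
      simp only [ψ]
      split_ifs with h4 h5
      · rw [h4, hk']
      · rw [h5, hl']
      · rfl
    have hψd : Differentiable ℂ ψ := by
      refine Differentiable.prodMk (differentiable_const _) (differentiable_pi.2 fun i => ?_)
      by_cases h4 : i = k
      · simp only [h4, if_true]
        exact differentiable_fst
      · by_cases h5 : i = l
        · subst h5
          simp only [if_neg h4, if_true]
          exact differentiable_snd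
        · simp only [if_neg h4, if_neg h5]
          exact differentiable_const _
    have hψb : ∀ᶠ z in 𝓝 ((0 : ℂ), (0 : ℂ)), ψ z ∈ ball p δ := by
      refine hψd.continuous.continuousAt.eventually_mem ?_
      rw [hψ0]
      exact isOpen_ball.mem_nhds hq₀b
    obtain ⟨ε, hε, hψε⟩ := Metric.eventually_nhds_iff_ball.1 hψb
    have hmem : ∀ a b : ℂ, ‖a‖ ≤ ε / 2 → ‖b‖ ≤ ε / 2 → ψ (a, b) ∈ ball p δ := by
      intro a b ha hb
      apply hψε
      rw [mem_ball, Prod.dist_eq]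
      simp only [dist_zero_right]
      exact max_lt (by linarith) (by linarith)
    refine no_isolated (φ := fun z => h (ψ z)) (half_pos hε) (fun a b ha hb => ?_) ?_
      fun a b ha hb hab hz => ?_
    · exact ((hball _ (hmem a b ha hb)).2.1).comp (a, b) (hψd (a, b))
    · simp only [hψ0, hq₀]
    · have h4 := hmin _ (hmem a b ha hb) hz
      have h5 : D (ψ (a, b)) ⊂ D q₀ := by
        rw [Finset.ssubset_iff_of_subset]
        · rcases hab with h6 | h6
          · refine ⟨k, (hD _ _).2 hk', fun h7 => h6 ?_⟩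
            have h8 := (hD _ _).1 h7
            simpa [ψ] using h8
          · refine ⟨l, (hD _ _).2 hl', fun h7 => h6 ?_⟩
            have h8 := (hD _ _).1 h7
            simpa [ψ, hkl.symm] using h8
        · intro i hi
          rw [hD] at hi ⊢
          simp only [ψ] at hi
          split_ifs at hi with h6 h7
          · rw [h6]; exact hk'
          · rw [h7]; exact hl'
          · exact hi
      exact absurd (Finset.card_lt_card h5) (not_lt.2 h4)

end Q47.CP
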