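import Pool.Agent.Q47.CY.Wt
import Pool.Agent.Q47.CY.Base
import Pool.Agent.Q47.TR.Lc
import Pool.Agent.Q47.TB.Psef

/-!
# Klt Calabi–Yau pairs on toric bundles: the classes of the characters
-/

set_option autoImplicit false

namespace Q47.CY

open Finset
open Pool.Agent.W594.SYZ2 Pool.Agent.W594.SYZ2.TQ Pool.Agent.TH735.AQ
open Pool.Agent.Y167
open Q47.TB MvPolynomial

variable {V E : Type*} [NormedAddCommGroup V] [NormedSpace ℂ V] [FiniteDimensional ℂ V]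
  [NormedAddCommGroup E] [NormedSpace ℂ E] [FiniteDimensional ℂ E] {Γ : Subgroup (V ≃ᵃ[ℂ] V)}
  {j : E →ₗ[ℂ] V} {H₀ : V → V → ℂ} {ι : Type*} [Fintype ι] {n r : ℕ}

omit [FiniteDimensional ℂ V] in
/-- The potential of `L ^ K ⊗ ∏ c_i ^ (- K β_i)`. -/
theorem pot_tw {L : LineBundle Γ} {c : ι → LineBundle Γ} {H : V → V → ℂ} {F : V → ℂ}
    {Hc : ι → V → V → ℂ} {G : ι → V → ℂ} (hK : IsPot L H F)
    (hD : ∀ i, IsPot (c i) (Hc i) (G i)) (β : ι → ℕ) :
    IsPot (Q47.TB.tw L c 1 β) (fun v w => H v w - ∑ i, (β i : ℂ) * Hc i v w)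
      (fun v => F v - ∑ i, β i * G i v) := by
  obtain ⟨hF, hFe⟩ := hK
  choose hG hGe using hD
  refine ⟨hF.sub (Differentiable.fun_sum fun i _ => (hG i).const_mul _), fun γ v => ?_⟩
  have h1 : ‖(Q47.TB.tw L c 1 β).e γ v‖ ^ 2 = ‖L.e γ v‖ ^ 2 *
      (∏ i, (‖(c i).e γ v‖ ^ 2) ^ (β i))⁻¹ := by
    change ‖L.e γ v ^ 1 * (∏ i, (c i).e γ v ^ (1 * β i))⁻¹‖ ^ 2 = _
    rw [norm_mul, pow_one, norm_inv, norm_prod, mul_pow, inv_pow, ← Finset.prod_pow]
    congr 2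
    exact Finset.prod_congr rfl fun i _ => by
      rw [norm_pow, ← pow_mul, ← pow_mul, mul_comm, one_mul]
  have h2 : ∀ i, (‖(c i).e γ v‖ ^ 2) ^ (β i) = Real.exp ((β i : ℕ) * (Real.pi *
      (Hc i ((γ : V ≃ᵃ[ℂ] V) v) ((γ : V ≃ᵃ[ℂ] V) v)).re
      + 2 * (G i ((γ : V ≃ᵃ[ℂ] V) v)).re - (Real.pi * (Hc i v v).re + 2 * (G i v).re))) :=
    fun i => by rw [hGe, ← Real.exp_nat_mul]
  have hre : ∀ (a : ℂ) (b : ι → ℂ), (a - ∑ i, (β i : ℂ) * b i).re
      = a.re - ∑ i, ((β i : ℕ) : ℝ) * (b i).re := by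
    intro a b
    rw [Complex.sub_re, Complex.re_sum]
    congr 1
    refine Finset.sum_congr rfl fun i _ => ?_
    have : ((β i : ℕ) : ℂ) = ((β i : ℝ) : ℂ) := by push_cast; rfl
    rw [this, Complex.re_ofReal_mul]
  rw [h1, Finset.prod_congr rfl fun i _ => h2 i, ← Real.exp_sum, hFe, ← Real.exp_neg,
    ← Real.exp_add]
  congr 1
  simp only [hre]
  have e3 : ∀ (x : V), ∑ i, ((β i : ℕ) : ℝ) * (Real.pi * (Hc i x x).re + 2 * (G i x).re)
      = Real.pi * ∑ i, ((β i : ℕ) : ℝ) * (Hc i x x).re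
        + 2 * ∑ i, ((β i : ℕ) : ℝ) * (G i x).re := by
    intro x
    rw [Finset.mul_sum, Finset.mul_sum, ← Finset.sum_add_distrib]
    exact Finset.sum_congr rfl fun i _ => by ring
  simp only [mul_sub, Finset.sum_sub_distrib, e3]
  ring

variable {Y : Bundle Γ ι n}

/-- The Chern form of the coefficient bundle of a monomial. -/
def Nf (Δ : Bdry Y r) (l : Fin r) (α : ι →₀ ℕ) : V → V → ℂ :=
  fun v w => Δ.HM l v w - ∑ i, (α i : ℂ) * Y.Hc i v w

omit [FiniteDimensional ℂ V] in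
theorem chern_Nf (Δ : Bdry Y r) (l : Fin r) (α : ι →₀ ℕ) :
    IsChernForm (Q47.TB.tw (Δ.M l) Y.c 1 fun i => α i) (Nf Δ l α) := by
  obtain ⟨hH, F, hF, hFe⟩ := Δ.chern l
  choose hHc G hG hGe using Y.chern
  obtain ⟨h1, h2⟩ := pot_tw (L := Δ.M l) (c := Y.c) ⟨hF, hFe⟩ (fun i => ⟨hG i, hGe i⟩)
    fun i => α i
  refine ⟨⟨fun u v w => ?_, fun a v w => ?_, fun v w => ?_⟩, _, h1, h2⟩
  · simp only [Nf, hH.add_left, (hHc _).add_left, mul_add, Finset.sum_add_distrib]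
    ring
  · simp only [Nf, hH.smul_left, (hHc _).smul_left, mul_sub, Finset.mul_sum]
    congr 1
    exact Finset.sum_congr rfl fun i _ => by ring
  · simp only [Nf, map_sub, map_mul, map_sum, Complex.conj_natCast, ← hH.symm, ← (hHc _).symm]

theorem nef_Nf (hΓ : IsTorusQuotient Γ) (Δ : Bdry Y r) (l : Fin r) (α : ι →₀ ℕ)
    (hα : ∃ v, coeff α (Δ.F l v) ≠ 0) : IsNefForm (Nf Δ l α) :=
  Q47.MM.nef_of_section hΓ (chern_Nf Δ l α) (coeff_section (Δ.sect l) α) hα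

omit [FiniteDimensional ℂ V] in
/-- The forms of the differences of the exponents. -/
theorem Nf_sub (Δ : Bdry Y r) (l : Fin r) {α α' : ι →₀ ℕ} {z : Fin n → ℤ}
    (h : ∀ i, (α i : ℤ) = α' i + ∑ k, z k * Y.u i k) (v w : V) :
    ∑ k, (z k : ℂ) * ∑ i, (Y.u i k : ℂ) * Y.Hc i v w = Nf Δ l α' v w - Nf Δ l α v w := by
  have h1 : ∀ i, (α i : ℂ) = α' i + ∑ k, (z k : ℂ) * Y.u i k := fun i => by
    exact_mod_cast h i
  simp only [Nf, h1, add_mul, Finset.sum_add_distrib, Finset.sum_mul, Finset.mul_sum]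
  rw [Finset.sum_comm]
  have h2 : ∀ (i : ι) (k : Fin n), (z k : ℂ) * ((Y.u i k : ℂ) * Y.Hc i v w)
      = (z k : ℂ) * (Y.u i k : ℂ) * Y.Hc i v w := fun i k => by ring
  simp only [h2]
  ring

/-- The consequences of the klt and the Calabi–Yau condition. -/
theorem klt_main (R : Rel Γ j H₀) (Δ : Bdry Y r) {v₀ : V} (hklt : Δ.IsKltAt v₀)
    (hCY : Δ.IsCY j) :
    (∃ N₀ : ℕ, 0 < N₀ ∧ ∀ l : Fin n, (Pi.single l (N₀ : ℤ) : Fin n → ℤ) ∈
      AddSubgroup.closure (Zs Y.u fun l => (Δ.F l v₀).support)) ∧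
    (∀ e, MirrorFixed Γ (j e) → ∀ (k : Fin n) (w : V), ∑ i, (Y.u i k : ℂ) * Y.Hc i (j e) w = 0) ∧
    ∀ e, MirrorFixed Γ (j e) → ∀ (l : Fin r) (α : ι →₀ ℕ), (∃ v, coeff α (Δ.F l v) ≠ 0) →
      ∀ w, Nf Δ l α (j e) w = 0 := by
  classical
  obtain ⟨C, hC, hlc⟩ := hklt
  obtain ⟨m, ρ, K, HK, hHK, hm, hρ, hK, hnum⟩ := hCY
  have hC0 : 0 < C := by linarith
  set T : Fin r → Finset (ι →₀ ℕ) := fun l => (Δ.F l v₀).support with hTdef
  have hcls : ∀ l, ∀ α ∈ T l, LinEquiv Y.u (fun i => (α i : ℤ)) (Δ.d l) :=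
    fun l α hα => (Δ.sect l).deg v₀ α hα
  have hw := Q47.TR.weights_of_lc (fun l => mul_pos hC0 (Δ.pos l)) hlc
  -- the two components of the numerical condition
  have hq : ∃ q : Fin n → ℝ, ∀ i, ∑ l, Δ.δ l * Δ.d l i - 1 = ∑ k, q k * Y.u i k := by
    have h1 := congrArg Prod.fst hnum
    rw [Prod.fst_add, Prod.fst_sub, Prod.smul_fst, lft_fst, smul_zero, dv_fst, zero_sub,
      Prod.fst_sum] at h1
    simp only [Prod.smul_fst] at h1
    have h2 : ∀ s : Finset (Fin r), ∑ l ∈ s, Δ.δ l • cls Y.u (fun i => (Δ.d l i : ℝ))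
        = cls Y.u (fun i => ∑ l ∈ s, Δ.δ l * Δ.d l i) := by
      intro s
      induction s using Finset.induction_on with
      | empty =>
        simp only [Finset.sum_empty]
        rfl
      | insert a s ha ih =>
        simp only [Finset.sum_insert ha]
        rw [ih, ← cls_smul, ← cls_add]
        rfl
    rw [h2] at h1
    have h3 : cls Y.u (fun i => ∑ l, Δ.δ l * (Δ.d l i : ℝ)) = cls Y.u (fun _ => (1 : ℝ)) := by
      rw [← sub_eq_zero, sub_eq_neg_add]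
      exact h1
    obtain ⟨q, hq⟩ := cls_eq.1 h3
    refine ⟨q, fun i => ?_⟩
    have := congrFun hq i
    rw [Pi.add_apply, chr_apply] at this
    linarith
  have hbase : ∀ e e', (1 / m : ℝ) * HK (j e) (j e') - ∑ i, Y.Hc i (j e) (j e')
      + ∑ l, (Δ.δ l : ℂ) * Δ.HM l (j e) (j e') = 0 := by
    intro e e'
    have h1 := congrArg (fun p : NY Y j => p.2.1 e e') hnum
    rw [Prod.snd_add, Prod.snd_sub, Prod.smul_snd, lft_snd, dv_snd, Prod.snd_sum] at h1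
    simp only [Prod.smul_snd] at h1
    have h2 : ((1 / m : ℝ) • clsE j hHK - ∑ i, (1 : ℝ) • Y.h j i
        + ∑ l, Δ.δ l • clsE j (Δ.chern l) : N1 Γ j).1 e e'
        = ((1 / m : ℝ) • clsE j hHK : N1 Γ j).1 e e' - (∑ i, (1 : ℝ) • Y.h j i : N1 Γ j).1 e e'
          + (∑ l, Δ.δ l • clsE j (Δ.chern l) : N1 Γ j).1 e e' := rfl
    have h2' : ((1 / m : ℝ) • clsE j hHK : N1 Γ j).1 e e' = (1 / m : ℝ) * HK (j e) (j e') := by
      change (1 / m : ℝ) • HK (j e) (j e') = _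
      rw [Complex.real_smul]
    rw [h2, h2', coe_sum_N1 (fun _ => (1 : ℝ)) (Y.h j), coe_sum_N1 Δ.δ
      (fun l => clsE j (Δ.chern l))] at h1
    simp only [Complex.ofReal_one, one_mul] at h1
    exact h1
  obtain ⟨q, hq⟩ := hq
  obtain ⟨N₀, hN₀, hfull⟩ := exists_full Y.fan T hcls hC hw hq
  -- the forms of the exponents at `v₀`
  have hker0 : ∀ e, MirrorFixed Γ (j e) → ∀ l, ∀ α ∈ T l, ∀ w, Nf Δ l α (j e) w = 0 := by
    intro e he l α hα w
    obtain ⟨s, hs0, hspos, hs, hs1⟩ := exists_pos_weights Y.fan Δ.pos T hcls hC hw hq l ⟨α, hα⟩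
    have hnefT : ∀ a : Σ l, {α // α ∈ T l}, IsNefForm (Nf Δ a.1 a.2.1) := fun a =>
      nef_Nf R.tq Δ _ _ ⟨v₀, mem_support_iff.1 a.2.2⟩
    have hzero := mirror_zero R.tq hHK hρ hm hK he
    have hsum : ∑ a : Σ l, {α // α ∈ T l}, s a * (Nf Δ a.1 a.2.1 (j e) (j e)).re = 0 := by
      have h1 := congrArg Complex.re (hbase e e)
      rw [Complex.add_re, Complex.sub_re, Complex.re_ofReal_mul, hzero, mul_zero, zero_sub,
        Complex.zero_re, Complex.re_sum, Complex.re_sum] at h1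
      simp only [Complex.re_ofReal_mul] at h1
      have h2 : ∀ a : Σ l, {α // α ∈ T l}, s a * (Nf Δ a.1 a.2.1 (j e) (j e)).re
          = s a * (Δ.HM a.1 (j e) (j e)).re
            - ∑ i, (s a * (a.2.1 i : ℝ)) * (Y.Hc i (j e) (j e)).re := by
        intro a
        rw [Nf, Complex.sub_re, Complex.re_sum, mul_sub, Finset.mul_sum]
        congr 1
        refine Finset.sum_congr rfl fun i _ => ?_
        have : ((a.2.1 i : ℕ) : ℂ) = ((a.2.1 i : ℝ) : ℂ) := by push_cast; rfl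
        rw [this, Complex.re_ofReal_mul]
        ring
      simp only [h2, Finset.sum_sub_distrib]
      rw [Finset.sum_comm]
      simp only [← Finset.sum_mul, hs1, one_mul]
      rw [Fintype.sum_sigma]
      simp only [← Finset.sum_mul, hs]
      linarith
    have h3 := (Finset.sum_eq_zero_iff_of_nonneg fun a _ => mul_nonneg (hs0 a)
      (hnefT a (j e))).1 hsum ⟨l, ⟨α, hα⟩⟩ (Finset.mem_univ _)
    have h4 := (mul_eq_zero.1 h3).resolve_left hspos.ne'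
    exact h_isotropic (chern_Nf Δ l α).1 (hnefT ⟨l, ⟨α, hα⟩⟩) _ h4 w
  -- the classes of the characters
  have hkill : ∀ e, MirrorFixed Γ (j e) → ∀ (k : Fin n) (w : V),
      ∑ i, (Y.u i k : ℂ) * Y.Hc i (j e) w = 0 := by
    intro e he k w
    have h1 : ∀ z ∈ AddSubgroup.closure (Zs Y.u T),
        ∑ k, (z k : ℂ) * ∑ i, (Y.u i k : ℂ) * Y.Hc i (j e) w = 0 := by
      intro z hz
      induction hz using AddSubgroup.closure_induction with
      | mem z hz =>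
        obtain ⟨l, α, hα, α', hα', hz⟩ := hz
        rw [Nf_sub Δ l hz, hker0 e he l α' hα', hker0 e he l α hα, sub_self]
      | zero => simp
      | add x y _ _ hx hy =>
        simp only [Pi.add_apply, Int.cast_add, add_mul, Finset.sum_add_distrib]
        rw [hx, hy, add_zero]
      | neg x _ hx =>
        simp only [Pi.neg_apply, Int.cast_neg, neg_mul, Finset.sum_neg_distrib]
        rw [hx, neg_zero]
    have h2 := h1 _ (hfull k)
    rw [Finset.sum_eq_single k (fun k' _ hk' => by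
      rw [Pi.single_eq_of_ne hk', Int.cast_zero, zero_mul]) (fun h => absurd (Finset.mem_univ k) h),
      Pi.single_eq_same] at h2
    have hN : ((N₀ : ℤ) : ℂ) ≠ 0 := by exact_mod_cast hN₀.ne'
    exact (mul_eq_zero.1 h2).resolve_left hN
  refine ⟨⟨N₀, hN₀, hfull⟩, hkill, fun e he l α hα w => ?_⟩
  -- the other exponents
  obtain ⟨α₁, hα₁⟩ : ∃ α₁, α₁ ∈ T l := by
    obtain ⟨α, hα, -⟩ := hw 0 (by
      have : {i : ι | (0 : ι → ℕ) i ≠ 0} = ∅ := by ext i; simp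
      rw [this]
      exact Y.fan.empty_mem)
    exact ⟨α l, hα l⟩
  obtain ⟨v, hv⟩ := hα
  obtain ⟨p, hp⟩ := (Δ.sect l).deg v α (mem_support_iff.2 hv)
  obtain ⟨p₁, hp₁⟩ := hcls l α₁ hα₁
  have h1 : ∀ i, (α i : ℤ) = α₁ i + ∑ k, (p k - p₁ k) * Y.u i k := fun i => by
    have e1 := hp i
    have e2 := hp₁ i
    simp only at e1 e2
    rw [e1, e2]
    simp only [sub_mul, Finset.sum_sub_distrib]
    ring
  have h2 := Nf_sub (z := fun k => p k - p₁ k) Δ l h1 (j e) w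
  simp only [hkill e he, mul_zero, Finset.sum_const_zero] at h2
  rw [hker0 e he l α₁ hα₁, zero_sub] at h2
  exact neg_eq_zero.1 h2.symm

end Q47.CY
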