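import Pool.Agent.Q47.CY.Pt
import Pool.Agent.Q47.CY.Hol

/-!
# Classes of movable line bundles lie in the combinatorial cone
-/

set_option autoImplicit false

namespace Q47.CY

open Finset Filter Topology
open Pool.Agent.W594.SYZ2 Pool.Agent.W594.SYZ2.TQ Pool.Agent.TH735.AQ Pool.Agent.TH128.SYZ
open Pool.Agent.Y167
open Q47.TB MvPolynomial

variable {V E : Type*} [NormedAddCommGroup V] [NormedSpace ℂ V] [FiniteDimensional ℂ V]
  [NormedAddCommGroup E] [NormedSpace ℂ E] [FiniteDimensional ℂ E] {Γ : AffGrp V}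
  {j : E →ₗ[ℂ] V} {ι : Type*} [Fintype ι] {n : ℕ} {Y : Bundle Γ ι n}

omit [FiniteDimensional ℂ E] in
/-- The class given by a nonzero coefficient of a section. -/
theorem rep_of_coeff (hΓ : IsTorusQuotient Γ) {d : ι → ℤ} {M : LineBundle Γ} {p : NY Y j}
    (hp : IsClassY Y j d M p) {G : V → MvPolynomial ι ℂ} (hG : IsSection Y.u Y.c d M.e G)
    {α : ι →₀ ℕ} {v : V} (hα : coeff α (G v) ≠ 0) :
    ∃ x ∈ nefCone Γ j, p = dv Y.u (Y.h j) (fun i => (α i : ℝ)) + lft Y.u x := by
  obtain ⟨h1, HM, hHM, h2⟩ := hp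
  obtain ⟨z, hz⟩ := hG.deg v α (mem_support_iff.2 hα)
  have hch := chern_tw hHM Y.chern 1 fun i => α i
  obtain ⟨x, hx, hxI⟩ := exists_int (j := j) (L := Q47.TB.tw M Y.c 1 fun i => α i)
    (h := fun e w => ((1 : ℕ) : ℂ) * (HM (j e) (j w) - ∑ i, (α i : ℂ) * Y.Hc i (j e) (j w)))
    ⟨_, hch, fun _ _ => rfl⟩
  have h3 : x ∈ effCone Γ j := ⟨{x}, fun b hb => by
    rw [Finset.mem_singleton.1 hb]
    exact ⟨_, _, ⟨_, hch, fun e w => by rw [hx]⟩, coeff_section hG α, v, hα⟩,
    mem_cone_self (Finset.mem_singleton_self x)⟩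
  refine ⟨x, eff_nef hΓ h3, ?_⟩
  rw [Prod.ext_iff]
  simp only [Prod.fst_add, Prod.snd_add, dv_fst, dv_snd, lft_fst, lft_snd, add_zero]
  refine ⟨?_, ?_⟩
  · rw [h1, cls_eq]
    refine ⟨fun k => -(z k : ℝ), ?_⟩
    ext i
    have h4 := hz i
    simp only at h4
    have h5 : ((α i : ℕ) : ℝ) = d i + ∑ k, (z k : ℝ) * Y.u i k := by exact_mod_cast h4
    rw [Pi.add_apply, h5, chr_apply]
    simp [Finset.sum_neg_distrib]
  · apply Subtype.ext
    funext e w
    have h4 : (∑ i, (α i : ℝ) • Y.h j i + x : N1 Γ j).1 e w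
        = (∑ i, (α i : ℝ) • Y.h j i : N1 Γ j).1 e w + x.1 e w := rfl
    rw [h4, coe_sum_N1, hx, h2]
    change _ = _ + ((1 : ℕ) : ℂ) * _
    rw [Nat.cast_one, one_mul]
    simp only [Complex.ofReal_natCast]
    change HM (j e) (j w) = ∑ i, (α i : ℂ) * Y.Hc i (j e) (j w) + _
    ring

omit [FiniteDimensional ℂ V] in
/-- A movable line bundle has a section whose equation is not divisible by `x_i`. -/
theorem exists_coeff {d : ι → ℤ} {M : LineBundle Γ} (hM : Q47.CP.IsMovable Y d M) {t : Set ι}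
    (ht : t ∈ Y.S) (hts : t.Subsingleton) : ∃ G, IsSection Y.u Y.c d M.e G ∧
      ∃ (α : ι →₀ ℕ) (v : V), (∀ i ∈ t, α i = 0) ∧ coeff α (G v) ≠ 0 := by
  classical
  by_contra hcon
  push Not at hcon
  let p : V × (ι → ℂ) := (0, fun i => if i ∈ t then 0 else 1)
  have hpt : ({i | p.2 i = 0} : Set ι) = t := by
    ext i
    simp only [p, Set.mem_ofPred_eq]
    split_ifs with h <;> simp [h]
  rcases hts.eq_empty_or_singleton with rfl | ⟨i₀, rfl⟩
  · obtain ⟨G, hG, hne⟩ := hM p (fun _ => 0) (by rw [hpt]; exact ht)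
      (Eventually.of_forall fun q => differentiableAt_const _) rfl
    refine hne ⟨fun _ => 0, Eventually.of_forall fun q => differentiableAt_const _,
      Eventually.of_forall fun q => ?_⟩
    have h1 : G q.1 = 0 := by
      ext α
      rw [coeff_zero]
      exact hcon G hG α q.1 fun i hi => hi.elim
    rw [h1, map_zero, mul_zero]
  · have hhol : Q47.CP.HoloNear (fun q : V × (ι → ℂ) => q.2 i₀) p :=
      Eventually.of_forall fun q => by fun_prop
    obtain ⟨G, hG, hne⟩ := hM p (fun q => q.2 i₀) (by rw [hpt]; exact ht) hhol (by simp [p])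
    apply hne
    let A := (finite_class Y.fan d).toFinset
    refine ⟨fun q => ∑ α ∈ A, coeff α (G q.1) * ∏ k, q.2 k ^ (if k = i₀ then α k - 1 else α k),
      Eventually.of_forall fun q => ?_, Eventually.of_forall fun q => ?_⟩
    · refine DifferentiableAt.fun_sum fun α _ => ?_
      refine DifferentiableAt.mul ?_ ?_
      · exact (hG.holo α q.1).comp q differentiableAt_fst
      · exact Q47.TB.prod_diff Finset.univ
          (fun k (q : V × (ι → ℂ)) => q.2 k ^ (if k = i₀ then α k - 1 else α k))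
          (fun k => by fun_prop) q
    · rw [eval_eq' , Finset.mul_sum]
      have hsub : (G q.1).support ⊆ A := fun α hα =>
        (finite_class Y.fan d).mem_toFinset.2 (hG.deg q.1 α hα)
      rw [Finset.sum_subset hsub fun α _ hα => by rw [notMem_support_iff.1 hα, zero_mul]]
      refine Finset.sum_congr rfl fun α _ => ?_
      by_cases h0 : coeff α (G q.1) = 0
      · rw [h0, zero_mul, zero_mul, mul_zero]
      · have hα : α i₀ ≠ 0 := fun h => h0 (hcon G hG α q.1 fun i hi => by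
          rw [Set.mem_singleton_iff.1 hi, h])
        have h1 : ∏ k, q.2 k ^ α k
            = q.2 i₀ * ∏ k, q.2 k ^ (if k = i₀ then α k - 1 else α k) := by
          rw [← Finset.mul_prod_erase _ _ (Finset.mem_univ i₀),
            ← Finset.mul_prod_erase _ (fun k => q.2 k ^ (if k = i₀ then α k - 1 else α k))
              (Finset.mem_univ i₀), if_pos rfl, ← mul_assoc, mul_comm (q.2 i₀) (q.2 i₀ ^ _),
            ← pow_succ, Nat.sub_add_cancel (Nat.one_le_iff_ne_zero.2 hα)]
          congr 1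
          refine Finset.prod_congr rfl fun k hk => ?_
          rw [if_neg (Finset.ne_of_mem_erase hk)]
        rw [h1]
        ring

omit [FiniteDimensional ℂ E] in
/-- The classes of movable line bundles. -/
theorem NF_of_movable (hΓ : IsTorusQuotient Γ) {d : ι → ℤ} {M : LineBundle Γ} {p : NY Y j}
    (hp : IsClassY Y j d M p) (hM : Q47.CP.IsMovable Y d M) :
    p ∈ NF Y.u (nefCone Γ j) (Y.h j) {t | t ∈ Y.S ∧ t.Subsingleton} := by
  rintro t ⟨ht, hts⟩
  obtain ⟨G, hG, α, v, hα, h0⟩ := exists_coeff hM ht hts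
  obtain ⟨x, hx, hpx⟩ := rep_of_coeff hΓ hp hG h0
  exact ⟨_, fun i => Nat.cast_nonneg _, fun i hi => by rw [hα i hi, Nat.cast_zero], x, hx, hpx⟩

end Q47.CY
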