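import Pool.Agent.Q47.CY.Def
import Pool.Agent.Q43.CC.Defs

/-!
# Toric bundles over quotients of complex tori: cones of divisors and automorphisms

The same notions as in `Pool.Agent.Q47.CY.St`, in the form used in the proofs.
-/

set_option autoImplicit false

namespace Q47.CY

open Pool.Agent.W594.SYZ2 Pool.Agent.TH735.AQ Q47.TB Q47.AL MvPolynomial
open Pool.Agent.Y167 (AffGrp N1 N1s nefCone Integral cone IsClass Normalizes)
open Pool.Agent.Y167.CC (LinGrp Preserves IsFundDomain)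
open Q43.CC (Over)

section Classes

variable {ι : Type*} {n : ℕ}

/-- The class of the divisor as a linear map. -/
def clsL (u : ι → Fin n → ℤ) : (ι → ℝ) →ₗ[ℝ] Cl u := Submodule.mkQ (LinearMap.range (chr u))

variable {N : Type*} [AddCommGroup N] [Module ℝ N]

/-- The class of `∑ δ_i D_i` on the toric bundle `Y`, where `D_i` is the divisor `x_i = 0`, a section
of the line bundle `O_Y(e_i; c_i)`, and `h_i` is the class of `c_i` in the space `N = N^1(X/Z)`. The
class of the line bundle `O_Y(d; M)` is the pair of the class of `∑ d_i D_i` on the fibre and of the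
class of `M`; hence `D_i` has the class `(e_i, h_i)`. -/
noncomputable def dv [Fintype ι] (u : ι → Fin n → ℤ) (h : ι → N) : (ι → ℝ) →ₗ[ℝ] Cl u × N :=
  LinearMap.prod (clsL u) (∑ i, (LinearMap.proj i).smulRight (h i))

/-- The pullback of a class from `X` to `Y`. -/
noncomputable def lft (u : ι → Fin n → ℤ) : N →ₗ[ℝ] Cl u × N := LinearMap.inr ℝ (Cl u) N

end Classes

variable {V W E : Type*} [NormedAddCommGroup V] [NormedSpace ℂ V] [NormedAddCommGroup W]
  [NormedSpace ℂ W] [NormedAddCommGroup E] [NormedSpace ℂ E] {Γ : AffGrp V}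

/-- The class in `N^1(X/Z)` of a line bundle on `X`. -/
noncomputable def clsE (j : E →ₗ[ℂ] V) {L : LineBundle Γ} {H : V → V → ℂ}
    (hL : IsChernForm L H) : N1 Γ j :=
  ⟨fun u w => H (j u) (j w), Submodule.subset_span ⟨L, H, hL, fun _ _ => rfl⟩⟩

variable {ι : Type*} [Fintype ι] {n : ℕ}

/-- The classes `h_i` of the line bundles `c_i`. -/
noncomputable def Bundle.h (Y : Bundle Γ ι n) (j : E →ₗ[ℂ] V) (i : ι) : N1 Γ j :=
  clsE j (Y.chern i)

/-- The space `N^1(Y/Z)`. -/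
abbrev NY (Y : Bundle Γ ι n) (j : E →ₗ[ℂ] V) : Type _ := Cl Y.u × N1 Γ j

/-- `p` is the class of the line bundle `O_Y(d; M)`. -/
def IsClassY (Y : Bundle Γ ι n) (j : E →ₗ[ℂ] V) (d : ι → ℤ) (M : LineBundle Γ)
    (p : NY Y j) : Prop :=
  p.1 = cls Y.u (fun i => (d i : ℝ)) ∧ IsClass j M p.2.1

/-- The integral classes: the classes of line bundles on `Y`. -/
def intY (Y : Bundle Γ ι n) (j : E →ₗ[ℂ] V) : Set (NY Y j) :=
  {p | ∃ (d : ι → ℤ) (M : LineBundle Γ), IsClassY Y j d M p}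

/-- The cone `Eff(Y/Z)`: the convex cone spanned by the classes of the line bundles on `Y` which have
a nonzero section. -/
def effY (Y : Bundle Γ ι n) (j : E →ₗ[ℂ] V) : Set (NY Y j) :=
  {p | ∃ A : Finset (NY Y j), (∀ a ∈ A, ∃ (d : ι → ℤ) (M : LineBundle Γ), IsClassY Y j d M a ∧
    ∃ G, IsSection Y.u Y.c d M.e G ∧ ∃ v, G v ≠ 0) ∧ p ∈ cone A}

/-- The cone `Nef(Y/Z)`: for each cone `σ` of the fan the class is the sum of the class of a divisor
`∑ β_i D_i`, `β_i ≥ 0`, with `β_i = 0` for `i ∈ σ`, and of the pullback of a class on `X` which is nef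
over `Z`. (Such classes are nonnegative on all curves `C` in the fibres of `Y → Z`: take `σ` such that
`D_i` contains a general point of `C` if and only if `i ∈ σ`. Conversely the restrictions of a nef
class to the fibres of `Y → X`, and to the sections `X → Y` given by the loci `x_i = 0`, `i ∈ σ`,
for the maximal cones `σ`, are nef.) -/
def nefY (Y : Bundle Γ ι n) (j : E →ₗ[ℂ] V) : Set (NY Y j) :=
  {p | ∀ σ ∈ Y.S, ∃ β : ι → ℝ, (∀ i, 0 ≤ β i) ∧ (∀ i ∈ σ, β i = 0) ∧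
    ∃ x ∈ nefCone Γ j, p = dv Y.u (Y.h j) β + lft Y.u x}

/-- The transformation `(v, x) ↦ (f v, (a_i(v) x_i)_i)` of `V × ℂ^ι` induces an automorphism of `Y`:
`f` is an affine transformation of `V` which induces an automorphism of `X`, the functions `a_i` are
holomorphic without zeros, and the transformation is compatible with the action of `Γ` up to the
group `G` of the `t ∈ (ℂ^*)^ι` with `∏ t_i ^ (u_i)_k = 1`. -/
structure IsAutY (Y : Bundle Γ ι n) (f : V ≃ᵃ[ℂ] V) (a : ι → V → ℂ) : Prop where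
  norm : Normalizes Γ f
  holo : ∀ i, Differentiable ℂ (a i)
  ne_zero : ∀ i v, a i v ≠ 0
  eq : ∀ γ γ' : Γ, (γ' : V ≃ᵃ[ℂ] V) = f * γ * f⁻¹ → ∀ (v : V) (k : Fin n),
    ∏ i, (a i ((γ : V ≃ᵃ[ℂ] V) v) * (Y.c i).e γ v) ^ Y.u i k =
      ∏ i, (a i v * (Y.c i).e γ' (f v)) ^ Y.u i k

/-- `g` is the pullback on `N^1(Y/Z)` by an automorphism of `Y` given by
`(v, x) ↦ (f v, (a_i(v) x_i)_i)`: it fixes the classes of the divisors `D_i`, and it maps the pullback
of a class `z` on `X` to the pullback of `f^* z`. -/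
def IsPullbackY (Y : Bundle Γ ι n) (j : E →ₗ[ℂ] V) (f : V ≃ᵃ[ℂ] V) (g : NY Y j ≃ₗ[ℝ] NY Y j) :
    Prop :=
  (∀ β, g (dv Y.u (Y.h j) β) = dv Y.u (Y.h j) β) ∧
    ∀ z z' : N1 Γ j, (∀ e w e' w' : E, j e' = f.linear (j e) → j w' = f.linear (j w) →
      z'.1 e w = z.1 e' w') → g (lft Y.u z) = lft Y.u z'

variable {Y : Bundle Γ ι n} {r : ℕ}

/-- `K_Y + Δ` is numerically trivial over `Z`: here `K = O_X(m K_X)`, `m ≥ 1`, is a line bundle on `X`
with the Chern form `HK`, `ρ` defines the ramification divisor of `V → X`, and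
`K_Y = π^* K_X - ∑ D_i`. -/
def Bdry.IsCY (Δ : Bdry Y r) (j : E →ₗ[ℂ] V) : Prop :=
  ∃ (m : ℕ) (ρ : V → ℂ) (K : LineBundle Γ) (HK : V → V → ℂ) (hK : IsChernForm K HK), 1 ≤ m ∧
    IsRamification Γ ρ ∧ Pool.Agent.TH735.AQ.IsLogPluricanonical K m ρ (fun _ => 1) ∧
    (1 / m : ℝ) • lft Y.u (clsE j hK) - dv Y.u (Y.h j) (fun _ => 1) +
      ∑ l, Δ.δ l • (cls Y.u (fun i => (Δ.d l i : ℝ)), clsE j (Δ.chern l)) = 0

/-- The group generated by the pullbacks by those automorphisms of `Y` over `Z = W / Γ'` of the form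
`(v, x) ↦ (f v, (a_i(v) x_i)_i)` which map all `B_j` to themselves. -/
noncomputable def Bdry.grp (Δ : Bdry Y r) (Γ' : AffGrp W) (π : V →ₗ[ℂ] W) (j : E →ₗ[ℂ] V) :
    LinGrp (NY Y j) :=
  Subgroup.closure {g | ∃ (f : V ≃ᵃ[ℂ] V) (a : ι → V → ℂ), IsAutY Y f a ∧ Over Γ' π f ∧
    Δ.IsFixedBy f a ∧ IsPullbackY Y j f g}

/-- The group `𝒢` preserves a lattice in `N^1(Y/Z)` which is commensurable with the lattice of the
integral classes. -/
def PresLatt {j : E →ₗ[ℂ] V} (𝒢 : LinGrp (NY Y j)) : Prop :=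
  ∃ (M : AddSubgroup (NY Y j)) (k : ℕ), 0 < k ∧ (∀ x ∈ intY Y j, (k : ℝ) • x ∈ M) ∧
    (∀ x ∈ M, (k : ℝ) • x ∈ intY Y j) ∧ ∀ g ∈ 𝒢, ∀ x ∈ M, g x ∈ M

end Q47.CY
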