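import Pool.Agent.Y167.Dom
import Pool.Agent.Q47.CY.Stm

/-!
# Rational polyhedral cones, and the image of the characters
-/

set_option autoImplicit false

namespace Q47.CY

open Pool.Agent.Y167 (cone zero_mem_cone mem_cone_self cone_add cone_smul cone_sum cone_le
  cone_image cone_ind cone_cut)
open Q47.TB

section Poly

variable {K : Type*} [Fintype K]

theorem cone_orthant [DecidableEq K] (x : K → ℝ) :
    x ∈ cone (Finset.univ.image fun k : K => (Pi.single k 1 : K → ℝ)) ↔ ∀ k, 0 ≤ x k := by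
  constructor
  · intro hx k
    refine cone_ind (p := fun x : K → ℝ => 0 ≤ x k) (by simp) ?_ ?_ ?_ hx
    · intro x y hx hy
      exact add_nonneg hx hy
    · intro t x ht hx
      exact mul_nonneg ht hx
    · intro a ha
      obtain ⟨l, -, rfl⟩ := Finset.mem_image.1 ha
      by_cases h : k = l
      · subst h
        simp
      · simp [h]
  · intro hx
    have h1 : x = ∑ k, x k • (Pi.single k 1 : K → ℝ) := by
      ext l
      simp [Finset.sum_apply, Pi.single_apply]
    rw [h1]
    exact cone_sum _ _ fun k _ => cone_smul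
      (mem_cone_self (Finset.mem_image_of_mem _ (Finset.mem_univ k))) (hx k)

/-- The solutions of finitely many homogeneous inequalities with integral coefficients form a cone
generated by finitely many integral solutions. -/
theorem poly_gen (Φ : Finset ((K → ℝ) →ₗ[ℝ] ℝ))
    (hΦ : ∀ φ ∈ Φ, ∀ z : K → ℤ, ∃ n : ℤ, φ (fun k => (z k : ℝ)) = n) :
    ∃ S : Finset (K → ℝ), (∀ a ∈ S, ∃ z : K → ℤ, a = fun k => (z k : ℝ)) ∧
      ∀ x, x ∈ cone S ↔ (∀ k, 0 ≤ x k) ∧ ∀ φ ∈ Φ, 0 ≤ φ x := by
  classical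
  induction Φ using Finset.induction_on with
  | empty =>
    refine ⟨Finset.univ.image fun k : K => (Pi.single k 1 : K → ℝ), ?_, fun x => ?_⟩
    · intro a ha
      obtain ⟨l, -, rfl⟩ := Finset.mem_image.1 ha
      refine ⟨Pi.single l 1, ?_⟩
      ext k
      by_cases h : k = l
      · subst h
        simp
      · simp [h]
    · rw [cone_orthant]
      simp
  | insert φ Φ _ ih =>
    obtain ⟨S, hS, h1⟩ := ih fun ψ hψ => hΦ ψ (Finset.mem_insert_of_mem hψ)
    obtain ⟨S', hS', h2⟩ := cone_cut S φ (fun a => ∃ z : K → ℤ, a = fun k => (z k : ℝ)) hS (by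
      rintro a ha b hb - -
      obtain ⟨z, hz⟩ := hS a ha
      obtain ⟨w, hw⟩ := hS b hb
      obtain ⟨m, hm⟩ := hΦ φ (Finset.mem_insert_self _ _) z
      obtain ⟨n, hn⟩ := hΦ φ (Finset.mem_insert_self _ _) w
      rw [hz, hw, hm, hn]
      exact ⟨fun k => m * w k - n * z k, by ext k; simp⟩)
    refine ⟨S', hS', fun x => ?_⟩
    rw [h2, h1, Finset.forall_mem_insert]
    tauto

end Poly

section Chars

variable {ι : Type*} [Fintype ι] {n : ℕ}

omit [Fintype ι] in
theorem chr_apply (u : ι → Fin n → ℤ) (m : Fin n → ℝ) (i : ι) :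
    chr u m i = ∑ k, m k * u i k := rfl

/-- There are integral linear forms whose common zeros are the divisors of the characters. -/
theorem exists_tst {u : ι → Fin n → ℤ} {S : Set (Set ι)} (hS : IsSmoothFan u S) :
    ∃ (a : Fin n → ι → ℕ), (∀ (m : Fin n → ℝ) (k : Fin n), ∑ i, (a k i : ℝ) * chr u m i = m k) ∧
      ∀ v : ι → ℝ, (∀ i, v i = chr u (fun k => ∑ i, (a k i : ℝ) * v i) i) ↔ ∃ m, v = chr u m := by
  classical
  choose a ha _ using fun k : Fin n => hS.rep (Pi.single k 1)
  have h1 : ∀ (m : Fin n → ℝ) (k : Fin n), ∑ i, (a k i : ℝ) * chr u m i = m k := fun m k => by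
    have h2 : ∀ l, ∑ i, (a k i : ℝ) * u i l = if l = k then 1 else 0 := fun l => by
      have h3 := (ha k).2 l
      rw [Pi.single_apply] at h3
      exact_mod_cast h3
    simp only [chr_apply, Finset.mul_sum]
    rw [Finset.sum_comm]
    have h4 : ∀ l, ∑ i, (a k i : ℝ) * (m l * u i l) = m l * ∑ i, (a k i : ℝ) * u i l := fun l => by
      rw [Finset.mul_sum]
      exact Finset.sum_congr rfl fun i _ => by ring
    simp only [h4, h2]
    simp
  refine ⟨a, h1, fun v => ⟨fun h => ⟨_, funext h⟩, ?_⟩⟩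
  rintro ⟨m, rfl⟩ i
  simp only [h1]

theorem clear_den {B : Type*} [Fintype B] (l : B → ℚ) :
    ∃ (M : ℕ) (m : B → ℤ), 1 ≤ M ∧ ∀ b, (m b : ℚ) = M * l b := by
  classical
  refine ⟨∏ b, (l b).den, fun b => (∏ c ∈ Finset.univ.erase b, (l c).den : ℕ) * (l b).num,
    Finset.prod_pos fun b _ => (l b).den_pos, fun b => ?_⟩
  have h3 : ((l b).num : ℚ) = (l b).den * l b := by
    rw [mul_comm]
    exact (Rat.mul_den_eq_num (l b)).symm
  rw [Int.cast_mul, h3, ← Finset.mul_prod_erase Finset.univ (fun c => (l c).den)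
    (Finset.mem_univ b)]
  push_cast
  ring

/-- The character which makes the coefficients at the rays of a cone vanish. -/
theorem exists_vanish {u : ι → Fin n → ℤ} {S : Set (Set ι)} (hS : IsSmoothFan u S) {σ : Set ι}
    (hσ : σ ∈ S) (v : ι → ℝ) : ∃ m, ∀ i ∈ σ, v i + chr u m i = 0 := by
  classical
  -- the rays of a cone are linearly independent over `ℚ`
  have hli : LinearIndependent ℚ (fun i : σ => (fun k => (u i k : ℚ) : Fin n → ℚ)) := by
    rw [Fintype.linearIndependent_iff]
    intro g hg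
    obtain ⟨M, c, hM, hc⟩ := clear_den g
    have h1 : ∀ k, ∑ i : σ, c i * u i k = 0 := fun k => by
      have h2 := congrFun hg k
      simp only [Finset.sum_apply, Pi.smul_apply, smul_eq_mul, Pi.zero_apply] at h2
      have h3 : ((∑ i : σ, c i * u i k : ℤ) : ℚ) = M * ∑ i : σ, g i * u i k := by
        push_cast
        rw [Finset.mul_sum]
        exact Finset.sum_congr rfl fun i _ => by rw [hc]; ring
      rw [h2, mul_zero] at h3
      exact_mod_cast h3
    let p : ι → ℕ := fun i => if h : i ∈ σ then (c ⟨i, h⟩).toNat else 0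
    let q : ι → ℕ := fun i => if h : i ∈ σ then (-c ⟨i, h⟩).toNat else 0
    have hpq : ∀ i : σ, (p i : ℤ) - q i = c i := fun i => by
      simp only [p, q, i.2, dif_pos, Subtype.coe_eta]
      omega
    have hp : {i | p i ≠ 0} ∈ S := hS.face σ hσ _ fun i hi => by
      by_contra hc'
      exact hi (dif_neg hc')
    have hq : {i | q i ≠ 0} ∈ S := hS.face σ hσ _ fun i hi => by
      by_contra hc'
      exact hi (dif_neg hc')
    have hsum : ∀ (f : ι → ℕ), (∀ i, i ∉ σ → f i = 0) → ∀ k,
        ∑ i, (f i : ℤ) * u i k = ∑ i : σ, (f i : ℤ) * u i k := fun f hf k => by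
      rw [← Fintype.sum_subtype_add_sum_subtype (fun i => i ∈ σ) fun i => (f i : ℤ) * u i k]
      have e0 : ∑ i : {x // ¬ x ∈ σ}, (f i : ℤ) * u i k = 0 := Finset.sum_eq_zero fun i _ => by
        rw [hf i i.2]
        simp
      rw [e0, add_zero]
    have heq : p = q := by
      obtain ⟨a, -, huniq⟩ := hS.rep fun k => ∑ i, (p i : ℤ) * u i k
      have e1 := huniq p ⟨hp, fun k => rfl⟩
      have e2 := huniq q ⟨hq, fun k => by
        rw [hsum p (fun i hi => dif_neg hi), hsum q (fun i hi => dif_neg hi), ← sub_eq_zero,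
          ← Finset.sum_sub_distrib]
        have h4 := h1 k
        rw [← neg_eq_zero, ← Finset.sum_neg_distrib] at h4
        rw [← h4]
        refine Finset.sum_congr rfl fun i _ => ?_
        rw [← hpq i]
        ring⟩
      rw [e1, e2]
    intro i
    have h5 : c i = 0 := by
      rw [← hpq i, heq]
      ring
    have h6 : (M : ℚ) * g i = 0 := by
      rw [← hc, h5]
      simp
    have hM' : (M : ℚ) ≠ 0 := by
      have : 0 < M := hM
      exact_mod_cast this.ne'
    exact (mul_eq_zero.1 h6).resolve_left hM'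
  -- the dual vectors
  have hdual : ∀ i₀ : σ, ∃ m : Fin n → ℚ, ∀ i : σ, ∑ k, m k * (u i k : ℚ)
      = if i = i₀ then 1 else 0 := fun i₀ => by
    let B := Module.Basis.span hli
    obtain ⟨g, hg⟩ := LinearMap.exists_extend (B.constr ℚ fun i => if i = i₀ then (1 : ℚ) else 0)
    refine ⟨fun k => g (Pi.single k 1), fun i => ?_⟩
    have h1 : (fun k => (u i k : ℚ)) = ∑ k, (u i k : ℚ) • (Pi.single k (1 : ℚ) : Fin n → ℚ) := by
      ext l
      simp [Finset.sum_apply, Pi.single_apply]
    have h2 : g (fun k => (u i k : ℚ)) = if i = i₀ then 1 else 0 := by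
      have h3 : ((B i : Submodule.span ℚ _) : Fin n → ℚ) = fun k => (u i k : ℚ) :=
        congrArg Subtype.val (Module.Basis.span_apply hli i)
      rw [← h3]
      have h4 := congrArg (fun f => f (B i)) hg
      simp only [LinearMap.comp_apply, Submodule.subtype_apply] at h4
      rw [h4, Module.Basis.constr_basis]
    rw [← h2, h1, map_sum]
    exact Finset.sum_congr rfl fun k _ => by rw [map_smul, smul_eq_mul, mul_comm]
  choose m hm using hdual
  refine ⟨fun k => ∑ i₀ : σ, -v i₀ * (m i₀ k : ℝ), fun i hi => ?_⟩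
  rw [chr_apply]
  have h1 : ∀ i₀ : σ, ∑ k, (m i₀ k : ℝ) * (u i k : ℝ) = if (⟨i, hi⟩ : σ) = i₀ then 1 else 0 :=
    fun i₀ => by
      have h2 := hm i₀ ⟨i, hi⟩
      have h3 : ((∑ k, m i₀ k * (u i k : ℚ) : ℚ) : ℝ)
          = ((if (⟨i, hi⟩ : σ) = i₀ then (1 : ℚ) else 0 : ℚ) : ℝ) := by
        rw [h2]
      push_cast at h3
      rw [h3]
      split_ifs <;> simp
  simp only [Finset.sum_mul]
  rw [Finset.sum_comm]
  have h4 : ∀ i₀ : σ, ∑ k, -v i₀ * (m i₀ k : ℝ) * (u i k : ℝ)
      = -v i₀ * if (⟨i, hi⟩ : σ) = i₀ then 1 else 0 := fun i₀ => by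
    rw [← h1, Finset.mul_sum]
    exact Finset.sum_congr rfl fun k _ => by ring
  simp only [h4]
  simp

end Chars

end Q47.CY
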