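import Pool.Agent.Q47.CY.Top
import Pool.Agent.TH735.AQ.Uniq

/-!
# Interior classes of a toric bundle
-/

set_option autoImplicit false

namespace Q47.CY

open Filter Topology
open Pool.Agent.W594.SYZ2 Pool.Agent.W594.SYZ2.TQ Pool.Agent.TH735.AQ
open Pool.Agent.Y167
open Q47.TB Q47.AL

section Comb

variable {ι : Type*} [Fintype ι] {n : ℕ} {N : Type*} [AddCommGroup N] [Module ℝ N]

/-- Equality of integral classes on the toric variety. -/
theorem linEquiv_of_cls {u : ι → Fin n → ℤ} {S : Set (Set ι)} (hS : IsSmoothFan u S)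
    {a b : ι → ℤ} (h : cls u (fun i => (a i : ℝ)) = cls u (fun i => (b i : ℝ))) :
    LinEquiv u a b := by
  classical
  obtain ⟨m, hm⟩ := cls_eq.1 h
  have h1 : ∀ i, (a i : ℝ) = b i + ∑ k, m k * u i k := fun i => by
    have := congrFun hm i
    rwa [Pi.add_apply, chr_apply] at this
  have h2 : ∀ w : Fin n → ℤ, ∃ z : ℤ, ∑ k, m k * w k = z := by
    intro w
    obtain ⟨c, ⟨-, hc⟩, -⟩ := hS.rep w
    refine ⟨∑ i, (c i : ℤ) * (a i - b i), ?_⟩
    have h3 : ∀ k, (w k : ℝ) = ∑ i, (c i : ℝ) * u i k := fun k => by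
      rw [← hc k]
      push_cast
      rfl
    push_cast
    calc ∑ k, m k * (w k : ℝ) = ∑ k, ∑ i, (c i : ℝ) * (m k * u i k) := by
          refine Finset.sum_congr rfl fun k _ => ?_
          rw [h3, Finset.mul_sum]
          exact Finset.sum_congr rfl fun i _ => by ring
      _ = ∑ i, (c i : ℝ) * ((a i : ℝ) - b i) := by
          rw [Finset.sum_comm]
          refine Finset.sum_congr rfl fun i _ => ?_
          rw [← Finset.mul_sum, h1 i]
          ring
  have h3 : ∀ k, ∃ z : ℤ, m k = z := fun k => by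
    obtain ⟨z, hz⟩ := h2 (Pi.single k 1)
    refine ⟨z, ?_⟩
    rw [← hz]
    simp [Pi.single_apply]
  choose z hz using h3
  refine ⟨z, fun i => ?_⟩
  have := h1 i
  simp only [hz] at this
  exact_mod_cast this

/-- An integral class with ample coefficients in all charts. -/
theorem exists_int_pt {u : ι → Fin n → ℤ} {S : Set (Set ι)} {L : AddSubgroup N}
    {nef : Set N} {h : ι → N} (hh : ∀ i, h i ∈ L) {ξ : N →ₗ[ℝ] ℝ} {y : N} {Y : Finset N}
    (D : CData L nef ξ y Y) {d : ι → ℤ} (hd : IsFibreAmple u S d) :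
    ∃ y' ∈ LY u L, ∀ t ∈ S, ∃ (b : ι → ℕ) (x : N), (∀ i ∈ t, b i = 0) ∧ x ∈ L ∧
      x - y ∈ nef ∧ y' = dv u h (fun i => (b i : ℝ)) + lft u x := by
  classical
  obtain ⟨K, hK, hKd⟩ := exists_mult hd
  have hTfin : Finite {t // t ∈ S} := inferInstance
  let _ : Fintype {t // t ∈ S} := Fintype.ofFinite _
  choose b hb0 m hm using fun t : {t // t ∈ S} => hKd t.1 t.2
  choose C₁ hC₁ hC₁' using fun t => D.y_int (∑ i, (b t i : ℝ) • h i + y)
  let B₀ : ℕ := ⌈∑ t, C₁ t⌉₊
  have hB₀ : ∀ t, C₁ t ≤ B₀ := fun t =>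
    (Finset.single_le_sum (f := C₁) (fun s _ => (hC₁ s).le) (Finset.mem_univ t)).trans
      (Nat.le_ceil _)
  let x₀ : N := (B₀ : ℝ) • y
  have hx₀L : x₀ ∈ L := by
    simp only [x₀]
    rw [Nat.cast_smul_eq_nsmul]
    exact L.nsmul_mem D.y_L _
  have hx₀ : ∀ t, x₀ - ∑ i, (b t i : ℝ) • h i - y ∈ nef := fun t => by
    have h1 := y_mono D (hC₁' t) (hB₀ t)
    have h2 : (B₀ : ℝ) • y - (∑ i, (b t i : ℝ) • h i + y) = x₀ - ∑ i, (b t i : ℝ) • h i - y := by
      simp only [x₀]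
      abel
    rwa [h2] at h1
  refine ⟨(cls u fun i => ((K * d i : ℤ) : ℝ), x₀), ⟨⟨fun i => K * d i, rfl⟩, hx₀L⟩, ?_⟩
  intro t ht
  refine ⟨b ⟨t, ht⟩, x₀ - ∑ i, (b ⟨t, ht⟩ i : ℝ) • h i, fun i hi => (hb0 ⟨t, ht⟩ i).2 hi,
    L.sub_mem hx₀L (L.sum_mem fun i _ => ?_), hx₀ ⟨t, ht⟩, ?_⟩
  · rw [Nat.cast_smul_eq_nsmul]
    exact L.nsmul_mem (hh i) _
  · rw [Prod.ext_iff]
    simp only [Prod.fst_add, Prod.snd_add, dv_fst, dv_snd, lft_fst, lft_snd, add_zero]
    refine ⟨?_, by abel⟩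
    rw [cls_eq]
    refine ⟨fun k => -(m ⟨t, ht⟩ k : ℝ), ?_⟩
    ext i
    have h1 := hm ⟨t, ht⟩ i
    have h2 : ((b ⟨t, ht⟩ i : ℕ) : ℝ) = K * d i + ∑ k, (m ⟨t, ht⟩ k : ℝ) * u i k := by
      exact_mod_cast h1
    rw [Pi.add_apply, h2, chr_apply]
    push_cast
    simp [Finset.sum_neg_distrib]

end Comb

section Pos

variable {V E : Type*} [NormedAddCommGroup V] [NormedSpace ℂ V] [FiniteDimensional ℂ V]
  [NormedAddCommGroup E] [NormedSpace ℂ E] [FiniteDimensional ℂ E] {Γ : Subgroup (V ≃ᵃ[ℂ] V)}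
  {j : E →ₗ[ℂ] V} {H₀ : V → V → ℂ}

omit [FiniteDimensional ℂ V] in
theorem sesq_smul {H : V → V → ℂ} (hH : IsHermitian H) (a : ℂ) (v : V) :
    (H (a • v) (a • v)).re = ‖a‖ ^ 2 * (H v v).re := by
  rw [hH.smul_left, h_smul_right hH, ← mul_assoc, Complex.mul_conj, Complex.re_ofReal_mul,
    Complex.normSq_eq_norm_sq]

/-- A large multiple of a semidefinite form makes a form positive definite which is so on the
kernel. -/
theorem exists_pos_twist {H P : V → V → ℂ} (hH : IsHermitian H) (hP : IsHermitian P)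
    (hP0 : IsNefForm P) (hE : ∀ v, v ≠ 0 → (P v v).re = 0 → 0 < (H v v).re) :
    ∃ K₀ : ℕ, ∀ K : ℕ, K₀ ≤ K → ∀ v, v ≠ 0 → 0 < (H v v).re + K * (P v v).re := by
  have hHc := diag_continuous hH
  have hPc := diag_continuous hP
  have : ProperSpace V := FiniteDimensional.proper ℂ V
  have hsph : IsCompact (Metric.sphere (0 : V) 1) := isCompact_sphere _ _
  have key : ∃ K₀ : ℕ, ∀ K : ℕ, K₀ ≤ K → ∀ v ∈ Metric.sphere (0 : V) 1,
      0 < (H v v).re + K * (P v v).re := by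
    by_contra hcon
    push Not at hcon
    choose K hK v hv hle using hcon
    obtain ⟨w, hw, φ, hφ, hlim⟩ := hsph.tendsto_subseq hv
    have h1 : ∀ m, (K m : ℝ) * (P (v m) (v m)).re ≤ -(H (v m) (v m)).re := fun m => by
      linarith [hle m]
    obtain ⟨C, hC⟩ := hsph.exists_bound_of_continuousOn hHc.continuousOn
    have hCn : 0 ≤ C := (norm_nonneg _).trans (hC w hw)
    have h2 : ∀ m : ℕ, 1 ≤ m → (P (v m) (v m)).re ≤ C / m := by
      intro m hm
      have hmr : (0 : ℝ) < m := by exact_mod_cast hm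
      rw [le_div_iff₀ hmr]
      have h3 : (P (v m) (v m)).re * m ≤ K m * (P (v m) (v m)).re := by
        rw [mul_comm]
        exact mul_le_mul_of_nonneg_right (by exact_mod_cast hK m) (hP0 _)
      have h4 : -(H (v m) (v m)).re ≤ C := by
        have := hC (v m) (hv m)
        rw [Real.norm_eq_abs] at this
        linarith [neg_abs_le (H (v m) (v m)).re]
      linarith [h1 m]
    have h5 : (P w w).re ≤ 0 := by
      have h6 : Tendsto (fun m => (P (v (φ m)) (v (φ m))).re) atTop (𝓝 (P w w).re) :=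
        (hPc.tendsto w).comp hlim
      have h7 : Tendsto (fun m => C / ((φ m : ℕ) : ℝ)) atTop (𝓝 0) :=
        (tendsto_const_div_atTop_nhds_zero_nat C).comp hφ.tendsto_atTop
      refine le_of_tendsto_of_tendsto h6 h7 ?_
      filter_upwards [eventually_ge_atTop 1] with m hm
      exact h2 _ (hm.trans (hφ.id_le m))
    have hw0 : w ≠ 0 := by
      rintro rfl
      simp at hw
    have h8 := hE w hw0 (le_antisymm h5 (hP0 w))
    have h9 : (H w w).re ≤ 0 := by
      have h6 : Tendsto (fun m => (H (v (φ m)) (v (φ m))).re) atTop (𝓝 (H w w).re) :=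
        (hHc.tendsto w).comp hlim
      refine le_of_tendsto' h6 fun m => ?_
      have h10 : 0 ≤ (K (φ m) : ℝ) * (P (v (φ m)) (v (φ m))).re :=
        mul_nonneg (Nat.cast_nonneg _) (hP0 _)
      linarith [h1 (φ m)]
    linarith
  obtain ⟨K₀, hK₀⟩ := key
  refine ⟨K₀, fun K hK v hv => ?_⟩
  have hn : ‖v‖ ≠ 0 := norm_ne_zero_iff.2 hv
  have h1 := hK₀ K hK (((‖v‖⁻¹ : ℝ) : ℂ) • v) (by
    rw [mem_sphere_zero_iff_norm, norm_smul, Complex.norm_real, norm_inv, norm_norm,
      inv_mul_cancel₀ hn])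
  rw [sesq_smul hH, sesq_smul hP, Complex.norm_real, norm_inv, norm_norm] at h1
  have h2 : 0 < (‖v‖⁻¹) ^ 2 := by positivity
  have h3 : (‖v‖⁻¹) ^ 2 * (H v v).re + K * ((‖v‖⁻¹) ^ 2 * (P v v).re)
      = (‖v‖⁻¹) ^ 2 * ((H v v).re + K * (P v v).re) := by ring
  rw [h3] at h1
  exact (mul_pos_iff_of_pos_left h2).1 h1

/-- A line bundle whose Chern form vanishes exactly in the directions of the fibres. -/
theorem exists_base_bundle (R : Rel Γ j H₀) :
    ∃ (B : LineBundle Γ) (P : V → V → ℂ), IsChernForm B P ∧ IsNefForm P ∧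
      (∀ v, (P v v).re = 0 → ∃ e, v = j e) ∧ ∀ e e', P (j e) (j e') = 0 := by
  obtain ⟨q, hq1, hq2, hq3, m, hm, hmq⟩ := R.exists_q
  have hH := R.herm
  let P : V → V → ℂ := fun v w => H₀ v w - H₀ (j (q v)) (j (q w))
  have hP : IsHermitian P := by
    refine ⟨fun u v w => ?_, fun a v w => ?_, fun v w => ?_⟩
    · simp only [P, map_add, hH.add_left]
      ring
    · simp only [P, map_smul, hH.smul_left]
      ring
    · simp only [P, map_sub]
      rw [← hH.symm, ← hH.symm]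
  have hPd : ∀ v, P v v = H₀ (v - j (q v)) (v - j (q v)) := by
    intro v
    have h1 : H₀ (j (q v)) v = H₀ (j (q v)) (j (q v)) := (hq1 _ _).symm
    have h2 : H₀ v (j (q v)) = H₀ (j (q v)) (j (q v)) := by
      rw [hH.symm (j (q v)) v, h1, ← hH.symm]
    have h3 : v - j (q v) = v + (-1 : ℂ) • j (q v) := by rw [neg_one_smul, sub_eq_add_neg]
    rw [h3, hH.add_left, h_add_right hH, h_add_right hH, hH.smul_left, hH.smul_left,
      h_smul_right hH, h_smul_right hH, h1, h2]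
    simp only [P, map_neg, map_one]
    ring
  have hn : IsNefForm P := by
    intro v
    rw [hPd]
    by_cases h : v - j (q v) = 0
    · rw [h]
      have : H₀ (0 : V) 0 = 0 := by
        have := hH.smul_left 0 (0 : V) 0
        rwa [zero_smul, zero_mul] at this
      rw [this, Complex.zero_re]
    · exact (R.pos _ h).le
  obtain ⟨k, hk, L, hL, -⟩ := exists_bpf (H := P) R.tq hP hn (by
      intro γ hγ v w
      obtain ⟨x, hx1, hx2⟩ := R.exists_opE γ hγ
      simp only [P]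
      rw [hq3 γ hγ x hx2, hq3 γ hγ x hx2, hx2, hx2, R.inv γ hγ, R.inv γ hγ]) (k := m ^ 2)
      (by positivity) (by
      intro b hb c hc
      obtain ⟨n₁, hn₁⟩ := R.int hb hc
      obtain ⟨n₂, hn₂⟩ := R.int (show j ((m : ℝ) • q b) ∈ latt Γ from hmq b hb)
        (show j ((m : ℝ) • q c) ∈ latt Γ from hmq c hc)
      refine ⟨(m : ℤ) ^ 2 * n₁ - n₂, ?_⟩
      have h1 : ∀ e : E, j ((m : ℝ) • e) = (m : ℂ) • j e := fun e => by
        rw [← Complex.coe_smul, map_smul, Complex.ofReal_natCast]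
      rw [h1, h1, hH.smul_left, h_smul_right hH, Complex.conj_natCast] at hn₂
      have h2 : (m : ℂ) * ((m : ℂ) * H₀ (j (q b)) (j (q c)))
          = (((m : ℝ) ^ 2 : ℝ) : ℂ) * H₀ (j (q b)) (j (q c)) := by
        push_cast
        ring
      rw [h2, Complex.im_ofReal_mul] at hn₂
      simp only [P, Complex.sub_im]
      push_cast
      rw [← hn₂, ← hn₁]
      ring)
  have hkr : (0 : ℝ) < k := by exact_mod_cast hk
  have hre : ∀ v, ((k : ℂ) * P v v).re = k * (P v v).re := fun v => by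
    have : (k : ℂ) = ((k : ℝ) : ℂ) := by push_cast; rfl
    rw [this, Complex.re_ofReal_mul]
  refine ⟨L, fun v w => (k : ℂ) * P v w, hL, fun v => ?_, fun v hv => ?_, fun e e' => ?_⟩
  · rw [hre]
    exact mul_nonneg hkr.le (hn v)
  · rw [hre, mul_eq_zero] at hv
    have h1 : (P v v).re = 0 := hv.resolve_left hkr.ne'
    rw [hPd] at h1
    by_contra hne
    have h2 : v - j (q v) ≠ 0 := fun h => hne ⟨q v, sub_eq_zero.1 h⟩
    exact absurd h1 (R.pos _ h2).ne'
  · simp only [P, hq2, sub_self, mul_zero]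

end Pos

end Q47.CY
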