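import Pool.Agent.Q47.CY.Dat

/-!
# Rational points and limits
-/

set_option autoImplicit false

namespace Q47.CY

open Filter Topology
open Pool.Agent.Y167 (cone zero_mem_cone mem_cone_self cone_add cone_smul cone_sum cone_le
  cone_image cone_ind cone_cut CData Cp)
open Q47.TB Q47.AL

variable {ι : Type*} [Fintype ι] {n : ℕ} {N : Type*} [AddCommGroup N] [Module ℝ N]

/-- The integral tests for the divisors of the characters. -/
theorem exists_tst' {u : ι → Fin n → ℤ} {S : Set (Set ι)} (hS : IsSmoothFan u S) :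
    ∃ tst : ι → (ι → ℝ) →ₗ[ℝ] ℝ, (∀ v, (∀ i, tst i v = 0) ↔ ∃ m, v = chr u m) ∧
      ∀ i (z : ι → ℤ), ∃ k : ℤ, tst i (fun i => (z i : ℝ)) = k := by
  classical
  obtain ⟨a, ha1, ha2⟩ := exists_tst hS
  let tst : ι → (ι → ℝ) →ₗ[ℝ] ℝ := fun i => LinearMap.proj i -
    ∑ k, (u i k : ℝ) • ∑ i', (a k i' : ℝ) • LinearMap.proj i'
  have htst : ∀ i v, tst i v = v i - chr u (fun k => ∑ i, (a k i : ℝ) * v i) i := fun i v => by
    simp only [tst, LinearMap.sub_apply, LinearMap.sum_apply, LinearMap.smul_apply,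
      LinearMap.proj_apply, smul_eq_mul, chr_apply]
    congr 1
    exact Finset.sum_congr rfl fun k _ => mul_comm _ _
  refine ⟨tst, fun v => ?_, fun i z => ?_⟩
  · rw [← ha2]
    simp only [htst, sub_eq_zero]
  · refine ⟨z i - ∑ k, (∑ i', (a k i' : ℤ) * z i') * u i k, ?_⟩
    rw [htst, chr_apply]
    push_cast
    rfl

theorem rep_LY {u : ι → Fin n → ℤ} {L : AddSubgroup N} {h : ι → N} (hh : ∀ i, h i ∈ L)
    {a : Cl u × N} (ha : a ∈ LY u L) : ∃ (d : ι → ℤ) (x₀ : N), x₀ ∈ L ∧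
      a = dv u h (fun i => (d i : ℝ)) + lft u x₀ := by
  obtain ⟨⟨d, hd⟩, hl⟩ := ha
  refine ⟨d, a.2 - ∑ i, (d i : ℝ) • h i, ?_, ?_⟩
  · refine L.sub_mem hl (L.sum_mem fun i _ => ?_)
    rw [Int.cast_smul_eq_zsmul]
    exact L.zsmul_mem (hh i) _
  · rw [Prod.ext_iff]
    simp only [Prod.fst_add, Prod.snd_add, dv_fst, dv_snd, lft_fst, lft_snd, add_zero]
    exact ⟨hd, by abel⟩

/-- An integral class in one of the cones `CT` has a multiple which is a sum of an integral
effective divisor and of an integral nef class. -/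
theorem exists_rat {u : ι → Fin n → ℤ} {S : Set (Set ι)} (hS : IsSmoothFan u S) {L : AddSubgroup N}
    {nef : Set N} {h : ι → N} {G : Type*} [Fintype G] {τ : G → N →ₗ[ℝ] ℝ}
    (B : Bs u L nef h τ) {ξ : N →ₗ[ℝ] ℝ} {y : N} {Y : Finset N} (D : CData L nef ξ y Y)
    {a : Cl u × N} (ha : a ∈ LY u L) {t : Set ι} (hat : a ∈ CT u nef h t) :
    ∃ (k : ℕ) (β : ι → ℕ) (x : N), 1 ≤ k ∧ (∀ i ∈ t, β i = 0) ∧ x ∈ L ∧ x ∈ nef ∧
      (k : ℝ) • a = dv u h (fun i => (β i : ℝ)) + lft u x := by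
  classical
  obtain ⟨tst, htst0, htsti⟩ := exists_tst' hS
  obtain ⟨d, x₀, hx₀, hda⟩ := rep_LY B.h_mem ha
  obtain ⟨β₀, hβ0, hβt, x₁, hx₁, hβa⟩ := hat
  obtain ⟨m₁, hm₁, hx₁'⟩ := rep_eq.1 (hda.symm.trans hβa)
  -- `d = β₀ + chr m₁`, `x₁ = x₀ + cc m₁`
  let K := Option ι
  let pt : (K → ℝ) →ₗ[ℝ] ℝ := LinearMap.proj none
  let pb : (K → ℝ) →ₗ[ℝ] (ι → ℝ) := LinearMap.funLeft ℝ ℝ some
  let pd : (K → ℝ) →ₗ[ℝ] (ι → ℝ) := pt.smulRight fun i => (d i : ℝ)
  have hpt : ∀ z, pt z = z none := fun _ => rfl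
  have hpb : ∀ z i, pb z i = z (some i) := fun _ _ => rfl
  have hpd : ∀ z i, pd z i = z none * d i := fun _ _ => rfl
  let px : (K → ℝ) →ₗ[ℝ] N := pt.smulRight x₀ +
    (∑ i, (LinearMap.proj i).smulRight (h i)) ∘ₗ (pd - pb)
  have hpx : ∀ z, px z = z none • x₀ + ∑ i, (z none * d i - z (some i)) • h i := fun z => by
    simp [px, hpt, hpd, hpb]
  let φ : ι ⊕ ι ⊕ ι ⊕ G → (K → ℝ) →ₗ[ℝ] ℝ := fun s => match s with
    | Sum.inl i => if i ∈ t then -(LinearMap.proj i ∘ₗ pb) else 0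
    | Sum.inr (Sum.inl i) => tst i ∘ₗ (pd - pb)
    | Sum.inr (Sum.inr (Sum.inl i)) => -(tst i ∘ₗ (pd - pb))
    | Sum.inr (Sum.inr (Sum.inr g)) => τ g ∘ₗ px
  have hpxL : ∀ z : K → ℤ, px (fun k => (z k : ℝ)) ∈ L := fun z => by
    rw [hpx]
    refine L.add_mem ?_ (L.sum_mem fun i _ => ?_)
    · rw [Int.cast_smul_eq_zsmul]
      exact L.zsmul_mem hx₀ _
    · have e2 : ((z none : ℝ) * d i - (z (some i) : ℝ)) = ((z none * d i - z (some i) : ℤ) : ℝ) := by
        push_cast; rfl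
      rw [e2, Int.cast_smul_eq_zsmul]
      exact L.zsmul_mem (B.h_mem i) _
  obtain ⟨S₁, hS₁, hS₂⟩ := poly_gen (Finset.univ.image φ) (by
    intro ψ hψ z
    obtain ⟨s, -, rfl⟩ := Finset.mem_image.1 hψ
    have e1 : (pd - pb) (fun k => (z k : ℝ))
        = fun i => ((z none * d i - z (some i) : ℤ) : ℝ) := by
      ext i
      rw [LinearMap.sub_apply, Pi.sub_apply, hpb, hpd]
      push_cast
      rfl
    rcases s with i | i | i | g
    · simp only [φ]
      split_ifs
      · exact ⟨-z (some i), by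
          rw [LinearMap.neg_apply, LinearMap.comp_apply, LinearMap.proj_apply, hpb]
          push_cast
          rfl⟩
      · exact ⟨0, by simp⟩
    · simp only [φ, LinearMap.comp_apply, e1]
      exact htsti i _
    · simp only [φ, LinearMap.neg_apply, LinearMap.comp_apply, e1]
      obtain ⟨k, hk⟩ := htsti i fun i => z none * d i - z (some i)
      exact ⟨-k, by rw [hk]; push_cast; rfl⟩
    · simp only [φ, LinearMap.comp_apply]
      exact B.tau_int g _ (hpxL z))
  -- the real solution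
  have hz₀ : (fun k : K => k.elim (1 : ℝ) β₀) ∈ cone S₁ := by
    have e1 : (pd - pb) (fun k : K => k.elim (1 : ℝ) β₀) = chr u m₁ := by
      ext i
      rw [LinearMap.sub_apply, Pi.sub_apply, hpb, hpd]
      simp only [Option.elim]
      rw [one_mul]
      have := congrFun hm₁ i
      simp only [Pi.add_apply] at this
      linarith
    refine (hS₂ _).2 ⟨?_, ?_⟩
    · rintro (_ | i)
      · exact zero_le_one
      · exact hβ0 i
    · intro ψ hψ
      obtain ⟨s, -, rfl⟩ := Finset.mem_image.1 hψ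
      rcases s with i | i | i | g
      · simp only [φ]
        split_ifs with hi
        · rw [LinearMap.neg_apply, LinearMap.comp_apply, LinearMap.proj_apply, hpb]
          simp only [Option.elim]
          rw [hβt i hi, neg_zero]
        · simp
      · simp only [φ, LinearMap.comp_apply]
        rw [(htst0 _).2 ⟨m₁, e1⟩ i]
      · simp only [φ, LinearMap.neg_apply, LinearMap.comp_apply]
        rw [(htst0 _).2 ⟨m₁, e1⟩ i, neg_zero]
      · simp only [φ, LinearMap.comp_apply]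
        have e2 : px (fun k : K => k.elim (1 : ℝ) β₀) = x₁ := by
          rw [hpx, hx₁', cc]
          simp only [Option.elim]
          rw [one_smul]
          congr 1
          refine Finset.sum_congr rfl fun i _ => ?_
          have := congrFun hm₁ i
          simp only [Pi.add_apply] at this
          congr 1
          linarith
        rw [e2]
        exact B.tau_nonneg g _ hx₁
  obtain ⟨z, hz, hzp⟩ : ∃ z ∈ S₁, z none ≠ 0 := by
    by_contra hcon
    push Not at hcon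
    have h1 : ∀ z : K → ℝ, z ∈ cone S₁ → z none = 0 := by
      intro z hz
      refine cone_ind (p := fun z : K → ℝ => z none = 0) rfl ?_ ?_ hcon hz
      · intro x y hx hy
        rw [Pi.add_apply, hx, hy, add_zero]
      · intro t x _ hx
        rw [Pi.smul_apply, hx, smul_zero]
    exact one_ne_zero (h1 _ hz₀)
  obtain ⟨w, rfl⟩ := hS₁ z hz
  obtain ⟨h0, h1⟩ := (hS₂ _).1 (mem_cone_self hz)
  have h2 : ∀ s, 0 ≤ φ s (fun k => (w k : ℝ)) := fun s =>
    h1 _ (Finset.mem_image_of_mem _ (Finset.mem_univ s))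
  have hw0 : ∀ k, 0 ≤ w k := fun k => by exact_mod_cast h0 k
  have hcast : ∀ k, (((w k).toNat : ℕ) : ℝ) = w k := fun k => by
    have h3 : (((w k).toNat : ℤ) : ℝ) = (w k : ℝ) := by rw [Int.toNat_of_nonneg (hw0 k)]
    exact_mod_cast h3
  obtain ⟨m, hm⟩ := (htst0 ((pd - pb) (fun k => (w k : ℝ)))).1 fun i => by
    have h4 := h2 (Sum.inr (Sum.inl i))
    have h5 := h2 (Sum.inr (Sum.inr (Sum.inl i)))
    simp only [φ, LinearMap.neg_apply, LinearMap.comp_apply] at h4 h5
    linarith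
  have hmi : ∀ i, (w none : ℝ) * d i - w (some i) = chr u m i := fun i => by
    rw [← hm, LinearMap.sub_apply, Pi.sub_apply, hpb, hpd]
  refine ⟨(w none).toNat, fun i => (w (some i)).toNat, px fun k => (w k : ℝ), ?_, ?_, hpxL w, ?_, ?_⟩
  · have : w none ≠ 0 := fun h => hzp (by
      change ((w none : ℤ) : ℝ) = 0
      rw [h, Int.cast_zero])
    have := hw0 none
    omega
  · intro i hi
    have h4 := h2 (Sum.inl i)
    simp only [φ, if_pos hi, LinearMap.neg_apply, LinearMap.comp_apply, LinearMap.proj_apply,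
      hpb] at h4
    have h5 : w (some i) ≤ 0 := by
      have : (w (some i) : ℝ) ≤ 0 := by linarith
      exact_mod_cast this
    simp only
    omega
  · -- nefness
    have e1 : px (fun k => (w k : ℝ)) = (w none : ℝ) • x₁ + cc u h (m - (w none : ℝ) • m₁) := by
      rw [hpx, hx₁', smul_add, cc, cc, add_assoc, Finset.smul_sum, ← Finset.sum_add_distrib]
      congr 1
      refine Finset.sum_congr rfl fun i _ => ?_
      rw [hmi, map_sub, map_smul, Pi.sub_apply, Pi.smul_apply, smul_smul, ← add_smul, smul_eq_mul]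
      congr 1
      ring
    rw [e1]
    refine B.nef_of _ (D.smul _ (h0 none) _ hx₁) _ fun g => ?_
    rw [← e1]
    exact h2 (Sum.inr (Sum.inr (Sum.inr g)))
  · rw [hcast none]
    simp only [hcast]
    rw [hda, smul_add, ← map_smul, ← map_smul, rep_eq]
    refine ⟨m, ?_, ?_⟩
    · ext i
      rw [Pi.add_apply, ← hmi, Pi.smul_apply, smul_eq_mul]
      ring
    · rw [hpx, cc]
      congr 1
      exact Finset.sum_congr rfl fun i _ => by rw [hmi]

/-- The cone spanned by the integral classes in `NF`. -/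
theorem Cp_eq {u : ι → Fin n → ℤ} {S : Set (Set ι)} (hS : IsSmoothFan u S) {L : AddSubgroup N}
    {nef : Set N} {h : ι → N} {G : Type*} [Fintype G] {τ : G → N →ₗ[ℝ] ℝ}
    (B : Bs u L nef h τ) {ξ : N →ₗ[ℝ] ℝ} {y : N} {Y : Finset N} (D : CData L nef ξ y Y)
    {T : Set (Set ι)} (hT0 : T.Nonempty) (p : Cl u × N) :
    p ∈ Cp (LY u L) (NF u nef h T) ↔ p ∈ NF u nef h T ∧ p ∈ CT u (Cp L nef) h ∅ := by
  classical
  constructor
  · rintro ⟨F, hF, hp⟩
    obtain ⟨t₀, ht₀⟩ := hT0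
    have hCp0 : ∀ x ∈ Cp L nef, ∀ y ∈ Cp L nef, x + y ∈ Cp L nef := by
      rintro x ⟨A, hA, hx⟩ y ⟨A', hA', hy⟩
      refine ⟨A ∪ A', fun a ha => (Finset.mem_union.1 ha).elim (hA a) (hA' a), cone_add ?_ ?_⟩
      · exact cone_le (fun a ha => mem_cone_self (Finset.mem_union_left _ ha)) hx
      · exact cone_le (fun a ha => mem_cone_self (Finset.mem_union_right _ ha)) hy
    have hadd : ∀ x y : Cl u × N, x ∈ CT u (Cp L nef) h ∅ → y ∈ CT u (Cp L nef) h ∅ →
        x + y ∈ CT u (Cp L nef) h ∅ := by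
      rintro _ _ ⟨β, h1, -, x, h3, rfl⟩ ⟨β', h1', -, x', h3', rfl⟩
      refine ⟨β + β', fun i => add_nonneg (h1 i) (h1' i), fun i hi => hi.elim, x + x',
        hCp0 _ h3 _ h3', ?_⟩
      rw [map_add, map_add]
      abel
    have hsmul : ∀ (s : ℝ) (x : Cl u × N), 0 ≤ s → x ∈ CT u (Cp L nef) h ∅ →
        s • x ∈ CT u (Cp L nef) h ∅ := by
      rintro s _ hs ⟨β, h1, -, x, ⟨A, hA, hx⟩, rfl⟩
      refine ⟨s • β, fun i => mul_nonneg hs (h1 i), fun i hi => hi.elim, s • x,
        ⟨A, hA, cone_smul hx hs⟩, ?_⟩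
      rw [map_smul, map_smul, smul_add]
    have hcone : ∀ a ∈ F, a ∈ CT u (Cp L nef) h ∅ := by
      intro a ha
      obtain ⟨k, β, x, hk, -, hxL, hxN, hax⟩ := exists_rat hS B D (hF a ha).1 ((hF a ha).2 t₀ ht₀)
      have hkr : (0 : ℝ) < k := by
        have : 0 < k := hk
        exact_mod_cast this
      have h1 : a = (k : ℝ)⁻¹ • (dv u h (fun i => (β i : ℝ)) + lft u x) := by
        rw [← hax, smul_smul, inv_mul_cancel₀ hkr.ne', one_smul]
      rw [h1]
      refine hsmul _ _ (inv_nonneg.2 hkr.le) ⟨_, fun i => Nat.cast_nonneg _, fun i hi => hi.elim,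
        x, ⟨{x}, ?_, mem_cone_self (Finset.mem_singleton_self x)⟩, rfl⟩
      intro b hb
      rw [Finset.mem_singleton.1 hb]
      exact ⟨hxL, hxN⟩
    refine ⟨?_, ?_⟩
    · intro t ht
      have hz : ∀ a ∈ F, a ∈ CT u nef h t := fun a ha => (hF a ha).2 t ht
      refine cone_ind (p := fun x => x ∈ CT u nef h t) ?_ ?_ ?_ hz hp
      · have h0 := D.smul 0 le_rfl _ D.y_N
        rw [zero_smul] at h0
        exact ⟨0, fun i => le_rfl, fun i _ => rfl, 0, h0, by rw [map_zero, map_zero, add_zero]⟩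
      · rintro _ _ ⟨β, h1, h2, x, h3, rfl⟩ ⟨β', h1', h2', x', h3', rfl⟩
        refine ⟨β + β', fun i => add_nonneg (h1 i) (h1' i), fun i hi => by
          rw [Pi.add_apply, h2 i hi, h2' i hi, add_zero], x + x', D.add _ h3 _ h3', ?_⟩
        rw [map_add, map_add]
        abel
      · rintro s _ hs ⟨β, h1, h2, x, h3, rfl⟩
        refine ⟨s • β, fun i => mul_nonneg hs (h1 i), fun i hi => by
          rw [Pi.smul_apply, h2 i hi, smul_zero], s • x, D.smul _ hs _ h3, ?_⟩
        rw [map_smul, map_smul, smul_add]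
    · refine cone_ind (p := fun x => x ∈ CT u (Cp L nef) h ∅) ?_ hadd hsmul hcone hp
      exact ⟨0, fun i => le_rfl, fun i _ => rfl, 0, ⟨∅, by simp, zero_mem_cone _⟩,
        by rw [map_zero, map_zero, add_zero]⟩
  · rintro ⟨h1, β, hβ, -, x, ⟨F, hF, hx⟩, hp⟩
    obtain ⟨S', hS', hS''⟩ := key hS B D T F hF
    exact ⟨S', hS', (hS'' p).2 ⟨h1, β, hβ, x, hx, hp⟩⟩

/-- The cones `CT` are closed. -/
theorem CT_closed {u : ι → Fin n → ℤ} {S : Set (Set ι)} (hS : IsSmoothFan u S) {nef : Set N}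
    {h : ι → N} {Ω : Type*} {ℓ : Ω → N →ₗ[ℝ] ℝ} (hℓ : ∀ x, x ∈ nef ↔ ∀ w, 0 ≤ ℓ w x)
    {t : Set ι} {p w : Cl u × N} (hp : ∀ ε : ℝ, 0 < ε → p + ε • w ∈ CT u nef h t) :
    p ∈ CT u nef h t := by
  classical
  obtain ⟨tst, htst0, -⟩ := exists_tst' hS
  obtain ⟨e, he1, he2⟩ := Q47.TB.relation hS
  obtain ⟨δ, x, hδ⟩ := exists_rep u h p
  obtain ⟨δ', x', hδ'⟩ := exists_rep u h w
  let ε : ℕ → ℝ := fun k => 1 / ((k : ℝ) + 1)
  have hε : ∀ k, 0 < ε k := fun k => by simp only [ε]; positivity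
  have hε0 : Tendsto ε atTop (𝓝 0) := tendsto_one_div_add_atTop_nhds_zero_nat
  have hε1 : ∀ k, ε k ≤ 1 := fun k => by
    simp only [ε]
    rw [div_le_one (by positivity)]
    have : (0 : ℝ) ≤ k := Nat.cast_nonneg k
    linarith
  have hk : ∀ k, ∃ β : ι → ℝ, (∀ i, 0 ≤ β i) ∧ (∀ i ∈ t, β i = 0) ∧ (∀ i, tst i (β - δ - ε k • δ') = 0) ∧
      x + ε k • x' - ∑ i, (β - δ - ε k • δ') i • h i ∈ nef := by
    intro k
    obtain ⟨β, h1, h2, x₁, h3, h4⟩ := hp (ε k) (hε k)
    have h5 : p + ε k • w = dv u h (δ + ε k • δ') + lft u (x + ε k • x') := by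
      rw [hδ, hδ', map_add, map_add, map_smul, map_smul, smul_add]
      abel
    rw [h5] at h4
    obtain ⟨m, hm1, hm2⟩ := rep_eq.1 h4
    refine ⟨β, h1, h2, ?_, ?_⟩
    · refine (htst0 _).2 ⟨-m, ?_⟩
      rw [map_neg]
      have : β = δ + ε k • δ' - chr u m := by rw [hm1]; abel
      rw [this]
      abel
    · have e1 : ∀ i, (β - δ - ε k • δ') i = -chr u m i := fun i => by
        have := congrFun hm1 i
        simp only [Pi.add_apply, Pi.sub_apply] at this ⊢
        linarith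
      simp only [e1, neg_smul, Finset.sum_neg_distrib, sub_neg_eq_add]
      rw [← cc, ← hm2]
      exact h3
  choose β hβ0 hβt hβc hβn using hk
  -- the bound
  let C : ℝ := ∑ i, (e i : ℝ) * (|δ i| + |δ' i|)
  have hchr : ∀ m, ∑ i, (e i : ℝ) * chr u m i = 0 := fun m => by
    simp only [chr_apply, Finset.mul_sum]
    rw [Finset.sum_comm]
    refine Finset.sum_eq_zero fun k _ => ?_
    have h1 : (∑ i, (e i : ℝ) * u i k) = 0 := by exact_mod_cast he2 k
    calc ∑ i, (e i : ℝ) * (m k * u i k) = m k * ∑ i, (e i : ℝ) * u i k := by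
          rw [Finset.mul_sum]
          exact Finset.sum_congr rfl fun i _ => by ring
      _ = 0 := by rw [h1, mul_zero]
  have hC : ∀ k i, β k i ≤ C := by
    intro k i
    obtain ⟨m, hm⟩ := (htst0 _).1 (hβc k)
    have h1 : ∀ i, β k i = δ i + ε k * δ' i + chr u m i := fun i => by
      have := congrFun hm i
      simp only [Pi.sub_apply, Pi.smul_apply, smul_eq_mul] at this
      linarith
    have h2 : ∑ i, (e i : ℝ) * β k i = ∑ i, (e i : ℝ) * (δ i + ε k * δ' i) := by
      simp only [h1, mul_add, Finset.sum_add_distrib]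
      rw [hchr, add_zero]
    have h3 : ∑ i, (e i : ℝ) * β k i ≤ C := by
      rw [h2]
      refine Finset.sum_le_sum fun i _ => mul_le_mul_of_nonneg_left ?_ (Nat.cast_nonneg _)
      have h4 : ε k * δ' i ≤ |δ' i| := by
        calc ε k * δ' i ≤ |ε k * δ' i| := le_abs_self _
          _ = ε k * |δ' i| := by rw [abs_mul, abs_of_pos (hε k)]
          _ ≤ 1 * |δ' i| := mul_le_mul_of_nonneg_right (hε1 k) (abs_nonneg _)
          _ = |δ' i| := one_mul _
      have := le_abs_self (δ i)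
      linarith
    have h5 : (e i : ℝ) * β k i ≤ ∑ i, (e i : ℝ) * β k i :=
      Finset.single_le_sum (f := fun i => (e i : ℝ) * β k i)
        (fun i _ => mul_nonneg (Nat.cast_nonneg _) (hβ0 k i)) (Finset.mem_univ i)
    have h6 : β k i ≤ e i * β k i := by
      have : (1 : ℝ) ≤ e i := by exact_mod_cast he1 i
      exact le_mul_of_one_le_left (hβ0 k i) this
    linarith
  have hmem : ∀ k, β k ∈ Set.Icc (0 : ι → ℝ) fun _ => C := fun k => ⟨fun i => hβ0 k i, fun i => hC k i⟩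
  obtain ⟨b, -, φ, hφ, hb⟩ := isCompact_Icc.tendsto_subseq hmem
  have hbi : ∀ i, Tendsto (fun k => β (φ k) i) atTop (𝓝 (b i)) := fun i =>
    ((continuous_apply i).tendsto b).comp hb
  have hεφ : Tendsto (fun k => ε (φ k)) atTop (𝓝 0) := hε0.comp hφ.tendsto_atTop
  have hdiff : ∀ i, Tendsto (fun k => (β (φ k) - δ - ε (φ k) • δ') i) atTop (𝓝 ((b - δ) i)) := by
    intro i
    have h1 : (fun k => (β (φ k) - δ - ε (φ k) • δ') i)
        = fun k => β (φ k) i - δ i - ε (φ k) * δ' i := by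
      funext k
      simp
    rw [h1]
    have h2 := ((hbi i).sub_const (δ i)).sub (hεφ.mul_const (δ' i))
    rw [zero_mul, sub_zero] at h2
    exact h2
  refine ⟨b, fun i => ge_of_tendsto' (hbi i) fun k => hβ0 _ i, fun i hi => ?_,
    x - ∑ i, (b - δ) i • h i, ?_, ?_⟩
  · refine tendsto_nhds_unique (hbi i) ?_
    simp only [hβt _ i hi]
    exact tendsto_const_nhds
  · rw [hℓ]
    intro w'
    have h1 : Tendsto (fun k => ℓ w' (x + ε (φ k) • x' - ∑ i, (β (φ k) - δ - ε (φ k) • δ') i • h i))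
        atTop (𝓝 (ℓ w' (x - ∑ i, (b - δ) i • h i))) := by
      have h2 : ∀ k, ℓ w' (x + ε (φ k) • x' - ∑ i, (β (φ k) - δ - ε (φ k) • δ') i • h i)
          = ℓ w' x + ε (φ k) * ℓ w' x' - ∑ i, (β (φ k) - δ - ε (φ k) • δ') i * ℓ w' (h i) := by
        intro k
        rw [map_sub, map_add, map_smul, map_sum, smul_eq_mul]
        congr 1
        exact Finset.sum_congr rfl fun i _ => by rw [map_smul, smul_eq_mul]
      have h3 : ℓ w' (x - ∑ i, (b - δ) i • h i)
          = ℓ w' x + 0 * ℓ w' x' - ∑ i, (b - δ) i * ℓ w' (h i) := by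
        rw [map_sub, map_sum, zero_mul, add_zero]
        congr 1
        exact Finset.sum_congr rfl fun i _ => by rw [map_smul, smul_eq_mul]
      rw [h3]
      simp only [h2]
      refine Tendsto.sub ((tendsto_const_nhds).add (hεφ.mul_const _)) ?_
      exact tendsto_finsetSum _ fun i _ => (hdiff i).mul_const _
    exact ge_of_tendsto' h1 fun k => (hℓ _).1 (hβn (φ k)) w'
  · have h1 : ∀ i, tst i (b - δ) = 0 := by
      intro i
      have h2 : Tendsto (fun k => tst i (β (φ k) - δ - ε (φ k) • δ')) atTop (𝓝 (tst i (b - δ))) := by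
        have hc : Continuous (tst i) := LinearMap.continuous_of_finiteDimensional _
        exact (hc.tendsto _).comp (tendsto_pi_nhds.2 hdiff)
      refine tendsto_nhds_unique h2 ?_
      simp only [hβc]
      exact tendsto_const_nhds
    obtain ⟨m, hm⟩ := (htst0 _).1 h1
    rw [hδ, rep_eq]
    refine ⟨-m, ?_, ?_⟩
    · rw [map_neg, ← hm]
      abel
    · rw [cc, sub_eq_add_neg, ← Finset.sum_neg_distrib]
      congr 1
      refine Finset.sum_congr rfl fun i _ => ?_
      rw [map_neg, ← hm, Pi.neg_apply, neg_smul]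

end Q47.CY
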