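import Pool.Agent.Q47.CY.St

/-!
# Movable cones of toric bundles over quotients of complex tori: definitions
-/

set_option autoImplicit false

namespace Q47.CP

open Filter Topology
open Pool.Agent.W594.SYZ2 Q47.TB MvPolynomial
open Pool.Agent.Y167 (AffGrp)
open Q47.CY (Bundle)

variable {V E : Type*} [NormedAddCommGroup V] [NormedSpace ℂ V] [NormedAddCommGroup E]
  [NormedSpace ℂ E] {Γ : AffGrp V} {ι : Type*} [Fintype ι] {n : ℕ}

/-- The function `h` is holomorphic near `p`. -/
def HoloNear (h : V × (ι → ℂ) → ℂ) (p : V × (ι → ℂ)) : Prop :=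
  ∀ᶠ q in 𝓝 p, DifferentiableAt ℂ h q

/-- The base locus of `O_Y(d; M)` has codimension at least `2`: if `(v, x)` is a point of `Y` (the `i`
with `x_i = 0` form a cone) and `h` is holomorphic near `(v, x)` and vanishes at `(v, x)`, then `h` does
not divide all sections near `(v, x)`. -/
def IsMovable (Y : Bundle Γ ι n) (d : ι → ℤ) (M : LineBundle Γ) : Prop :=
  ∀ (p : V × (ι → ℂ)) (h : V × (ι → ℂ) → ℂ), {i | p.2 i = 0} ∈ Y.S → HoloNear h p → h p = 0 →
    ∃ G, IsSection Y.u Y.c d M.e G ∧
      ¬ ∃ g, HoloNear g p ∧ ∀ᶠ q in 𝓝 p, eval q.2 (G q.1) = h q * g q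

/-- The closed movable cone `Mov(Y/Z)`: the closure of the convex cone spanned by the classes in
`N^1(Y/Z)` of the line bundles whose base locus has codimension at least `2`. (`Z` is projective. If
the base locus relative to `Z` of a line bundle has codimension at least `2`, then so has the base
locus of its tensor product with the pullback of a sufficiently ample line bundle on `Z`, which has
the same class.) -/
def movY (Y : Bundle Γ ι n) (j : E →ₗ[ℂ] V) : Set (NY Y j) :=
  closure (hull {p | ∃ (d : ι → ℤ) (M : LineBundle Γ), IsClassY d M p ∧ IsMovable Y d M})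

end Q47.CP
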