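import Pool.Agent.Q47.CY.Main

/-!
# The topology of the space of classes of a toric bundle
-/

set_option autoImplicit false

namespace Q47.CY

open Filter Topology
open Pool.Agent.Y167

section General

variable {W : Type*} [AddCommGroup W] [Module ℝ W] [TopologicalSpace W] [IsTopologicalAddGroup W]
  [ContinuousSMul ℝ W] [T2Space W] [FiniteDimensional ℝ W]

/-- An order unit of a convex cone in a finite-dimensional space is an interior point. -/
theorem int_of_unit {A : Set W} (hadd : ∀ x ∈ A, ∀ y ∈ A, x + y ∈ A)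
    (hsmul : ∀ t : ℝ, 0 ≤ t → ∀ x ∈ A, t • x ∈ A) {y : W}
    (hy : ∀ x, ∃ C : ℝ, 0 < C ∧ C • y - x ∈ A) : ∀ᶠ z in 𝓝 (0 : W), y + z ∈ A := by
  classical
  obtain ⟨d, ⟨b⟩⟩ : ∃ d : ℕ, Nonempty (Module.Basis (Fin d) ℝ W) :=
    ⟨_, ⟨Module.finBasis ℝ W⟩⟩
  choose C₁ hC₁ hC₁' using fun k => hy (b k)
  choose C₂ hC₂ hC₂' using fun k => hy (-b k)
  have hy0 : y ∈ A := by
    obtain ⟨C, hC, h⟩ := hy 0
    rw [sub_zero] at h
    have h1 := hsmul C⁻¹ (by positivity) _ h
    rwa [smul_smul, inv_mul_cancel₀ hC.ne', one_smul] at h1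
  let M : ℝ := (d : ℝ) * (1 + ∑ k, (C₁ k + C₂ k))
  have hsum : 0 ≤ ∑ k, (C₁ k + C₂ k) := Finset.sum_nonneg fun k _ =>
    (add_pos (hC₁ k) (hC₂ k)).le
  have h1 : ∀ᶠ z in 𝓝 (0 : W), ∀ k, |b.repr z k| * M ≤ 1 := by
    rw [eventually_all]
    intro k
    have hc : Continuous fun z => |b.repr z k| * M := by
      have h2 : Continuous (b.coord k) := LinearMap.continuous_of_finiteDimensional _
      have h3 : (fun z => |b.repr z k| * M) = fun z => |b.coord k z| * M := rfl
      rw [h3]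
      exact (continuous_abs.comp h2).mul continuous_const
    have h0 : |b.repr (0 : W) k| * M < 1 := by simp
    exact (hc.tendsto 0).eventually (ge_mem_nhds h0)
  filter_upwards [h1] with z hz
  rcases Nat.eq_zero_or_pos d with h0 | hdpos
  · subst h0
    have h2 : y + z = y := b.repr.injective (Finsupp.ext fun k => k.elim0)
    rw [h2]
    exact hy0
  · have hdr : (0 : ℝ) < d := by exact_mod_cast hdpos
    have h2 : y + z = ∑ k, ((1 / d : ℝ) • y + b.repr z k • b k) := by
      rw [Finset.sum_add_distrib, b.sum_repr, Finset.sum_const, Finset.card_univ, Fintype.card_fin,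
        ← Nat.cast_smul_eq_nsmul ℝ, smul_smul, mul_one_div_cancel hdr.ne', one_smul]
    rw [h2]
    have h3 : ∀ k, (1 / d : ℝ) • y + b.repr z k • b k ∈ A := by
      intro k
      have hzk := hz k
      have h4 : |b.repr z k| * (C₁ k + C₂ k) ≤ 1 / d := by
        rw [le_div_iff₀ hdr]
        have h5 : C₁ k + C₂ k ≤ ∑ k, (C₁ k + C₂ k) :=
          Finset.single_le_sum (fun i _ => (add_pos (hC₁ i) (hC₂ i)).le) (Finset.mem_univ k)
        have h6 : |b.repr z k| * (C₁ k + C₂ k) * d ≤ |b.repr z k| * M := by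
          have h7 : (C₁ k + C₂ k) * d ≤ M := by
            simp only [M]
            nlinarith
          calc |b.repr z k| * (C₁ k + C₂ k) * d = |b.repr z k| * ((C₁ k + C₂ k) * d) := by ring
            _ ≤ _ := mul_le_mul_of_nonneg_left h7 (abs_nonneg _)
        linarith
      rcases le_total 0 (b.repr z k) with h5 | h5
      · rw [abs_of_nonneg h5] at h4
        have h6 : (1 / d : ℝ) • y + b.repr z k • b k = (1 / d - b.repr z k * C₂ k) • y
            + b.repr z k • (C₂ k • y - -b k) := by module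
        rw [h6]
        refine hadd _ (hsmul _ ?_ _ hy0) _ (hsmul _ h5 _ (hC₂' k))
        have : 0 ≤ b.repr z k * C₁ k := mul_nonneg h5 (hC₁ k).le
        linarith
      · rw [abs_of_nonpos h5] at h4
        have h6 : (1 / d : ℝ) • y + b.repr z k • b k = (1 / d - (-b.repr z k) * C₁ k) • y
            + (-b.repr z k) • (C₁ k • y - b k) := by module
        rw [h6]
        refine hadd _ (hsmul _ ?_ _ hy0) _ (hsmul _ (by linarith) _ (hC₁' k))
        have : 0 ≤ (-b.repr z k) * C₂ k := mul_nonneg (by linarith) (hC₂ k).le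
        linarith
    have h4 : ∀ s : Finset (Fin d), s.Nonempty →
        ∑ k ∈ s, ((1 / d : ℝ) • y + b.repr z k • b k) ∈ A := by
      intro s
      induction s using Finset.induction_on with
      | empty => exact fun h => absurd h (by simp)
      | insert k s hk ih =>
        intro _
        rcases s.eq_empty_or_nonempty with rfl | hs
        · simpa using h3 k
        · rw [Finset.sum_insert hk]
          exact hadd _ (h3 k) _ (ih hs)
    exact h4 _ ⟨⟨0, hdpos⟩, Finset.mem_univ _⟩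

/-- A radially closed convex cone with an order unit is closed. -/
theorem closed_of_radial {A : Set W} (hadd : ∀ x ∈ A, ∀ y ∈ A, x + y ∈ A)
    (hsmul : ∀ t : ℝ, 0 ≤ t → ∀ x ∈ A, t • x ∈ A) {y : W}
    (hy : ∀ x, ∃ C : ℝ, 0 < C ∧ C • y - x ∈ A)
    (hcl : ∀ p, (∀ ε : ℝ, 0 < ε → p + ε • y ∈ A) → p ∈ A) : IsClosed A := by
  rw [← closure_subset_iff_isClosed]
  intro p hp
  apply hcl
  intro ε hε
  have h1 := int_of_unit hadd hsmul hy
  have h2 : ∀ᶠ q in 𝓝 p, y + ε⁻¹ • (p - q) ∈ A := by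
    have hc : Tendsto (fun q => ε⁻¹ • (p - q)) (𝓝 p) (𝓝 0) := by
      have h3 : Continuous fun q => ε⁻¹ • (p - q) := by fun_prop
      have h4 := h3.tendsto p
      rwa [sub_self, smul_zero] at h4
    exact hc.eventually h1
  obtain ⟨q, hq1, hq2⟩ := (mem_closure_iff_nhds.1 hp) _ h2
  have h3 : p + ε • y = q + ε • (y + ε⁻¹ • (p - q)) := by
    rw [smul_add, smul_smul, mul_inv_cancel₀ hε.ne', one_smul]
    abel
  rw [h3]
  exact hadd _ hq2 _ (hsmul _ hε.le _ hq1)

end General

instance {ι : Type*} [Finite ι] {n : ℕ} (u : ι → Fin n → ℤ) : T2Space (Cl u) := by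
  have h1 : IsClosed ((LinearMap.range (chr u) : Submodule ℝ (ι → ℝ)) : Set (ι → ℝ)) :=
    Submodule.closed_of_finiteDimensional _
  exact inferInstanceAs (T2Space ((ι → ℝ) ⧸ LinearMap.range (chr u)))

section Cones

open Finset
open Pool.Agent.W594.SYZ2 Pool.Agent.W594.SYZ2.TQ Pool.Agent.TH735.AQ
open Q47.TB

variable {V E : Type*} [NormedAddCommGroup V] [NormedSpace ℂ V] [FiniteDimensional ℂ V]
  [NormedAddCommGroup E] [NormedSpace ℂ E] [FiniteDimensional ℂ E] {Γ : Subgroup (V ≃ᵃ[ℂ] V)}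
  {j : E →ₗ[ℂ] V} {H₀ : V → V → ℂ} {ι : Type*} [Fintype ι] {n r : ℕ} {Y : Bundle Γ ι n}

/-- The cones of nef classes and of movable classes are closed. -/
theorem NF_isClosed (R : Rel Γ j H₀) {T : Set (Set ι)} (hT : T ⊆ Y.S) (hT0 : T.Nonempty) :
    IsClosed (NF Y.u (nefCone Γ j) (Y.h j) T : Set (NY Y j)) := by
  classical
  have := finDim_NY (Y := Y) R
  have hh : ∀ i, Y.h j i ∈ intL Γ j := fun i => clsE_mem (Y.chern i)
  obtain ⟨ξ₀, y₀, Y₀, D, -, -⟩ := cover R one_pos
  obtain ⟨ℓ, hℓ⟩ := nef_tests R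
  obtain ⟨d, hd⟩ := Y.proj
  obtain ⟨ξ', y', Y', D', -⟩ := cdataY Y.fan hh D hd hT hT0
  exact closed_of_radial D'.add D'.smul D'.y_int fun p hp t ht =>
    CT_closed Y.fan hℓ fun ε hε => hp ε hε t ht

end Cones

end Q47.CY
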