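import Pool.Agent.Q47.CY.Poly
import Pool.Agent.Q47.TR.Hull

/-!
# Klt pairs: the exponents of the equations
-/

set_option autoImplicit false

namespace Q47.CY

open Q47.TB

variable {ι : Type*} [Fintype ι] {n : ℕ}

/-- The characters of the quotients of the monomials. -/
def Zs (u : ι → Fin n → ℤ) {r : ℕ} (T : Fin r → Finset (ι →₀ ℕ)) : Set (Fin n → ℤ) :=
  {z | ∃ j, ∃ α ∈ T j, ∃ α' ∈ T j, ∀ i, (α i : ℤ) = α' i + ∑ k, z k * u i k}

/-- The characters of the quotients of the monomials span a subgroup of finite index. -/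
theorem exists_full {u : ι → Fin n → ℤ} {S : Set (Set ι)} (hS : IsSmoothFan u S) {r : ℕ}
    {δ : Fin r → ℝ} (T : Fin r → Finset (ι →₀ ℕ)) {d : Fin r → ι → ℤ}
    (hcls : ∀ j, ∀ α ∈ T j, LinEquiv u (fun i => (α i : ℤ)) (d j)) {C : ℝ} (hC : 1 < C)
    (hw : ∀ a : ι → ℕ, {i | a i ≠ 0} ∈ S → ∃ α : Fin r → (ι →₀ ℕ), (∀ j, α j ∈ T j) ∧
      ∑ j, C * δ j * ∑ i, (a i : ℝ) * α j i ≤ ∑ i, (a i : ℝ))
    {q : Fin n → ℝ} (hq : ∀ i, ∑ j, δ j * d j i - 1 = ∑ k, q k * u i k) :
    ∃ N₀ : ℕ, 0 < N₀ ∧ ∀ l : Fin n,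
      (Pi.single l (N₀ : ℤ) : Fin n → ℤ) ∈ AddSubgroup.closure (Zs u T) := by
  classical
  set P := AddSubgroup.closure (Zs u T) with hP
  let W : Submodule ℚ (Fin n → ℚ) := Submodule.span ℚ ((fun (z : Fin n → ℤ) k => (z k : ℚ)) '' P)
  have hWP : ∀ x ∈ W, ∃ M : ℕ, 0 < M ∧ ∃ z ∈ P, ∀ k, (z k : ℚ) = M * x k := by
    intro x hx
    induction hx using Submodule.span_induction with
    | mem x hx =>
      obtain ⟨z, hz, rfl⟩ := hx
      exact ⟨1, one_pos, z, hz, fun k => by simp⟩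
    | zero => exact ⟨1, one_pos, 0, P.zero_mem, fun k => by simp⟩
    | add x y _ _ h1 h2 =>
      obtain ⟨M, hM, z, hz, h3⟩ := h1
      obtain ⟨M', hM', z', hz', h3'⟩ := h2
      refine ⟨M * M', Nat.mul_pos hM hM', M' • z + M • z',
        P.add_mem (P.nsmul_mem hz _) (P.nsmul_mem hz' _), fun k => ?_⟩
      rw [Pi.add_apply, Pi.smul_apply, Pi.smul_apply, nsmul_eq_mul, nsmul_eq_mul]
      push_cast
      rw [h3, h3', Pi.add_apply]
      ring
    | smul c x _ h1 =>
      obtain ⟨M, hM, z, hz, h3⟩ := h1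
      refine ⟨M * c.den, Nat.mul_pos hM c.den_pos, c.num • z, P.zsmul_mem hz _, fun k => ?_⟩
      rw [Pi.smul_apply, Pi.smul_apply, smul_eq_mul, smul_eq_mul]
      push_cast
      rw [h3]
      have h4 : (c.num : ℚ) = c * c.den := (Rat.mul_den_eq_num c).symm
      rw [h4]
      ring
  by_cases hW : W = ⊤
  · have h1 : ∀ l : Fin n, ∃ M : ℕ, 0 < M ∧ ∃ z ∈ P, ∀ k, (z k : ℚ) = M * (Pi.single l 1 : Fin n → ℚ) k :=
      fun l => hWP _ (by rw [hW]; exact Submodule.mem_top)
    choose M hM z hz hzk using h1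
    refine ⟨∏ l, M l, Finset.prod_pos fun l _ => hM l, fun l => ?_⟩
    have h2 : (Pi.single l ((∏ l, M l : ℕ) : ℤ) : Fin n → ℤ)
        = (∏ l' ∈ Finset.univ.erase l, M l') • z l := by
      ext k
      rw [Pi.smul_apply, nsmul_eq_mul]
      have h3 : ((z l k : ℤ) : ℚ) = ((M l : ℤ) * (Pi.single l 1 : Fin n → ℤ) k : ℤ) := by
        rw [hzk]
        push_cast
        congr 1
        by_cases hk : k = l
        · subst hk; simp
        · simp [hk]
      have h4 : z l k = (M l : ℤ) * (Pi.single l 1 : Fin n → ℤ) k := by exact_mod_cast h3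
      rw [h4, ← Finset.prod_erase_mul _ _ (Finset.mem_univ l)]
      by_cases hk : k = l
      · subst hk
        simp
      · simp [hk]
    rw [h2]
    exact P.nsmul_mem (hz l) _
  · exfalso
    obtain ⟨f, hf, hle⟩ := Submodule.exists_le_ker_of_lt_top _ (lt_top_iff_ne_top.2 hW)
    obtain ⟨M, w, hM, hw'⟩ := clear_den fun k : Fin n => f (Pi.single k 1)
    have hMQ : (M : ℚ) ≠ 0 := by
      have : 0 < M := hM
      exact_mod_cast this.ne'
    have hfz : ∀ z : Fin n → ℤ, (M : ℚ) * f (fun k => (z k : ℚ)) = ((∑ k, w k * z k : ℤ) : ℚ) := by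
      intro z
      have h1 : (fun k => (z k : ℚ)) = ∑ k, (z k : ℚ) • (Pi.single k (1 : ℚ) : Fin n → ℚ) := by
        ext l
        simp [Finset.sum_apply, Pi.single_apply]
      rw [h1, map_sum]
      push_cast
      rw [Finset.mul_sum]
      refine Finset.sum_congr rfl fun k _ => ?_
      rw [map_smul, smul_eq_mul, hw']
      ring
    have hz0 : ∀ z ∈ P, ∑ k, w k * z k = 0 := by
      intro z hz
      have h1 : f (fun k => (z k : ℚ)) = 0 := hle (Submodule.subset_span ⟨z, hz, rfl⟩)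
      have h2 := hfz z
      rw [h1, mul_zero] at h2
      exact_mod_cast h2.symm
    have hw0 : w ≠ 0 := by
      intro h
      apply hf
      refine LinearMap.ext fun x => ?_
      have h1 : x = ∑ k, x k • (Pi.single k (1 : ℚ) : Fin n → ℚ) := by
        ext l
        simp [Finset.sum_apply, Pi.single_apply]
      rw [h1, map_sum, LinearMap.zero_apply]
      refine Finset.sum_eq_zero fun k _ => ?_
      have h2 := hw' k
      rw [h, Pi.zero_apply, Int.cast_zero] at h2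
      rw [map_smul, (mul_eq_zero.1 h2.symm).resolve_left hMQ, smul_zero]
    obtain ⟨a, ⟨haS, ha⟩, -⟩ := hS.rep w
    obtain ⟨a', ⟨haS', ha'⟩, -⟩ := hS.rep (-w)
    obtain ⟨α, hα, hle1⟩ := hw a haS
    obtain ⟨α', hα', hle2⟩ := hw a' haS'
    have haR : ∀ k, ∑ i, (a i : ℝ) * (u i k : ℝ) = w k := fun k => by exact_mod_cast ha k
    have haR' : ∀ k, ∑ i, (a' i : ℝ) * (u i k : ℝ) = -w k := fun k => by exact_mod_cast ha' k
    have hex : ∀ (a : ι → ℕ) (w : Fin n → ℝ), (∀ k, ∑ i, (a i : ℝ) * (u i k : ℝ) = w k) →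
        ∀ y : Fin n → ℝ, ∑ i, (a i : ℝ) * ∑ k, y k * (u i k : ℝ) = ∑ k, w k * y k := by
      intro a w h y
      simp only [← h, Finset.mul_sum, Finset.sum_mul]
      rw [Finset.sum_comm]
      exact Finset.sum_congr rfl fun k _ => Finset.sum_congr rfl fun i _ => by ring
    have heq : ∀ j, ∑ i, (a i : ℝ) * (α j i : ℝ) = ∑ i, (a i : ℝ) * (α' j i : ℝ) := by
      intro j
      obtain ⟨p, hp⟩ := hcls j (α j) (hα j)
      obtain ⟨p', hp'⟩ := hcls j (α' j) (hα' j)
      have h1 : p - p' ∈ P := by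
        refine AddSubgroup.subset_closure ⟨j, α j, hα j, α' j, hα' j, fun i => ?_⟩
        have e1 := hp i
        have e2 := hp' i
        simp only at e1 e2
        rw [e1, e2]
        simp only [Pi.sub_apply, sub_mul, Finset.sum_sub_distrib]
        ring
      have h2 := hz0 _ h1
      have h3 : ∀ i, (α j i : ℝ) = α' j i + ∑ k, ((p k - p' k : ℤ) : ℝ) * (u i k : ℝ) := by
        intro i
        have e1 := hp i
        have e2 := hp' i
        simp only at e1 e2
        have e3 : (α j i : ℤ) = α' j i + ∑ k, (p k - p' k) * u i k := by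
          rw [e1, e2]
          simp only [sub_mul, Finset.sum_sub_distrib]
          ring
        exact_mod_cast e3
      simp only [h3, mul_add, Finset.sum_add_distrib]
      rw [hex a (fun k => (w k : ℝ)) haR]
      have h4 : ∑ k, (w k : ℝ) * ((p k - p' k : ℤ) : ℝ) = 0 := by exact_mod_cast h2
      rw [h4, add_zero]
    simp only [heq] at hle1
    have hsum : ∑ j, δ j * ∑ i, ((a i : ℝ) + a' i) * (α' j i : ℝ) = ∑ i, ((a i : ℝ) + a' i) := by
      choose p hp using fun j => hcls j (α' j) (hα' j)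
      have hpR : ∀ j i, (α' j i : ℝ) = d j i + ∑ k, (p j k : ℝ) * (u i k : ℝ) := by
        intro j i
        have := hp j i
        simp only at this
        exact_mod_cast this
      have h1 : ∀ y : Fin n → ℝ, ∑ i, ((a i : ℝ) + a' i) * ∑ k, y k * (u i k : ℝ) = 0 := by
        intro y
        simp only [add_mul, Finset.sum_add_distrib]
        rw [hex a (fun k => (w k : ℝ)) haR, hex a' (fun k => -(w k : ℝ)) haR',
          ← Finset.sum_add_distrib]
        exact Finset.sum_eq_zero fun k _ => by ring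
      have h2 : ∀ j, ∑ i, ((a i : ℝ) + a' i) * (α' j i : ℝ) = ∑ i, ((a i : ℝ) + a' i) * d j i := by
        intro j
        simp only [hpR, mul_add, Finset.sum_add_distrib]
        rw [h1, add_zero]
      simp only [h2]
      have h3 : ∑ j, δ j * ∑ i, ((a i : ℝ) + a' i) * d j i
          = ∑ i, ((a i : ℝ) + a' i) * ∑ j, δ j * d j i := by
        simp only [Finset.mul_sum]
        rw [Finset.sum_comm]
        exact Finset.sum_congr rfl fun i _ => Finset.sum_congr rfl fun j _ => by ring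
      have h4 : ∀ i, ∑ j, δ j * (d j i : ℝ) = 1 + ∑ k, q k * u i k := fun i => by
        have := hq i
        linarith
      rw [h3]
      simp only [h4, mul_add, Finset.sum_add_distrib, mul_one]
      rw [h1, add_zero]
    have hfin : C * ∑ i, ((a i : ℝ) + a' i) ≤ ∑ i, ((a i : ℝ) + a' i) := by
      have h1 : C * ∑ i, ((a i : ℝ) + a' i)
          = ∑ j, C * δ j * ∑ i, (a i : ℝ) * α' j i + ∑ j, C * δ j * ∑ i, (a' i : ℝ) * α' j i := by
        rw [← hsum, Finset.mul_sum, ← Finset.sum_add_distrib]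
        refine Finset.sum_congr rfl fun j _ => ?_
        rw [← mul_add, ← Finset.sum_add_distrib, mul_assoc]
        congr 2
        exact Finset.sum_congr rfl fun i _ => by ring
      rw [h1, Finset.sum_add_distrib (f := fun i => (a i : ℝ)) (g := fun i => (a' i : ℝ))]
      exact add_le_add hle1 hle2
    have hA : ∑ i, ((a i : ℝ) + a' i) = 0 := by
      have h0 : 0 ≤ ∑ i, ((a i : ℝ) + a' i) := Finset.sum_nonneg fun i _ => by positivity
      nlinarith
    have ha0 : ∀ i, a i = 0 := by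
      intro i
      have h1 := (Finset.sum_eq_zero_iff_of_nonneg fun i _ => by positivity).1 hA i
        (Finset.mem_univ i)
      have h2 : (0 : ℝ) ≤ a' i := Nat.cast_nonneg _
      have h3 : (0 : ℝ) ≤ a i := Nat.cast_nonneg _
      have h4 : (a i : ℝ) = 0 := by linarith
      exact_mod_cast h4
    apply hw0
    ext k
    rw [← ha k]
    simp [ha0]

/-- Each exponent has a positive weight. -/
theorem exists_pos_weights {u : ι → Fin n → ℤ} {S : Set (Set ι)} (hS : IsSmoothFan u S) {r : ℕ}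
    {δ : Fin r → ℝ} (hδ : ∀ j, 0 < δ j) (T : Fin r → Finset (ι →₀ ℕ)) {d : Fin r → ι → ℤ}
    (hcls : ∀ j, ∀ α ∈ T j, LinEquiv u (fun i => (α i : ℤ)) (d j)) {C : ℝ} (hC : 1 < C)
    (hw : ∀ a : ι → ℕ, {i | a i ≠ 0} ∈ S → ∃ α : Fin r → (ι →₀ ℕ), (∀ j, α j ∈ T j) ∧
      ∑ j, C * δ j * ∑ i, (a i : ℝ) * α j i ≤ ∑ i, (a i : ℝ))
    {q : Fin n → ℝ} (hq : ∀ i, ∑ j, δ j * d j i - 1 = ∑ k, q k * u i k) (j₀ : Fin r)
    (α₀ : {α // α ∈ T j₀}) :
    ∃ s : (Σ j, {α // α ∈ T j}) → ℝ, (∀ a, 0 ≤ s a) ∧ 0 < s ⟨j₀, α₀⟩ ∧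
      (∀ j, ∑ α, s ⟨j, α⟩ = δ j) ∧ ∀ i, ∑ a, s a * (a.2.1 i : ℝ) = 1 := by
  classical
  set A : ℝ := ∑ i, (α₀.1 i : ℝ) with hA
  have hA0 : 0 ≤ A := Finset.sum_nonneg fun i _ => Nat.cast_nonneg _
  have hC0 : 0 < C := by linarith
  have hC1 : 0 < 1 - 1 / C := by
    rw [sub_pos, div_lt_one hC0]
    exact hC
  set ε : ℝ := min (δ j₀) ((1 - 1 / C) / (1 + A)) with hε
  have hε0 : 0 < ε := lt_min (hδ j₀) (div_pos hC1 (by linarith))
  have hεδ : ε ≤ δ j₀ := min_le_left _ _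
  have hεA : ε * A ≤ 1 - 1 / C := by
    have h1 : ε ≤ (1 - 1 / C) / (1 + A) := min_le_right _ _
    calc ε * A ≤ ε * (1 + A) := by nlinarith
      _ ≤ (1 - 1 / C) / (1 + A) * (1 + A) := mul_le_mul_of_nonneg_right h1 (by linarith)
      _ = 1 - 1 / C := div_mul_cancel₀ _ (by linarith)
  let T' : Fin (r + 1) → Finset (ι →₀ ℕ) := Fin.cons {α₀.1} T
  let d' : Fin (r + 1) → ι → ℤ := Fin.cons (d j₀) d
  let δ₁ : Fin r → ℝ := fun j => if j = j₀ then δ j - ε else δ j
  let δ' : Fin (r + 1) → ℝ := Fin.cons ε δ₁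
  have hδ₁ : ∀ X : Fin r → ℝ, ∑ j, δ₁ j * X j = ∑ j, δ j * X j - ε * X j₀ := by
    intro X
    have h1 : ∀ j, δ₁ j * X j = δ j * X j - if j = j₀ then ε * X j₀ else 0 := by
      intro j
      simp only [δ₁]
      split_ifs with h
      · rw [h]; ring
      · ring
    simp only [h1, Finset.sum_sub_distrib]
    simp
  have hδ' : ∀ j, 0 ≤ δ' j := by
    intro j
    refine Fin.cases ?_ (fun j => ?_) j
    · exact hε0.le
    · change 0 ≤ δ₁ j
      simp only [δ₁]
      split_ifs with h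
      · rw [h]; linarith
      · exact (hδ j).le
  have hcls' : ∀ j, ∀ α ∈ T' j, LinEquiv u (fun i => (α i : ℤ)) (d' j) := by
    intro j
    refine Fin.cases ?_ (fun j => ?_) j
    · intro α hα
      have h1 : α = α₀.1 := Finset.mem_singleton.1 hα
      rw [h1]
      exact hcls j₀ _ α₀.2
    · intro α hα
      exact hcls j α hα
  obtain ⟨s, hs0, hs, hs1⟩ := Q47.TR.exists_weights hS hδ' T' hcls' (by
    intro a ha
    obtain ⟨α, hα, hle⟩ := hw a ha
    refine ⟨Fin.cons α₀.1 α, fun j => ?_, ?_⟩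
    · refine Fin.cases ?_ (fun j => ?_) j
      · exact Finset.mem_singleton_self _
      · exact hα j
    · rw [Fin.sum_univ_succ]
      change ε * ∑ i, (a i : ℝ) * α₀.1 i + ∑ j, δ₁ j * ∑ i, (a i : ℝ) * α j i ≤ _
      rw [hδ₁]
      have h1 : ∑ j, δ j * ∑ i, (a i : ℝ) * α j i ≤ (1 / C) * ∑ i, (a i : ℝ) := by
        have h2 : ∑ j, C * δ j * ∑ i, (a i : ℝ) * α j i
            = C * ∑ j, δ j * ∑ i, (a i : ℝ) * α j i := by
          rw [Finset.mul_sum]
          exact Finset.sum_congr rfl fun j _ => by ring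
        rw [h2] at hle
        rw [one_div, inv_mul_eq_div, le_div_iff₀ hC0]
        linarith
      have h2 : ∑ i, (a i : ℝ) * α₀.1 i ≤ A * ∑ i, (a i : ℝ) := by
        rw [Finset.mul_sum]
        refine Finset.sum_le_sum fun i _ => ?_
        rw [mul_comm]
        refine mul_le_mul_of_nonneg_right ?_ (Nat.cast_nonneg _)
        exact Finset.single_le_sum (f := fun i => (α₀.1 i : ℝ)) (fun i _ => Nat.cast_nonneg _)
          (Finset.mem_univ i)
      have h3 : 0 ≤ ∑ i, (a i : ℝ) * α j₀ i := Finset.sum_nonneg fun i _ => by positivity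
      have h4 : 0 ≤ ∑ i, (a i : ℝ) := Finset.sum_nonneg fun i _ => Nat.cast_nonneg _
      have h5 : ε * ∑ i, (a i : ℝ) * α₀.1 i ≤ (1 - 1 / C) * ∑ i, (a i : ℝ) := by
        calc ε * ∑ i, (a i : ℝ) * α₀.1 i ≤ ε * (A * ∑ i, (a i : ℝ)) :=
              mul_le_mul_of_nonneg_left h2 hε0.le
          _ = ε * A * ∑ i, (a i : ℝ) := by ring
          _ ≤ _ := mul_le_mul_of_nonneg_right hεA h4
      have h6 := mul_nonneg hε0.le h3
      linarith) (β := 0) (q := -q) (fun i => le_rfl) (fun i => by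
    rw [Fin.sum_univ_succ]
    change (0 : ℝ) = (ε * d j₀ i + ∑ j, δ₁ j * (d j i : ℝ) - 1) + _
    rw [hδ₁]
    have h1 := hq i
    simp only [Pi.neg_apply, neg_mul, Finset.sum_neg_distrib]
    linarith)
  let a₀ : Σ j, {α // α ∈ T j} := ⟨j₀, α₀⟩
  let b₀ : Σ j, {α // α ∈ T' j} := ⟨0, ⟨α₀.1, Finset.mem_singleton_self _⟩⟩
  let em : (Σ j, {α // α ∈ T j}) → (Σ j, {α // α ∈ T' j}) := fun a => ⟨a.1.succ, a.2⟩
  have hb₀ : s b₀ = ε := by
    rw [← show ∑ α, s ⟨0, α⟩ = ε from hs 0]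
    symm
    refine Fintype.sum_eq_single (⟨α₀.1, Finset.mem_singleton_self _⟩ : {α // α ∈ T' 0}) ?_
    rintro ⟨x, hx⟩ hne
    exact absurd (Subtype.ext (Finset.mem_singleton.1 hx)) hne
  have hsplit : ∀ X : (Σ j, {α // α ∈ T' j}) → ℝ,
      ∑ a, X a = X b₀ + ∑ a : Σ j, {α // α ∈ T j}, X (em a) := by
    intro X
    rw [Fintype.sum_sigma, Fin.sum_univ_succ]
    congr 1
    · refine Fintype.sum_eq_single (⟨α₀.1, Finset.mem_singleton_self _⟩ : {α // α ∈ T' 0}) ?_
      rintro ⟨x, hx⟩ hne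
      exact absurd (Subtype.ext (Finset.mem_singleton.1 hx)) hne
    · rw [Fintype.sum_sigma]
      rfl
  refine ⟨fun a => s (em a) + if a = a₀ then ε else 0, fun a => ?_, ?_, fun j => ?_, fun i => ?_⟩
  · refine add_nonneg (hs0 _) ?_
    split_ifs
    · exact hε0.le
    · exact le_rfl
  · change 0 < s (em a₀) + if a₀ = a₀ then ε else 0
    rw [if_pos rfl]
    exact add_pos_of_nonneg_of_pos (hs0 _) hε0
  · rw [Finset.sum_add_distrib]
    have h1 : ∑ α : {α // α ∈ T j}, s (em ⟨j, α⟩) = δ₁ j := hs j.succ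
    rw [h1]
    by_cases hj : j = j₀
    · subst hj
      have h2 : ∑ α : {α // α ∈ T j}, (if (⟨j, α⟩ : Σ j, {α // α ∈ T j}) = a₀ then ε else 0) = ε := by
        rw [Fintype.sum_eq_single α₀]
        · rw [if_pos rfl]
        · intro x hx
          rw [if_neg]
          intro h
          apply hx
          have := (Sigma.mk.inj_iff.1 h).2
          exact eq_of_heq this
      rw [h2]
      simp only [δ₁, if_true]
      ring
    · have h2 : ∑ α : {α // α ∈ T j}, (if (⟨j, α⟩ : Σ j, {α // α ∈ T j}) = a₀ then ε else 0) = 0 := by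
        refine Finset.sum_eq_zero fun x _ => ?_
        rw [if_neg]
        intro h
        exact hj (Sigma.mk.inj_iff.1 h).1
      rw [h2]
      simp only [δ₁, if_neg hj]
      ring
  · have h1 := hs1 i
    rw [hsplit, hb₀, Pi.zero_apply, add_zero] at h1
    simp only [add_mul, Finset.sum_add_distrib, ite_mul, zero_mul]
    rw [Finset.sum_ite_eq' Finset.univ a₀, if_pos (Finset.mem_univ _)]
    change ∑ a, s (em a) * (a.2.1 i : ℝ) + ε * (α₀.1 i : ℝ) = 1
    have h2 : ε * (b₀.2.1 i : ℝ) = ε * (α₀.1 i : ℝ) := rfl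
    rw [h2] at h1
    have h3 : ∑ a : Σ j, {α // α ∈ T j}, s (em a) * ((em a).2.1 i : ℝ)
        = ∑ a : Σ j, {α // α ∈ T j}, s (em a) * (a.2.1 i : ℝ) := rfl
    rw [h3] at h1
    linarith

end Q47.CY
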